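import Pool.Agent.Q205.Liou.Stab

/-! Almost every point whose forward solution stays in a compact set is recurrent. -/

set_option autoImplicit false

namespace Pool.Agent.Q205.Liou

open Set MeasureTheory Filter Topology Pool.Agent.GR.Flow

variable {E : Type} [NormedAddCommGroup E] [NormedSpace ℝ E]

/-- the forward solution through `z` exists for all times and stays in a compact subset of `Ω` -/
def CompFwd (f : E → E) (Ω : Set E) (z : E) : Prop :=
  ∃ y : ℝ → E, Sol f Ω (Ici 0) y ∧ y 0 = z ∧ ∃ N : Set E, IsCompact N ∧ N ⊆ Ω ∧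
    ∀ t, 0 ≤ t → y t ∈ N

/-- the forward solution through `z` exists for all times and returns close to `z` at arbitrarily
large times -/
def RecFwd (f : E → E) (Ω : Set E) (z : E) : Prop :=
  ∃ y : ℝ → E, Sol f Ω (Ici 0) y ∧ y 0 = z ∧ ∀ ε : ℝ, 0 < ε → ∀ T : ℝ, ∃ t, T ≤ t ∧ 0 ≤ t ∧
    dist (y t) z < ε

theorem unique_in {f : E → E} {Ω W : Set E} {X : E → E} {K : NNReal} {g : ℝ → E → E}
    (hK : LipschitzWith K X) (hg : IsFlowOf X g) (hXf : ∀ z ∈ W, X z = f z) {a b : ℝ}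
    {y : ℝ → E} (hy : Sol f Ω (Icc a b) y) (hyW : ∀ t ∈ Icc a b, y t ∈ W) :
    ∀ t ∈ Icc a b, y t = g (t - a) (y a) := by
  have hyc : ContinuousOn y (Icc a b) := fun t ht => (hy t ht).2.continuousWithinAt
  have hgd : ∀ t, HasDerivAt (fun t => g (t - a) (y a)) (X (g (t - a) (y a))) t := by
    intro t
    have := (hg.deriv (y a) (t - a)).scomp t ((hasDerivAt_id t).sub_const a)
    rw [one_smul] at this
    exact this
  have hgc : Continuous (fun t => g (t - a) (y a)) :=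
    continuous_iff_continuousAt.2 fun t => (hgd t).continuousAt
  have hE : EqOn y (fun t => g (t - a) (y a)) (Icc a b) := by
    refine ODE_solution_unique (v := fun _ => X) (K := K) (fun _ => hK) hyc ?_ hgc.continuousOn
      (fun t _ => (hgd t).hasDerivWithinAt) (by simp [hg.zero])
    intro t ht
    have htI : t ∈ Icc a b := ⟨ht.1, ht.2.le⟩
    have h2 := (hy t htI).2
    rw [← hXf _ (hyW t htI)] at h2
    refine h2.mono_of_mem_nhdsWithin ?_
    have h3 : Iio b ∈ 𝓝 t := Iio_mem_nhds ht.2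
    filter_upwards [self_mem_nhdsWithin, mem_nhdsWithin_of_mem_nhds h3] with s hs1 hs2
    exact ⟨ht.1.trans hs1, le_of_lt hs2⟩
  exact fun t ht => hE ht

variable [FiniteDimensional ℝ E]

theorem exists_exhaustion {Ω : Set E} (hΩ : IsOpen Ω) : ∃ N : ℕ → Set E, (∀ k, IsCompact (N k)) ∧
    (∀ k, N k ⊆ Ω) ∧ ∀ M : Set E, IsCompact M → M ⊆ Ω → ∃ k, M ⊆ N k := by
  haveI : ProperSpace E := FiniteDimensional.proper ℝ E
  haveI : LocallyCompactSpace Ω := hΩ.locallyCompactSpace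
  set K : CompactExhaustion Ω := default with hK
  refine ⟨fun k => Subtype.val '' K k, fun k => (K.isCompact k).image continuous_subtype_val,
    fun k => ?_, fun M hM hMΩ => ?_⟩
  · rintro _ ⟨x, -, rfl⟩
    exact x.2
  · have h1 : IsCompact (Subtype.val ⁻¹' M : Set Ω) := by
      rw [Subtype.isCompact_iff, Subtype.image_preimage_coe, inter_eq_right.2 hMΩ]
      exact hM
    obtain ⟨k, hk⟩ := K.exists_superset_of_isCompact h1
    exact ⟨k, fun z hz => ⟨⟨z, hMΩ hz⟩, hk hz, rfl⟩⟩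

theorem rec_step [MeasurableSpace E] [BorelSpace E] {f : E → E} {Ω : Set E} (hΩ : IsOpen Ω)
    (hf : ∀ z ∈ Ω, ContDiffAt ℝ 1 f z)
    (htr : ∀ z ∈ Ω, LinearMap.trace ℝ E (fderiv ℝ f z : E →ₗ[ℝ] E) = 0) (μ : Measure E)
    [μ.IsAddHaarMeasure] {N : Set E} (hN : IsCompact N) (hNΩ : N ⊆ Ω) :
    ∀ᵐ z ∂μ, (∃ y : ℝ → E, Sol f Ω (Ici 0) y ∧ y 0 = z ∧ ∀ t, 0 ≤ t → y t ∈ N) →
      RecFwd f Ω z := by
  haveI : ProperSpace E := FiniteDimensional.proper ℝ E
  obtain ⟨X, L, g, W, hX, hL, hg, hW, hNW, hWΩ, hXf⟩ := exists_cut hΩ hf hN hNΩ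
  have hgc : ∀ t, Continuous (g t) := fun t => (diff_flow hX hL hg t).continuous
  set B : Set E := {z | ∀ t, 0 ≤ t → g t z ∈ N} with hB
  have hBc : IsClosed B := by
    have : B = ⋂ t : ℝ, ⋂ _ : 0 ≤ t, g t ⁻¹' N := by
      ext z; simp [hB]
    rw [this]
    exact isClosed_iInter fun t => isClosed_iInter fun _ => hN.isClosed.preimage (hgc t)
  have hBN : B ⊆ N := fun z hz => by simpa [hg.zero] using hz 0 le_rfl
  have hBfin : μ B ≠ ⊤ := ((measure_mono hBN).trans_lt hN.measure_lt_top).ne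
  have hfwd : ∀ s, 0 ≤ s → g s '' B ⊆ B := by
    rintro s hs _ ⟨z, hz, rfl⟩ t ht
    rw [← hg.add hL]
    exact hz _ (add_nonneg ht hs)
  have hsol : ∀ z ∈ B, Sol f Ω (Ici 0) (fun t => g t z) := by
    intro z hz t ht
    refine ⟨hWΩ (hNW (hz t ht)), ?_⟩
    rw [← hXf _ (hNW (hz t ht))]
    exact (hg.deriv z t).hasDerivWithinAt
  have hmem : ∀ z, (∃ y : ℝ → E, Sol f Ω (Ici 0) y ∧ y 0 = z ∧ ∀ t, 0 ≤ t → y t ∈ N) →
      z ∈ B := by
    rintro z ⟨y, hy, hy0, hyN⟩ t ht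
    have h1 := unique_in (W := W) hL hg hXf (hy.mono (J' := Icc 0 t) fun s hs => hs.1)
      (fun s hs => hNW (hyN s hs.1)) t ⟨ht, le_rfl⟩
    rw [sub_zero, hy0] at h1
    rw [← h1]
    exact hyN t ht
  have himg : ∀ S ⊆ B, MeasurableSet S → ∀ s, 0 ≤ s → μ (g s '' S) = μ S := by
    intro S hSB hS s hs
    refine measure_image hX hL hg μ hS fun p hp r hr => ?_
    rw [uIcc_of_le hs] at hr
    exact trace_cut hW hWΩ hXf htr (hNW (hSB hp r hr.1))
  have hcons : Conservative (g 1) (μ.restrict B) := by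
    haveI : IsFiniteMeasure (μ.restrict B) := by
      refine ⟨?_⟩
      rw [Measure.restrict_apply_univ]
      exact lt_of_le_of_ne le_top hBfin
    have hmp : MeasurePreserving (g 1) (μ.restrict B) (μ.restrict B) := by
      refine ⟨(hgc 1).measurable, ?_⟩
      ext S hS
      rw [Measure.map_apply (hgc 1).measurable hS, Measure.restrict_apply hS,
        Measure.restrict_apply ((hgc 1).measurable hS)]
      have h1 : g 1 '' (g 1 ⁻¹' S ∩ B) = S ∩ g 1 '' B := image_preimage_inter _ _ _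
      have h2 := himg (g 1 ⁻¹' S ∩ B) inter_subset_right
        (((hgc 1).measurable hS).inter hBc.measurableSet) 1 zero_le_one
      rw [← h2, h1]
      have hgB : MeasurableSet (g 1 '' B) := by
        rw [image_flow hL hg]
        exact (hgc _).measurable hBc.measurableSet
      have h3 : μ (B \ g 1 '' B) = 0 := by
        rw [measure_diff (hfwd 1 zero_le_one) hgB.nullMeasurableSet
          (by rw [himg B Subset.rfl hBc.measurableSet 1 zero_le_one]; exact hBfin),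
          himg B Subset.rfl hBc.measurableSet 1 zero_le_one, tsub_self]
      refine le_antisymm (measure_mono (inter_subset_inter_right _ (hfwd 1 zero_le_one))) ?_
      calc μ (S ∩ B) ≤ μ ((S ∩ g 1 '' B) ∪ (B \ g 1 '' B)) := by
            refine measure_mono fun z hz => ?_
            by_cases h : z ∈ g 1 '' B
            · exact Or.inl ⟨hz.1, h⟩
            · exact Or.inr ⟨hz.2, h⟩
        _ ≤ μ (S ∩ g 1 '' B) + μ (B \ g 1 '' B) := measure_union_le _ _
        _ = μ (S ∩ g 1 '' B) := by rw [h3, add_zero]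
    exact hmp.conservative
  have h1 := hcons.ae_frequently_mem_of_mem_nhds
  rw [ae_restrict_iff' hBc.measurableSet] at h1
  filter_upwards [h1] with z hz hzc
  have hzB := hmem z hzc
  refine ⟨fun t => g t z, hsol z hzB, hg.zero z, fun ε hε T => ?_⟩
  obtain ⟨k, hk⟩ := exists_nat_ge T
  obtain ⟨a, ha, ha2⟩ := frequently_atTop.1 (hz hzB _ (Metric.ball_mem_nhds z hε)) k
  rw [iter_flow hL hg, mul_one] at ha2
  have ha' : (k : ℝ) ≤ a := by exact_mod_cast ha
  exact ⟨a, hk.trans ha', a.cast_nonneg, ha2⟩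

/-- almost every point with compact forward solution is recurrent -/
theorem rec_comp [MeasurableSpace E] [BorelSpace E] {f : E → E} {Ω : Set E} (hΩ : IsOpen Ω)
    (hf : ∀ z ∈ Ω, ContDiffAt ℝ 1 f z)
    (htr : ∀ z ∈ Ω, LinearMap.trace ℝ E (fderiv ℝ f z : E →ₗ[ℝ] E) = 0) (μ : Measure E)
    [μ.IsAddHaarMeasure] : ∀ᵐ z ∂μ, CompFwd f Ω z → RecFwd f Ω z := by
  obtain ⟨N, hNc, hNΩ, hNM⟩ := exists_exhaustion hΩ
  have h1 : ∀ᵐ z ∂μ, ∀ k, (∃ y : ℝ → E, Sol f Ω (Ici 0) y ∧ y 0 = z ∧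
      ∀ t, 0 ≤ t → y t ∈ N k) → RecFwd f Ω z :=
    ae_all_iff.2 fun k => rec_step hΩ hf htr μ (hNc k) (hNΩ k)
  filter_upwards [h1] with z hz hzc
  obtain ⟨y, hy, hy0, M, hM, hMΩ, hyM⟩ := hzc
  obtain ⟨k, hk⟩ := hNM M hM hMΩ
  exact hz k ⟨y, hy, hy0, fun t ht => hk (hyM t ht)⟩

end Pool.Agent.Q205.Liou
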