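import Pool.Agent.Q205.Liou.Thm

/-! Almost all and generic points of the centre of mass space, in linear coordinates. -/

set_option autoImplicit false

namespace Pool.Agent.Q205.Liou

open Set MeasureTheory Filter Topology Pool.Agent.W821.TB

variable {n : ℕ}

/-- `e` gives linear coordinates on the space of all `(q, v)` with the centre of mass at rest in the
origin -/
def IsCoord {d : ℕ} (m : Fin n → ℝ) (e : (Fin d → ℝ) → Ph n) : Prop :=
  IsLinearMap ℝ e ∧ Function.Injective e ∧ ∀ z, z ∈ Set.range e ↔ IsCom m z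

/-- in linear coordinates, `P` holds for Lebesgue almost every point -/
def AlmostEvery (m : Fin n → ℝ) (P : Ph n → Prop) : Prop :=
  ∀ (d : ℕ) (e : (Fin d → ℝ) → Ph n), IsCoord m e → ∀ᵐ s, P (e s)

/-- in linear coordinates, `P` holds for generic points (all points of a residual set) -/
def Generic (m : Fin n → ℝ) (P : Ph n → Prop) : Prop :=
  ∀ (d : ℕ) (e : (Fin d → ℝ) → Ph n), IsCoord m e → ∀ᶠ s in residual (Fin d → ℝ), P (e s)

theorem exists_cle {d : ℕ} {m : Fin n → ℝ} {e : (Fin d → ℝ) → Ph n} (he : IsCoord m e) :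
    ∃ L : (Fin d → ℝ) ≃L[ℝ] com m, ∀ s, (L s : Ph n) = e s := by
  obtain ⟨h1, h2, h3⟩ := he
  set l : (Fin d → ℝ) →ₗ[ℝ] com m := LinearMap.codRestrict (com m) (h1.mk' e)
    (fun s => (h3 _).1 ⟨s, rfl⟩) with hl
  have hval : ∀ s, (l s : Ph n) = e s := fun s => rfl
  have hb : Function.Bijective l := by
    constructor
    · intro s t hst
      apply h2
      rw [← hval, ← hval, hst]
    · intro z
      obtain ⟨s, hs⟩ := (h3 z).2 z.2
      exact ⟨s, Subtype.ext hs⟩
  refine ⟨(LinearEquiv.ofBijective l hb).toContinuousLinearEquiv, fun s => rfl⟩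

theorem almostEvery_of {m : Fin n → ℝ} {P : Ph n → Prop}
    (h : ∀ μ : Measure (com m), μ.IsAddHaarMeasure → ∀ᵐ (z : com m) ∂μ, P (z : Ph n)) :
    AlmostEvery m P := by
  intro d e he
  obtain ⟨L, hL⟩ := exists_cle he
  have h1 := h (Measure.map L volume) inferInstance
  have h2 := ae_of_ae_map L.continuous.measurable.aemeasurable h1
  filter_upwards [h2] with s hs
  rwa [hL] at hs

theorem generic_of {m : Fin n → ℝ} {P : Ph n → Prop}
    (h : ∀ᶠ (z : com m) in residual (com m), P (z : Ph n)) : Generic m P := by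
  intro d e he
  obtain ⟨L, hL⟩ := exists_cle he
  have h1 := tendsto_residual_of_isOpenMap L.continuous L.toHomeomorph.isOpenMap
  filter_upwards [h1.eventually h] with s hs
  rwa [hL] at hs

end Pool.Agent.Q205.Liou
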