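import Pool.Agent.Q205.Liou.Dich
import Pool.Agent.Q205.Liou.Coord
import Pool.Agent.W821.TB.Fam

/-! The planar `n`-body problem: solutions with mutual distances bounded above and below. -/

set_option autoImplicit false

namespace Pool.Agent.Q205.Liou

open Set MeasureTheory Filter Topology Pool.Agent.W821.TB

variable {n : ℕ}

/-- the forward solution through `z` exists for all positive times and its mutual distances are
bounded above and bounded away from zero -/
def Confined (m : Fin n → ℝ) (z : Ph n) : Prop :=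
  ∃ y : ℝ → Ph n, IsSol m (Set.Ici 0) y ∧ y 0 = z ∧ ∃ δ R : ℝ, 0 < δ ∧ ∀ t, 0 ≤ t → ∀ a b, a ≠ b →
    δ ≤ ‖(y t).1 a - (y t).1 b‖ ∧ ‖(y t).1 a - (y t).1 b‖ ≤ R

theorem energy_const_Ioi {m : Fin n → ℝ} {y : ℝ → Ph n} (hy : IsSol m (Set.Ici 0) y) {t : ℝ}
    (ht : 0 < t) : energy m (y t) = energy m (y 1) := by
  have hd : ∀ s, 0 < s → HasDerivAt (fun s => energy m (y s)) 0 s := by
    intro s hs
    have h1 : HasDerivAt y ((y s).2, acc m (y s).1) s :=
      (hy s hs.le).2.hasDerivAt (Ici_mem_nhds hs)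
    have := hasDerivAt_energy (m := m) (fun a => fst_deriv h1 a) (fun a => snd_deriv h1 a)
      (hy s hs.le).1.1
    refine this.congr_deriv ?_
    rw [sub_eq_zero]
    refine Finset.sum_congr rfl fun a _ => ?_
    simp only [ip_eq]; ring
  have key : ∀ a b : ℝ, 0 < a → a ≤ b → energy m (y b) = energy m (y a) := by
    intro a b ha hab
    refine constant_of_has_deriv_right_zero (f := fun s => energy m (y s)) (a := a) (b := b) ?_ ?_ b
      ⟨hab, le_rfl⟩
    · exact fun s hs => (hd s (ha.trans_le hs.1)).continuousAt.continuousWithinAt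
    · exact fun s hs => (hd s (ha.trans_le hs.1)).hasDerivWithinAt
  rcases le_total t 1 with h | h
  · exact (key t 1 ht h).symm
  · exact key 1 t one_pos h

theorem pos_bound {m : Fin n → ℝ} (hm : ∀ a, 0 < m a) {w : Ph n} (hw : IsCom m w) {R : ℝ}
    (hR : ∀ a b, a ≠ b → ‖w.1 a - w.1 b‖ ≤ R) (a : Fin n) : ‖w.1 a‖ ≤ max R 0 := by
  set M : ℝ := ∑ b, m b with hM
  have hM0 : 0 < M := Finset.sum_pos (fun b _ => hm b) ⟨a, Finset.mem_univ a⟩
  have h1 : (M : ℂ) * w.1 a = ∑ b, (m b : ℂ) * (w.1 a - w.1 b) := by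
    simp only [mul_sub, Finset.sum_sub_distrib, ← Finset.sum_mul, hw.1, sub_zero]
    rw [hM]; push_cast; rfl
  have h2 : M * ‖w.1 a‖ ≤ M * max R 0 := by
    calc M * ‖w.1 a‖ = ‖(M : ℂ) * w.1 a‖ := by
          rw [norm_mul, Complex.norm_real, Real.norm_eq_abs, abs_of_pos hM0]
      _ = ‖∑ b, (m b : ℂ) * (w.1 a - w.1 b)‖ := by rw [h1]
      _ ≤ ∑ b, ‖(m b : ℂ) * (w.1 a - w.1 b)‖ := norm_sum_le _ _
      _ ≤ ∑ b, m b * max R 0 := by
          refine Finset.sum_le_sum fun b _ => ?_
          rw [norm_mul, Complex.norm_real, Real.norm_eq_abs, abs_of_pos (hm b)]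
          refine mul_le_mul_of_nonneg_left ?_ (hm b).le
          by_cases hab : a = b
          · subst hab; simp
          · exact (hR a b hab).trans (le_max_left _ _)
      _ = M * max R 0 := by rw [← Finset.sum_mul]
  exact le_of_mul_le_mul_left h2 hM0

theorem vel_bound {m : Fin n → ℝ} (hm : ∀ a, 0 < m a) {w : Ph n} {δ : ℝ} (hδ : 0 < δ)
    (hd : ∀ a b, a ≠ b → δ ≤ ‖w.1 a - w.1 b‖) (a : Fin n) :
    ‖w.2 a‖ ≤ Real.sqrt (2 * (energy m w + (∑ a, ∑ b, m a * m b / δ) / 2) / m a) := by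
  have h1 : upot m w.1 ≤ (∑ a, ∑ b, m a * m b / δ) / 2 := by
    unfold upot
    gcongr with c _
    calc ∑ b ∈ Finset.univ.erase c, m c * m b / ‖w.1 b - w.1 c‖
        ≤ ∑ b ∈ Finset.univ.erase c, m c * m b / δ := by
          refine Finset.sum_le_sum fun b hb => ?_
          have := hd b c (Finset.ne_of_mem_erase hb)
          exact div_le_div_of_nonneg_left (mul_pos (hm c) (hm b)).le hδ this
      _ ≤ ∑ b, m c * m b / δ :=
          Finset.sum_le_sum_of_subset_of_nonneg (Finset.erase_subset _ _) fun b _ _ =>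
            (div_pos (mul_pos (hm c) (hm b)) hδ).le
  have h2 : m a * ‖w.2 a‖ ^ 2 ≤ ∑ b, m b * ‖w.2 b‖ ^ 2 :=
    Finset.single_le_sum (f := fun b => m b * ‖w.2 b‖ ^ 2)
      (fun b _ => mul_nonneg (hm b).le (sq_nonneg _)) (Finset.mem_univ a)
  have h3 : energy m w = (∑ b, m b * ‖w.2 b‖ ^ 2) / 2 - upot m w.1 := rfl
  refine Real.le_sqrt_of_sq_le ?_
  rw [le_div_iff₀ (hm a)]
  nlinarith

theorem compFwd_of_confined {m : Fin n → ℝ} (hm : ∀ a, 0 < m a) {z : com m}
    (h : Confined m (z : Ph n)) : CompFwd (fld m) (free m) z := by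
  obtain ⟨y, hy, hy0, δ, R, hδ, hb⟩ := h
  obtain ⟨P, hP⟩ := exists_proj m
  obtain ⟨hd, hc⟩ := sol_down P hP hy
  set V : Fin n → ℝ := fun a =>
    Real.sqrt (2 * (energy m (y 1) + (∑ a, ∑ b, m a * m b / δ) / 2) / m a) with hV
  set K : Set (Ph n) := {w | ∀ a b, a ≠ b → δ ≤ ‖w.1 a - w.1 b‖} ∩
    ((Set.univ.pi fun _ => Metric.closedBall 0 (max R 0)) ×ˢ
      (Set.univ.pi fun a => Metric.closedBall 0 (V a))) with hK
  have hcl : IsClosed {w : Ph n | ∀ a b, a ≠ b → δ ≤ ‖w.1 a - w.1 b‖} := by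
    simp only [Set.setOf_forall]
    refine isClosed_iInter fun a => isClosed_iInter fun b => isClosed_iInter fun _ => ?_
    exact isClosed_le continuous_const (by fun_prop)
  have hKc : IsCompact K :=
    ((isCompact_univ_pi fun _ => isCompact_closedBall _ _).prod
      (isCompact_univ_pi fun _ => isCompact_closedBall _ _)).inter_left hcl
  have hyK1 : ∀ t, 0 < t → y t ∈ K := by
    intro t ht
    refine ⟨fun a b hab => (hb t ht.le a b hab).1, ?_, ?_⟩
    · intro a _
      rw [mem_closedBall_zero_iff]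
      exact pos_bound hm (hy t ht.le).1.2 (fun a b hab => (hb t ht.le a b hab).2) a
    · intro a _
      rw [mem_closedBall_zero_iff]
      have := vel_bound hm hδ (fun a b hab => (hb t ht.le a b hab).1) a (w := y t)
      rw [energy_const_Ioi hy ht] at this
      exact this
  have hyK : ∀ t, 0 ≤ t → y t ∈ K := by
    intro t ht
    rcases eq_or_lt_of_le ht with h | h
    · rw [← h]
      have h1 : Tendsto y (𝓝[>] 0) (𝓝 (y 0)) :=
        (hy 0 (mem_Ici.2 le_rfl)).2.continuousWithinAt.mono_left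
          (nhdsWithin_mono _ Ioi_subset_Ici_self)
      refine hKc.isClosed.mem_of_tendsto h1 ?_
      filter_upwards [self_mem_nhdsWithin] with s hs using hyK1 s hs
    · exact hyK1 t h
  have hcom : IsClosed ((com m : Submodule ℝ (Ph n)) : Set (Ph n)) :=
    Submodule.closed_of_finiteDimensional _
  refine ⟨fun t => P (y t), hd, by change P (y 0) = z; rw [hy0, hP],
    (fun z : com m => (z : Ph n)) ⁻¹' K, hcom.isClosedEmbedding_subtypeVal.isCompact_preimage hKc,
    ?_, fun t ht => ?_⟩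
  · intro w hw a b hab h
    have := hw.1 a b hab
    rw [h, sub_self, norm_zero] at this
    exact absurd this (not_le.2 hδ)
  · change (P (y t) : Ph n) ∈ K
    rw [hc t ht]
    exact hyK t ht

end Pool.Agent.Q205.Liou
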