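import Pool.Agent.Q205.Liou.Conf

/-! The planar `n`-body problem: generic non-confinement or trapped open sets. -/

set_option autoImplicit false

namespace Pool.Agent.Q205.Liou

open Set MeasureTheory Filter Topology Pool.Agent.W821.TB

variable {n : ℕ}

/-- the solution through `z` exists for all positive times and returns arbitrarily close to `z` at
arbitrarily large times -/
def RecurrentForward (m : Fin n → ℝ) (z : Ph n) : Prop :=
  ∃ y : ℝ → Ph n, IsSol m (Set.Ici 0) y ∧ y 0 = z ∧ ∀ ε : ℝ, 0 < ε → ∀ T : ℝ,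
    ∃ t, T ≤ t ∧ dist (y t) z < ε

/-- `C` is a compact set of collision free phase points; solutions through points of `C` exist for
all times, and every solution on an interval which meets `C` at some time lies in `C` -/
def IsTrapSet (m : Fin n → ℝ) (C : Set (Ph n)) : Prop :=
  IsCompact C ∧ C ⊆ phaseSpace m ∧
    (∀ z ∈ C, ∃ y : ℝ → Ph n, IsSol m Set.univ y ∧ y 0 = z) ∧
    ∀ J : Set ℝ, J.OrdConnected → ∀ y : ℝ → Ph n, IsSol m J y → (∃ t ∈ J, y t ∈ C) →
      ∀ t ∈ J, y t ∈ C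

theorem recurrent_of_confined {m : Fin n → ℝ} (hm : ∀ a, 0 < m a) :
    AlmostEvery m (fun z => Confined m z → RecurrentForward m z) := by
  refine almostEvery_of fun μ hμ => ?_
  have h1 := rec_comp (f := fld m) (isOpen_free m) (fun z hz => contDiffAt_fld hz)
    (fun z hz => trace_fld hz) μ
  filter_upwards [h1] with z hz hzc
  obtain ⟨y, hy, hy0, hrec⟩ := hz (compFwd_of_confined hm hzc)
  refine ⟨fun t => (y t : Ph n), sol_up hy, congrArg Subtype.val hy0, fun ε hε T => ?_⟩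
  obtain ⟨t, ht, -, htd⟩ := hrec ε hε T
  exact ⟨t, ht, htd⟩

theorem trap_or_generic {m : Fin n → ℝ} (hm : ∀ a, 0 < m a) {U : Set (Ph n)} (hU : IsOpen U) :
    Generic m (fun z => z ∈ U → ¬ Confined m z) ∨
    ∃ V C : Set (Ph n), IsOpen V ∧ V ⊆ U ∧ (∃ z ∈ V, z ∈ phaseSpace m) ∧
      (∀ z ∈ V, IsCom m z → z ∈ C) ∧ IsTrapSet m C ∧
      AlmostEvery m (fun z => z ∈ V → Recurrent m z) ∧
      Generic m (fun z => z ∈ V → Recurrent m z) := by
  rcases dichotomy (f := fld m) (isOpen_free m) (fun z hz => contDiffAt_fld hz)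
    (fun z hz => trace_fld hz) (hU.preimage continuous_subtype_val) with h |
    ⟨V, C, hV, ⟨v, hv⟩, hVU, hVC, ⟨hCc, hCf, hCe, hCJ⟩, hae, hres⟩
  · left
    refine generic_of ?_
    filter_upwards [h] with z hz hzU hzc
    exact hz hzU (compFwd_of_confined hm hzc)
  · right
    obtain ⟨P, hP⟩ := exists_proj m
    obtain ⟨O, hO, hOV⟩ := isOpen_induced_iff.1 hV
    have hmem : ∀ z : com m, (z : Ph n) ∈ O ↔ z ∈ V := by
      intro z
      rw [← hOV]
      rfl
    have hrec : ∀ z : com m, RecSol (fld m) (free m) z → Recurrent m (z : Ph n) := by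
      rintro z ⟨y, hy, hy0, hrec⟩
      exact ⟨fun t => (y t : Ph n), sol_up hy, congrArg Subtype.val hy0, hrec⟩
    refine ⟨O ∩ U, (fun z : com m => (z : Ph n)) '' C, hO.inter hU, inter_subset_right,
      ⟨v, ⟨(hmem v).2 hv, hVU hv⟩, mem_free.1 (hCf (hVC hv))⟩, fun z hz hzc => ?_,
      ⟨hCc.image continuous_subtype_val, ?_, ?_, ?_⟩, almostEvery_of fun μ hμ => ?_,
      generic_of ?_⟩
    · exact ⟨⟨z, hzc⟩, hVC ((hmem ⟨z, hzc⟩).1 hz.1), rfl⟩
    · rintro _ ⟨z, hz, rfl⟩
      exact mem_free.1 (hCf hz)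
    · rintro _ ⟨z, hz, rfl⟩
      obtain ⟨y, hy, hy0⟩ := hCe z hz
      exact ⟨fun t => (y t : Ph n), sol_up hy, congrArg Subtype.val hy0⟩
    · rintro J hJ y hy ⟨t₀, ht₀, w, hw, hwt⟩ t ht
      obtain ⟨hd, hc⟩ := sol_down P hP hy
      have h1 : P (y t₀) ∈ C := by
        have : P (y t₀) = w := by
          rw [← hwt]
          exact hP w
        rw [this]
        exact hw
      exact ⟨P (y t), hCJ J hJ _ hd ⟨t₀, ht₀, h1⟩ t ht, hc t ht⟩
    · filter_upwards [hae μ hμ] with z hz hzO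
      exact hrec z (hz ((hmem z).1 hzO.1))
    · filter_upwards [hres] with z hz hzO
      exact hrec z (hz ((hmem z).1 hzO.1))

end Pool.Agent.Q205.Liou
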