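import Pool.Agent.Q205.Liou.Comp

/-! Almost every solution of a divergence free vector field that exists for all positive times is
recurrent or leaves every compact set for good. -/

set_option autoImplicit false

namespace Pool.Agent.Q205.Liou

open Set MeasureTheory Filter Topology Pool.Agent.GR.Flow

variable {E : Type} [NormedAddCommGroup E] [NormedSpace ℝ E] [FiniteDimensional ℝ E]

theorem sol_unique {f : E → E} {Ω : Set E} (hΩ : IsOpen Ω) (hf : ∀ z ∈ Ω, ContDiffAt ℝ 1 f z)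
    {a b : ℝ} {y₁ y₂ : ℝ → E} (h₁ : Sol f Ω (Icc a b) y₁) (h₂ : Sol f Ω (Icc a b) y₂)
    (h0 : y₁ a = y₂ a) : ∀ t ∈ Icc a b, y₁ t = y₂ t := by
  have c1 : ContinuousOn y₁ (Icc a b) := fun t ht => (h₁ t ht).2.continuousWithinAt
  have c2 : ContinuousOn y₂ (Icc a b) := fun t ht => (h₂ t ht).2.continuousWithinAt
  have hN : IsCompact (y₁ '' Icc a b ∪ y₂ '' Icc a b) :=
    (isCompact_Icc.image_of_continuousOn c1).union (isCompact_Icc.image_of_continuousOn c2)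
  have hNΩ : y₁ '' Icc a b ∪ y₂ '' Icc a b ⊆ Ω := by
    rintro _ (⟨t, ht, rfl⟩ | ⟨t, ht, rfl⟩)
    · exact (h₁ t ht).1
    · exact (h₂ t ht).1
  obtain ⟨X, L, g, W, hX, hL, hg, hW, hNW, hWΩ, hXf⟩ := exists_cut hΩ hf hN hNΩ
  intro t ht
  rw [unique_in hL hg hXf h₁ (fun s hs => hNW (Or.inl ⟨s, hs, rfl⟩)) t ht,
    unique_in hL hg hXf h₂ (fun s hs => hNW (Or.inr ⟨s, hs, rfl⟩)) t ht, h0]

theorem sol_unique_back {f : E → E} {Ω : Set E} (hΩ : IsOpen Ω)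
    (hf : ∀ z ∈ Ω, ContDiffAt ℝ 1 f z) {a b : ℝ} {y₁ y₂ : ℝ → E} (h₁ : Sol f Ω (Icc a b) y₁)
    (h₂ : Sol f Ω (Icc a b) y₂) (h0 : y₁ b = y₂ b) : ∀ t ∈ Icc a b, y₁ t = y₂ t := by
  intro t ht
  have e1 : Sol (fun z => -f z) Ω (Icc (-b) (-a)) (fun t => y₁ (-t)) :=
    h₁.rev fun s hs => ⟨by linarith [hs.2], by linarith [hs.1]⟩
  have e2 : Sol (fun z => -f z) Ω (Icc (-b) (-a)) (fun t => y₂ (-t)) :=
    h₂.rev fun s hs => ⟨by linarith [hs.2], by linarith [hs.1]⟩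
  have := sol_unique hΩ (fun z hz => (hf z hz).neg) e1 e2 (by simpa using h0) (-t)
    ⟨by linarith [ht.2], by linarith [ht.1]⟩
  simpa using this

/-- the points whose solution exists on `[0, t]` and is in `S` at time `t` -/
def Pre (f : E → E) (Ω : Set E) (t : ℝ) (S : Set E) : Set E :=
  {z | ∃ y : ℝ → E, Sol f Ω (Icc 0 t) y ∧ y 0 = z ∧ y t ∈ S}

/-- the endpoints at time `t` of solutions on `[0, t]` that start in `S` -/
def Im (f : E → E) (Ω : Set E) (t : ℝ) (S : Set E) : Set E :=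
  {x | ∃ y : ℝ → E, Sol f Ω (Icc 0 t) y ∧ y 0 ∈ S ∧ y t = x}

theorem pieces [MeasurableSpace E] [BorelSpace E] {f : E → E} {Ω : Set E} (hΩ : IsOpen Ω)
    (hf : ∀ z ∈ Ω, ContDiffAt ℝ 1 f z)
    (htr : ∀ z ∈ Ω, LinearMap.trace ℝ E (fderiv ℝ f z : E →ₗ[ℝ] E) = 0) (μ : Measure E)
    [μ.IsAddHaarMeasure] {t : ℝ} (ht : 0 ≤ t) :
    ∃ (C : ℕ → Set E) (G : ℕ → E → E), (∀ j, IsClosed (C j)) ∧ (∀ j, Continuous (G j)) ∧
      (∀ j, ∀ z ∈ C j, ∃ y : ℝ → E, Sol f Ω (Icc 0 t) y ∧ y 0 = z ∧ y t = G j z) ∧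
      (∀ y : ℝ → E, Sol f Ω (Icc 0 t) y → ∃ j, y 0 ∈ C j) ∧
      (∀ j, ∀ S ⊆ C j, MeasurableSet S → MeasurableSet (G j '' S) ∧ μ (G j '' S) = μ S) := by
  obtain ⟨N, hNc, hNΩ, hNM⟩ := exists_exhaustion hΩ
  choose X L g W hX hL hg hW hNW hWΩ hXf using fun k => exists_cut hΩ hf (hNc k) (hNΩ k)
  have hgc : ∀ k t, Continuous (g k t) := fun k t => (diff_flow (hX k) (hL k) (hg k) t).continuous
  refine ⟨fun j => {z | ∀ s ∈ Icc 0 t, g j s z ∈ N j}, fun j => g j t, fun j => ?_,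
    fun j => hgc j t, fun j z hz => ⟨fun s => g j s z, fun s hs => ⟨hNΩ j (hz s hs), ?_⟩,
      (hg j).zero z, rfl⟩, fun y hy => ?_, fun j S hSC hS => ⟨?_, ?_⟩⟩
  · have : {z | ∀ s ∈ Icc 0 t, g j s z ∈ N j} = ⋂ s : ℝ, ⋂ _ : s ∈ Icc 0 t, g j s ⁻¹' N j := by
      ext z; simp
    change IsClosed {z | ∀ s ∈ Icc 0 t, g j s z ∈ N j}
    rw [this]
    exact isClosed_iInter fun s => isClosed_iInter fun _ => (hNc j).isClosed.preimage (hgc j s)
  · rw [← hXf j _ (hNW j (hz s hs))]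
    exact ((hg j).deriv z s).hasDerivWithinAt
  · have c1 : ContinuousOn y (Icc 0 t) := fun s hs => (hy s hs).2.continuousWithinAt
    obtain ⟨j, hj⟩ := hNM (y '' Icc 0 t) (isCompact_Icc.image_of_continuousOn c1) (by
      rintro _ ⟨s, hs, rfl⟩
      exact (hy s hs).1)
    refine ⟨j, fun s hs => ?_⟩
    have h1 := unique_in (hL j) (hg j) (hXf j) hy (fun r hr => hNW j (hj ⟨r, hr, rfl⟩)) s hs
    rw [sub_zero] at h1
    rw [← h1]
    exact hj ⟨s, hs, rfl⟩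
  · rw [image_flow (hL j) (hg j)]
    exact (hgc j _).measurable hS
  · refine measure_image (hX j) (hL j) (hg j) μ hS fun p hp r hr => ?_
    rw [uIcc_of_le ht] at hr
    exact trace_cut (hW j) (hWΩ j) (hXf j) htr (hNW j (hSC hp r hr))

section

variable [MeasurableSpace E] [BorelSpace E] {f : E → E} {Ω : Set E}

theorem measurable_Pre (hΩ : IsOpen Ω) (hf : ∀ z ∈ Ω, ContDiffAt ℝ 1 f z)
    (htr : ∀ z ∈ Ω, LinearMap.trace ℝ E (fderiv ℝ f z : E →ₗ[ℝ] E) = 0) {t : ℝ} (ht : 0 ≤ t)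
    {S : Set E} (hS : MeasurableSet S) : MeasurableSet (Pre f Ω t S) := by
  obtain ⟨C, G, hC, hG, hCG, hall, -⟩ := pieces hΩ hf htr (Measure.addHaar : Measure E) ht
  have : Pre f Ω t S = ⋃ j, C j ∩ G j ⁻¹' S := by
    ext z
    simp only [mem_iUnion, mem_inter_iff, mem_preimage]
    constructor
    · rintro ⟨y, hy, rfl, hyS⟩
      obtain ⟨j, hj⟩ := hall y hy
      obtain ⟨y', hy', hy'0, hy't⟩ := hCG j _ hj
      refine ⟨j, hj, ?_⟩
      rw [← hy't, ← sol_unique hΩ hf hy hy' hy'0.symm t ⟨ht, le_rfl⟩]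
      exact hyS
    · rintro ⟨j, hj, hjS⟩
      obtain ⟨y', hy', hy'0, hy't⟩ := hCG j _ hj
      exact ⟨y', hy', hy'0, by rw [hy't]; exact hjS⟩
  rw [this]
  exact MeasurableSet.iUnion fun j => (hC j).measurableSet.inter ((hG j).measurable hS)

theorem measure_Im (hΩ : IsOpen Ω) (hf : ∀ z ∈ Ω, ContDiffAt ℝ 1 f z)
    (htr : ∀ z ∈ Ω, LinearMap.trace ℝ E (fderiv ℝ f z : E →ₗ[ℝ] E) = 0) (μ : Measure E)
    [μ.IsAddHaarMeasure] {t : ℝ} (ht : 0 ≤ t) {S : Set E} (hS : MeasurableSet S)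
    (hSD : S ⊆ Pre f Ω t univ) :
    MeasurableSet (Im f Ω t S) ∧ μ (Im f Ω t S) = μ S := by
  obtain ⟨C, G, hC, hG, hCG, hall, hmeas⟩ := pieces hΩ hf htr μ ht
  set T : ℕ → Set E := fun j => S ∩ disjointed C j with hT
  have hTC : ∀ j, T j ⊆ C j := fun j => inter_subset_right.trans (disjointed_subset C j)
  have hTm : ∀ j, MeasurableSet (T j) := fun j =>
    hS.inter (MeasurableSet.disjointed (fun i => (hC i).measurableSet) j)
  have hTu : ⋃ j, T j = S := by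
    rw [hT, ← inter_iUnion, iUnion_disjointed, inter_eq_left]
    intro z hz
    obtain ⟨y, hy, rfl, -⟩ := hSD hz
    obtain ⟨j, hj⟩ := hall y hy
    exact mem_iUnion.2 ⟨j, hj⟩
  have hTd : Pairwise (Function.onFun Disjoint T) := fun i j hij =>
    ((disjoint_disjointed C hij).mono inter_subset_right inter_subset_right)
  have hIm : Im f Ω t S = ⋃ j, G j '' T j := by
    ext x
    simp only [mem_iUnion]
    constructor
    · rintro ⟨y, hy, hyS, rfl⟩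
      have h1 : y 0 ∈ ⋃ j, T j := by rw [hTu]; exact hyS
      obtain ⟨j, hj⟩ := mem_iUnion.1 h1
      obtain ⟨y', hy', hy'0, hy't⟩ := hCG j _ (hTC j hj)
      refine ⟨j, y 0, hj, ?_⟩
      rw [← hy't, ← sol_unique hΩ hf hy hy' hy'0.symm t ⟨ht, le_rfl⟩]
    · rintro ⟨j, z, hz, rfl⟩
      obtain ⟨y', hy', hy'0, hy't⟩ := hCG j _ (hTC j hz)
      exact ⟨y', hy', by rw [hy'0]; exact hz.1, hy't⟩
  have hdis : Pairwise (Function.onFun Disjoint fun j => G j '' T j) := by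
    intro i j hij
    rw [Function.onFun, disjoint_left]
    rintro x ⟨a, ha, rfl⟩ ⟨b, hb, hab⟩
    obtain ⟨y₁, h1, h10, h1t⟩ := hCG i _ (hTC i ha)
    obtain ⟨y₂, h2, h20, h2t⟩ := hCG j _ (hTC j hb)
    have h3 := sol_unique_back hΩ hf h1 h2 (by rw [h1t, h2t, hab]) 0 ⟨le_rfl, ht⟩
    rw [h10, h20] at h3
    rw [h3] at ha
    exact disjoint_left.1 (hTd hij) ha hb
  rw [hIm]
  refine ⟨MeasurableSet.iUnion fun j => (hmeas j _ (hTC j) (hTm j)).1, ?_⟩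
  rw [measure_iUnion hdis fun j => (hmeas j _ (hTC j) (hTm j)).1]
  conv_rhs => rw [← hTu, measure_iUnion hTd hTm]
  exact tsum_congr fun j => (hmeas j _ (hTC j) (hTm j)).2

theorem measure_Pre_le (hΩ : IsOpen Ω) (hf : ∀ z ∈ Ω, ContDiffAt ℝ 1 f z)
    (htr : ∀ z ∈ Ω, LinearMap.trace ℝ E (fderiv ℝ f z : E →ₗ[ℝ] E) = 0) (μ : Measure E)
    [μ.IsAddHaarMeasure] {t : ℝ} (ht : 0 ≤ t) {S : Set E} (hS : MeasurableSet S) :
    μ (Pre f Ω t S) ≤ μ S := by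
  have h1 := measure_Im hΩ hf htr μ ht (measurable_Pre hΩ hf htr ht hS) (by
    rintro z ⟨y, hy, hy0, -⟩
    exact ⟨y, hy, hy0, trivial⟩)
  rw [← h1.2]
  refine measure_mono ?_
  rintro x ⟨y, hy, ⟨y', hy', hy'0, hy'S⟩, rfl⟩
  rw [← sol_unique hΩ hf hy' hy hy'0 t ⟨ht, le_rfl⟩]
  exact hy'S

theorem null_Pre (hΩ : IsOpen Ω) (hf : ∀ z ∈ Ω, ContDiffAt ℝ 1 f z)
    (htr : ∀ z ∈ Ω, LinearMap.trace ℝ E (fderiv ℝ f z : E →ₗ[ℝ] E) = 0) (μ : Measure E)
    [μ.IsAddHaarMeasure] {t : ℝ} (ht : 0 ≤ t) {S : Set E} (hS : μ S = 0) :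
    μ (Pre f Ω t S) = 0 := by
  refine measure_mono_null (t := Pre f Ω t (toMeasurable μ S)) ?_ ?_
  · rintro z ⟨y, hy, hy0, hyS⟩
    exact ⟨y, hy, hy0, subset_toMeasurable μ S hyS⟩
  · refine le_antisymm ?_ (zero_le)
    refine (measure_Pre_le hΩ hf htr μ ht (measurableSet_toMeasurable μ S)).trans ?_
    rw [measure_toMeasurable, hS]

/-- Poincare recurrence for visits to a set of finite measure -/
theorem visits (hΩ : IsOpen Ω) (hf : ∀ z ∈ Ω, ContDiffAt ℝ 1 f z)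
    (htr : ∀ z ∈ Ω, LinearMap.trace ℝ E (fderiv ℝ f z : E →ₗ[ℝ] E) = 0) (μ : Measure E)
    [μ.IsAddHaarMeasure] {h : ℝ} (hh : 0 < h) {M V : Set E} (hM : MeasurableSet M)
    (hMf : μ M ≠ ⊤) (hV : MeasurableSet V) :
    ∀ᵐ z ∂μ, z ∈ V → (∃ᶠ n : ℕ in atTop, z ∈ Pre f Ω (n * h) M) →
      ∃ᶠ n : ℕ in atTop, z ∈ Pre f Ω (n * h) V := by
  have hn0 : ∀ n : ℕ, (0:ℝ) ≤ n * h := fun n => by positivity
  set D : Set E := V \ ⋃ n : ℕ, Pre f Ω ((n + 1 : ℕ) * h) V with hD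
  have hDm : MeasurableSet D :=
    hV.diff (MeasurableSet.iUnion fun n => measurable_Pre hΩ hf htr (hn0 _) hV)
  set Q : ℕ → Set E := fun n => D ∩ Pre f Ω (n * h) M with hQ
  have hQm : ∀ n, MeasurableSet (Q n) := fun n => hDm.inter (measurable_Pre hΩ hf htr (hn0 n) hM)
  have hIm := fun n : ℕ => measure_Im hΩ hf htr μ (hn0 n) (hQm n) (by
    rintro z ⟨-, y, hy, hy0, -⟩
    exact ⟨y, hy, hy0, trivial⟩)
  have hsub : ∀ n : ℕ, Im f Ω (n * h) (Q n) ⊆ M := by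
    rintro n x ⟨y, hy, ⟨-, y', hy', hy'0, hy'S⟩, rfl⟩
    rw [← sol_unique hΩ hf hy' hy hy'0 _ ⟨hn0 n, le_rfl⟩]
    exact hy'S
  have hkey : ∀ i j : ℕ, i < j → Disjoint (Im f Ω (i * h) (Q i)) (Im f Ω (j * h) (Q j)) := by
    intro i j hij
    rw [disjoint_left]
    rintro x ⟨y₁, h1, hy1, h1x⟩ ⟨y₂, h2, hy2, h2x⟩
    obtain ⟨k, rfl⟩ : ∃ k, j = i + (k + 1) := ⟨j - i - 1, by omega⟩
    have hle : (((k + 1 : ℕ) : ℝ) * h) + i * h = ((i + (k + 1) : ℕ) : ℝ) * h := by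
      push_cast; ring
    have h3 : Sol f Ω (Icc 0 (i * h)) (fun t => y₂ (t + ((k + 1 : ℕ) : ℝ) * h)) := by
      refine h2.shift _ fun t ht => ⟨?_, ?_⟩
      · have := hn0 (k + 1)
        linarith [ht.1]
      · rw [← hle]
        linarith [ht.2]
    have h4 := sol_unique_back hΩ hf h1 h3 (by
      rw [h1x, add_comm, hle]
      exact h2x.symm) 0 ⟨le_rfl, hn0 i⟩
    rw [zero_add] at h4
    refine hy2.1.2 (mem_iUnion.2 ⟨k, y₂, h2.mono (Icc_subset_Icc le_rfl ?_), rfl, ?_⟩)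
    · rw [← hle]
      linarith [hn0 i]
    · rw [← h4]
      exact hy1.1.1
  have hdis : Pairwise (Function.onFun Disjoint fun n : ℕ => Im f Ω (n * h) (Q n)) := by
    intro i j hij
    rcases lt_or_gt_of_ne hij with h1 | h1
    · exact hkey i j h1
    · exact (hkey j i h1).symm
  have hsum : ∑' n, μ (Q n) ≠ ⊤ := by
    have h1 : ∑' n, μ (Q n) = μ (⋃ n : ℕ, Im f Ω (n * h) (Q n)) := by
      rw [measure_iUnion hdis fun n => (hIm n).1]
      exact tsum_congr fun n => (hIm n).2.symm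
    rw [h1]
    exact ((measure_mono (iUnion_subset hsub)).trans_lt (lt_of_le_of_ne le_top hMf)).ne
  have hnull : μ {z | ∃ᶠ n in atTop, z ∈ Q n} = 0 :=
    measure_setOf_frequently_eq_zero (p := fun n z => z ∈ Q n) (by simpa using hsum)
  set B : Set E := {z | z ∈ D ∧ ∃ᶠ n : ℕ in atTop, z ∈ Pre f Ω (n * h) M} with hB
  have hB0 : μ B = 0 := by
    refine measure_mono_null ?_ hnull
    rintro z ⟨hzD, hz⟩
    exact hz.mono fun n hn => ⟨hzD, hn⟩
  have hall : ∀ᵐ z ∂μ, ∀ n : ℕ, z ∉ Pre f Ω (n * h) B := by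
    refine ae_all_iff.2 fun n => ?_
    rw [ae_iff]
    simpa using null_Pre hΩ hf htr μ (hn0 n) hB0
  filter_upwards [hall] with z hz hzV hzM
  by_contra hcon
  rw [not_frequently] at hcon
  obtain ⟨n1, hn1⟩ := eventually_atTop.1 hcon
  -- long solutions through z
  have hlong : ∀ m : ℕ, ∃ N : ℕ, m ≤ N ∧ ∃ y : ℝ → E, Sol f Ω (Icc 0 (N * h)) y ∧ y 0 = z ∧
      y (N * h) ∈ M := by
    intro m
    obtain ⟨N, hN, hNm⟩ := frequently_atTop.1 hzM m
    exact ⟨N, hN, hNm⟩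
  have hz0 : z ∈ Pre f Ω ((0 : ℕ) * h) V := by
    obtain ⟨N, -, y, hy, hy0, -⟩ := hlong 0
    refine ⟨y, hy.mono (Icc_subset_Icc le_rfl ?_), hy0, ?_⟩
    · simpa using hn0 N
    · simp only [Nat.cast_zero, zero_mul]
      rw [hy0]
      exact hzV
  classical
  have hex : ∃ m : ℕ, ∀ n : ℕ, m < n → z ∉ Pre f Ω (n * h) V := ⟨n1, fun n hn => hn1 n hn.le⟩
  set m0 := Nat.find hex with hm0
  have hm1 : ∀ n : ℕ, m0 < n → z ∉ Pre f Ω (n * h) V := Nat.find_spec hex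
  have hm2 : z ∈ Pre f Ω (m0 * h) V := by
    by_contra h1
    rcases Nat.eq_zero_or_pos m0 with h2 | h2
    · rw [h2] at h1
      exact h1 hz0
    · refine Nat.find_min hex (m := m0 - 1) (by omega) fun n hn => ?_
      rcases eq_or_lt_of_le (show m0 ≤ n by omega) with h3 | h3
      · rw [← h3]; exact h1
      · exact hm1 n h3
  obtain ⟨u, hu, hu0, huV⟩ := hm2
  -- values of long solutions at time m0 h
  have hval : ∀ N : ℕ, m0 ≤ N → ∀ y : ℝ → E, Sol f Ω (Icc 0 (N * h)) y → y 0 = z →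
      y (m0 * h) = u (m0 * h) := by
    intro N hN y hy hy0
    have hle : (m0 : ℝ) * h ≤ N * h := mul_le_mul_of_nonneg_right (by exact_mod_cast hN) hh.le
    exact sol_unique hΩ hf (hy.mono (Icc_subset_Icc le_rfl hle)) hu (by rw [hy0, hu0]) _
      ⟨hn0 m0, le_rfl⟩
  refine hz m0 ⟨u, hu, hu0, ⟨huV, ?_⟩, ?_⟩
  · rintro hmem
    obtain ⟨k, y₂, h2, h20, h2V⟩ := mem_iUnion.1 hmem
    obtain ⟨N, hN, y, hy, hy0, -⟩ := hlong (m0 + (k + 1))
    have hle : ((m0 + (k + 1) : ℕ) : ℝ) * h ≤ N * h :=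
      mul_le_mul_of_nonneg_right (by exact_mod_cast hN) hh.le
    have hle2 : (((k + 1 : ℕ) : ℝ) * h) + m0 * h = ((m0 + (k + 1) : ℕ) : ℝ) * h := by
      push_cast; ring
    have h3 : Sol f Ω (Icc 0 (((k + 1 : ℕ) : ℝ) * h)) (fun t => y (t + m0 * h)) := by
      refine hy.shift _ fun t ht => ⟨?_, ?_⟩
      · linarith [ht.1, hn0 m0]
      · linarith [ht.2]
    have h4 := sol_unique hΩ hf h3 h2 (by
      rw [zero_add, h20]
      exact hval N (by omega) y hy hy0) _ ⟨hn0 (k + 1), le_rfl⟩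
    refine hm1 (m0 + (k + 1)) (by omega) ⟨y, hy.mono (Icc_subset_Icc le_rfl hle), hy0, ?_⟩
    rw [← hle2, h4]
    exact h2V
  · refine frequently_atTop.2 fun n => ?_
    obtain ⟨N, hN, y, hy, hy0, hyM⟩ := hlong (m0 + n)
    refine ⟨N - m0, by omega, fun t => y (t + m0 * h), ?_, ?_, ?_⟩
    · refine hy.shift _ fun t ht => ⟨by linarith [ht.1, hn0 m0], ?_⟩
      have := ht.2
      rw [Nat.cast_sub (by omega)] at this
      linarith
    · simp only [zero_add]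
      exact hval N (by omega) y hy hy0
    · simp only
      rw [Nat.cast_sub (by omega)]
      have : ((N : ℝ) - m0) * h + m0 * h = N * h := by ring
      rw [this]
      exact hyM

theorem short_time (hΩ : IsOpen Ω) (hf : ∀ z ∈ Ω, ContDiffAt ℝ 1 f z) {N : Set E}
    (hN : IsCompact N) (hNΩ : N ⊆ Ω) : ∃ h : ℝ, 0 < h ∧ ∃ M : Set E, IsCompact M ∧ M ⊆ Ω ∧
      ∀ y : ℝ → E, Sol f Ω (Icc 0 h) y → y 0 ∈ N → ∀ s ∈ Icc 0 h, y s ∈ M := by
  haveI : ProperSpace E := FiniteDimensional.proper ℝ E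
  obtain ⟨M, hMc, hNM, hMΩ⟩ := exists_compact_between hN hΩ hNΩ
  obtain ⟨X, L, g, W, hX, hL, hg, hW, hMW, hWΩ, hXf⟩ := exists_cut hΩ hf hMc hMΩ
  have hgc := continuous_flow hX hL hg
  obtain ⟨u, v, hu, hv, h0u, hNv, huv⟩ := generalized_tube_lemma (isCompact_singleton (x := (0:ℝ)))
    hN (isOpen_interior.preimage hgc) (n := (fun p : ℝ × E => g p.1 p.2) ⁻¹' interior M) (by
      rintro ⟨s, z⟩ ⟨hs, hz⟩
      rw [mem_singleton_iff] at hs
      change g s z ∈ interior M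
      rw [show s = 0 from hs, hg.zero]
      exact hNM hz)
  obtain ⟨δ, hδ, hδu⟩ := Metric.isOpen_iff.1 hu 0 (h0u rfl)
  refine ⟨δ / 2, by positivity, M, hMc, hMΩ, fun y hy hy0 s hs => ?_⟩
  have h1 : ∀ s ∈ Icc 0 (δ / 2), g s (y 0) ∈ interior M := by
    intro s hs
    refine huv (a := (s, y 0)) ⟨hδu ?_, hNv hy0⟩
    rw [Metric.mem_ball, Real.dist_eq, sub_zero, abs_of_nonneg hs.1]
    linarith [hs.2]
  have h2 : Sol f Ω (Icc 0 (δ / 2)) (fun s => g s (y 0)) := by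
    intro s hs
    refine ⟨hMΩ (interior_subset (h1 s hs)), ?_⟩
    rw [← hXf _ (hMW (interior_subset (h1 s hs)))]
    exact (hg.deriv _ s).hasDerivWithinAt
  rw [sol_unique hΩ hf hy h2 (by rw [hg.zero]) s hs]
  exact interior_subset (h1 s hs)

/-- **Hopf's dichotomy** for the solutions of a divergence free vector field -/
theorem hopf (hΩ : IsOpen Ω) (hf : ∀ z ∈ Ω, ContDiffAt ℝ 1 f z)
    (htr : ∀ z ∈ Ω, LinearMap.trace ℝ E (fderiv ℝ f z : E →ₗ[ℝ] E) = 0) (μ : Measure E)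
    [μ.IsAddHaarMeasure] : ∀ᵐ z ∂μ, ∀ y : ℝ → E, Sol f Ω (Ici 0) y → y 0 = z →
      RecFwd f Ω z ∨ ∀ N : Set E, IsCompact N → N ⊆ Ω → ∃ T : ℝ, ∀ t, T ≤ t → y t ∉ N := by
  haveI : ProperSpace E := FiniteDimensional.proper ℝ E
  obtain ⟨N, hNc, hNΩ, hNM⟩ := exists_exhaustion hΩ
  choose h hh M hMc hMΩ hshort using fun k => short_time hΩ hf (hNc k) (hNΩ k)
  have h1 : ∀ᵐ z ∂μ, ∀ k, ∀ V ∈ TopologicalSpace.countableBasis E, z ∈ V →
      (∃ᶠ n : ℕ in atTop, z ∈ Pre f Ω (n * h k) (M k)) →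
        ∃ᶠ n : ℕ in atTop, z ∈ Pre f Ω (n * h k) V := by
    refine ae_all_iff.2 fun k => (ae_ball_iff (TopologicalSpace.countable_countableBasis E)).2
      fun V hV => ?_
    exact visits hΩ hf htr μ (hh k) (hMc k).measurableSet (hMc k).measure_lt_top.ne
      (TopologicalSpace.isOpen_of_mem_countableBasis hV).measurableSet
  filter_upwards [h1] with z hz y hy hy0
  by_cases hret : ∃ N' : Set E, IsCompact N' ∧ N' ⊆ Ω ∧ ∀ T : ℝ, ∃ t, T ≤ t ∧ y t ∈ N'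
  · left
    obtain ⟨N', hN'c, hN'Ω, hN'⟩ := hret
    obtain ⟨k, hk⟩ := hNM N' hN'c hN'Ω
    have hfreq : ∃ᶠ n : ℕ in atTop, z ∈ Pre f Ω (n * h k) (M k) := by
      refine frequently_atTop.2 fun n => ?_
      obtain ⟨t, ht, htN⟩ := hN' (n * h k)
      have ht0 : 0 ≤ t := le_trans (mul_nonneg n.cast_nonneg (hh k).le) ht
      set j : ℕ := ⌈t / h k⌉₊ with hj
      have hj1 : t ≤ j * h k := by
        have := Nat.le_ceil (t / h k)
        rwa [div_le_iff₀ (hh k)] at this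
      have hj2 : (j : ℝ) * h k ≤ t + h k := by
        have := (Nat.ceil_lt_add_one (div_nonneg ht0 (hh k).le)).le
        have h3 := mul_le_mul_of_nonneg_right this (hh k).le
        rw [add_mul, one_mul, div_mul_cancel₀ _ (hh k).ne'] at h3
        exact h3
      have hnj : n ≤ j := by
        have h4 : (n : ℝ) * h k ≤ j * h k := ht.trans hj1
        have h5 : (n : ℝ) ≤ j := le_of_mul_le_mul_right h4 (hh k)
        exact_mod_cast h5
      refine ⟨j, hnj, y, hy.mono fun s hs => hs.1, hy0, ?_⟩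
      have h6 := hshort k (fun s => y (s + t)) (hy.shift t fun s hs => by
        change 0 ≤ s + t
        linarith [hs.1]) (by
          simp only [zero_add]
          exact hk htN) (j * h k - t) ⟨by linarith, by linarith⟩
      simp only [sub_add_cancel] at h6
      exact h6
    refine ⟨y, hy, hy0, fun ε hε T => ?_⟩
    obtain ⟨V, hV, hzV, hVε⟩ := (TopologicalSpace.isBasis_countableBasis E).mem_nhds_iff.1
      (Metric.ball_mem_nhds z hε)
    have h2 := hz k V hV hzV hfreq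
    obtain ⟨n, hn⟩ := exists_nat_ge (T / h k)
    obtain ⟨j, hj, u, hu, hu0, huV⟩ := frequently_atTop.1 h2 n
    have h3 := sol_unique hΩ hf (hy.mono (J' := Icc 0 (j * h k)) fun s hs => hs.1) hu
      (by rw [hy0, hu0]) _ ⟨mul_nonneg j.cast_nonneg (hh k).le, le_rfl⟩
    refine ⟨j * h k, ?_, mul_nonneg j.cast_nonneg (hh k).le, ?_⟩
    · rw [div_le_iff₀ (hh k)] at hn
      refine hn.trans (mul_le_mul_of_nonneg_right ?_ (hh k).le)
      exact_mod_cast hj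
    · rw [h3]
      exact hVε huV
  · right
    intro N' hN'c hN'Ω
    by_contra hcon
    push Not at hcon
    exact hret ⟨N', hN'c, hN'Ω, fun T => hcon T⟩

end

end Pool.Agent.Q205.Liou
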