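import Pool.Agent.Q205.Liou.NBody

/-! Lyapunov stable compact sets of the planar `n`-body problem. -/

set_option autoImplicit false

namespace Pool.Agent.Q205.Liou

open Set MeasureTheory Filter Topology Pool.Agent.W821.TB

variable {n : ℕ}

theorem main_nbhd {m : Fin n → ℝ} {K : Set (Ph n)} (hK : IsCompact K) (hKp : K ⊆ phaseSpace m)
    (hst : Stable m K) {U : Set (Ph n)} (hU : IsOpen U) (hKU : K ⊆ U) :
    ∃ (C : Set (com m)) (g : ℝ → com m → com m), IsCompact C ∧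
      (fun z : com m => (z : Ph n)) ⁻¹' K ⊆ interior C ∧
      C ⊆ (fun z : com m => (z : Ph n)) ⁻¹' U ∧ (∀ t, Continuous (g t)) ∧ (∀ z, g 0 z = z) ∧
      (∀ s t z, g (s + t) z = g s (g t z)) ∧ (∀ t, ∀ z ∈ C, g t z ∈ C) ∧
      (∀ t, g t '' interior C = interior C) ∧
      (∀ z ∈ C, Sol (fld m) (free m) univ (fun t => g t z)) ∧
      (∀ J : Set ℝ, J.OrdConnected → ∀ y : ℝ → com m, Sol (fld m) (free m) J y → ∀ t₀ ∈ J,
        y t₀ ∈ C → ∀ t ∈ J, y t = g (t - t₀) (y t₀)) ∧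
      (∀ μ : Measure (com m), μ.IsAddHaarMeasure → ∀ᵐ z ∂μ, z ∈ interior C → Rec g z) ∧
      (∀ᶠ z in residual (com m), z ∈ interior C → Rec g z) := by
  have hcl : IsClosed ((com m : Submodule ℝ (Ph n)) : Set (Ph n)) :=
    Submodule.closed_of_finiteDimensional _
  have hK' : IsCompact ((fun z : com m => (z : Ph n)) ⁻¹' K) :=
    hcl.isClosedEmbedding_subtypeVal.isCompact_preimage hK
  have hKf : (fun z : com m => (z : Ph n)) ⁻¹' K ⊆ free m := fun z hz => mem_free.2 (hKp hz)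
  obtain ⟨X, L, g, W, hX, hL, hg, hW, hKW, hWf, hXf⟩ := exists_cut (f := fld m) (isOpen_free m)
    (fun z hz => contDiffAt_fld hz) hK' hKf
  have htr : ∀ z ∈ free m, LinearMap.trace ℝ (com m) (fderiv ℝ (fld m) z : com m →ₗ[ℝ] com m) = 0 :=
    fun z hz => trace_fld hz
  obtain ⟨C, hCc, hKC, hCU, hCW, hgC⟩ := exists_trap hX hL hg hW hWf hXf htr hK' hKW
    (hst.down hKp) (hU.preimage continuous_subtype_val) (fun z hz => hKU hz)
  refine ⟨C, g, hCc, hKC, hCU, fun t => (diff_flow hX hL hg t).continuous, hg.zero,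
    fun s t z => hg.add hL s t z, hgC, int_inv hX hL hg hgC, ?_, ?_, ?_, ?_⟩
  · intro z hz t _
    refine ⟨hWf (hCW (hgC t z hz)), ?_⟩
    rw [← hXf _ (hCW (hgC t z hz))]
    exact (hg.deriv z t).hasDerivWithinAt
  · intro J hJ y hy t₀ ht₀ hyt
    exact unique_both hL hg hW hXf hCW hgC hJ hy ht₀ hyt
  · intro μ hμ
    exact rec_ae hX hL hg hW hWf hXf htr hCc hCW hgC μ
  · exact rec_residual hX hL hg hW hWf hXf htr hCc hCW hgC

/-- the solution through `z` exists for all times and returns arbitrarily close to `z` for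
arbitrarily large positive and negative times -/
def Recurrent (m : Fin n → ℝ) (z : Ph n) : Prop :=
  ∃ y : ℝ → Ph n, IsSol m Set.univ y ∧ y 0 = z ∧ ∀ ε : ℝ, 0 < ε → ∀ T : ℝ,
    (∃ t, T ≤ t ∧ dist (y t) z < ε) ∧ ∃ t, t ≤ -T ∧ dist (y t) z < ε

/-- every rotation by a number `c` of modulus one which maps `z` to a point of the closure of its
orbit satisfies `c ^ k = 1` -/
def Locked (m : Fin n → ℝ) (k : ℕ) (z : Ph n) : Prop :=
  ∀ y : ℝ → Ph n, IsSol m Set.univ y → y 0 = z → ∀ c : ℂ, ‖c‖ = 1 →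
    c • z ∈ closure (Set.range y) → c ^ k = 1

theorem recurrent_of_rec {m : Fin n → ℝ} {g : ℝ → com m → com m} {z : com m}
    (h0 : g 0 z = z) (hs : Sol (fld m) (free m) univ (fun t => g t z)) (hr : Rec g z) :
    Recurrent m (z : Ph n) := by
  refine ⟨fun t => (g t z : Ph n), sol_up hs, by simp [h0], fun ε hε T => ?_⟩
  obtain ⟨N, hN⟩ := exists_nat_ge T
  obtain ⟨⟨a, ha, ha2⟩, b, hb, hb2⟩ := hr ε hε N
  have ha' : (N : ℝ) ≤ a := by exact_mod_cast ha
  have hb' : (N : ℝ) ≤ b := by exact_mod_cast hb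
  exact ⟨⟨a, hN.trans ha', ha2⟩, -(b : ℝ), by linarith, hb2⟩

/-- invariant neighbourhoods -/
theorem part_one {m : Fin n → ℝ} {K : Set (Ph n)} (hK : IsCompact K) (hKp : K ⊆ phaseSpace m)
    (hst : Stable m K) {U : Set (Ph n)} (hU : IsOpen U) (hKU : K ⊆ U) :
    ∃ O : Set (Ph n), IsOpen O ∧ K ⊆ O ∧ O ⊆ U ∧
      (∀ z ∈ O, z ∈ phaseSpace m → ∃ y : ℝ → Ph n, IsSol m Set.univ y ∧ y 0 = z ∧ ∀ t, y t ∈ O) ∧
      (∀ J : Set ℝ, J.OrdConnected → ∀ y : ℝ → Ph n, IsSol m J y → ∀ t₀ ∈ J, y t₀ ∈ O →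
        ∀ t ∈ J, y t ∈ O) ∧
      (∀ μ : Measure (com m), μ.IsAddHaarMeasure → ∀ᵐ (z : com m) ∂μ, (z : Ph n) ∈ O →
        Recurrent m (z : Ph n)) ∧
      (∀ᶠ (z : com m) in residual (com m), (z : Ph n) ∈ O → Recurrent m (z : Ph n)) := by
  obtain ⟨C, g, hCc, hKC, hCU, hgc, hg0, hgadd, hgC, hgint, hsol, huniq, hae, hres⟩ :=
    main_nbhd hK hKp hst hU hKU
  obtain ⟨P, hP⟩ := exists_proj m
  obtain ⟨O₀, hO₀, hO₀C⟩ := isOpen_induced_iff.1 (isOpen_interior (s := C))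
  have hmem : ∀ z : com m, (z : Ph n) ∈ O₀ ↔ z ∈ interior C := by
    intro z
    rw [← hO₀C]
    rfl
  have hmemU : ∀ z : com m, z ∈ interior C → (z : Ph n) ∈ O₀ ∩ U := fun z hz =>
    ⟨(hmem z).2 hz, hCU (interior_subset hz)⟩
  have hstep : ∀ t, ∀ z ∈ interior C, g t z ∈ interior C := by
    intro t z hz
    rw [← hgint t]
    exact ⟨z, hz, rfl⟩
  refine ⟨O₀ ∩ U, hO₀.inter hU, fun z hz => hmemU ⟨z, (hKp hz).2⟩ (hKC hz), inter_subset_right,
    ?_, ?_, ?_, ?_⟩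
  · rintro z ⟨hz, -⟩ hzp
    have hz' : (⟨z, hzp.2⟩ : com m) ∈ interior C := (hmem _).1 hz
    refine ⟨fun t => (g t ⟨z, hzp.2⟩ : com m), sol_up (hsol _ (interior_subset hz')), ?_,
      fun t => hmemU _ (hstep t _ hz')⟩
    simp [hg0]
  · intro J hJ y hy t₀ ht₀ hyO t ht
    obtain ⟨hd, hc⟩ := sol_down P hP hy
    have h1 : P (y t₀) ∈ interior C := by
      rw [← hmem, hc t₀ ht₀]
      exact hyO.1
    have h2 := huniq J hJ _ hd t₀ ht₀ (interior_subset h1) t ht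
    have h3 : P (y t) ∈ interior C := by
      rw [h2]
      exact hstep _ _ h1
    have h4 := hmemU _ h3
    rwa [hc t ht] at h4
  · intro μ hμ
    filter_upwards [hae μ hμ] with z hz hzO
    have hzC := (hmem z).1 hzO.1
    exact recurrent_of_rec (hg0 z) (hsol z (interior_subset hzC)) (hz hzC)
  · filter_upwards [hres] with z hz hzO
    have hzC := (hmem z).1 hzO.1
    exact recurrent_of_rec (hg0 z) (hsol z (interior_subset hzC)) (hz hzC)

/-- solutions off `K` keep a positive distance from `K` -/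
theorem part_two {m : Fin n → ℝ} {K : Set (Ph n)} (hK : IsCompact K) (hKp : K ⊆ phaseSpace m)
    (hst : Stable m K) {J : Set ℝ} (hJ : J.OrdConnected) {y : ℝ → Ph n} (hy : IsSol m J y) :
    (∀ t ∈ J, y t ∈ K) ∨ ∃ ε : ℝ, 0 < ε ∧ ∀ t ∈ J, ∀ k ∈ K, ε ≤ dist (y t) k := by
  by_cases h : ∀ t ∈ J, y t ∈ K
  · exact Or.inl h
  right
  push Not at h
  obtain ⟨t₁, ht₁, hyt₁⟩ := h
  obtain ⟨O, hO, hKO, hOU, -, hinv, -, -⟩ := part_one hK hKp hst
    (isOpen_compl_singleton (x := y t₁)) (fun z hz hz2 => hyt₁ (by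
      rw [Set.mem_singleton_iff] at hz2
      rw [← hz2]; exact hz))
  obtain ⟨ε, hε, hεO⟩ := hK.exists_thickening_subset_open hO hKO
  refine ⟨ε, hε, fun t ht k hk => ?_⟩
  by_contra hlt
  rw [not_le] at hlt
  have h1 : y t ∈ O := hεO (Metric.mem_thickening_iff.2 ⟨k, hk, hlt⟩)
  exact hOU (hinv J hJ y hy t ht h1 t₁ ht₁) rfl

/-- recurrent points near a stable relative periodic orbit which is not a relative equilibrium -/
theorem part_three (hn : 2 ≤ n) {m : Fin n → ℝ} (hm : ∀ a, 0 < m a) {x : ℝ → Ph n}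
    (hx : IsSol m Set.univ x) {T : ℝ} (hT0 : 0 < T) (hT : DistPer x T) (hne : ¬ IsRelEq x)
    (hst : Stable m (Set.range x)) :
    ∃ k : ℕ, 1 ≤ k ∧ (∀ c : ℂ, ‖c‖ = 1 → ((∀ t, c • x t ∈ Set.range x) ↔ c ^ k = 1)) ∧
      IsCompact (Set.range x) ∧ (∀ t, x (t + 2 * k * T) = x t) ∧
      ∃ O : Set (Ph n), IsOpen O ∧ Set.range x ⊆ O ∧
        ∀ z ∈ O, Recurrent m z → Locked m k z := by
  rcases final hn hm hx hT0 hT hst.lyapunov with h | ⟨k, hk, hk2, U, hU, hxU, hlock, hper⟩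
  · exact absurd h hne
  have hxp : Set.range x ⊆ phaseSpace m := by
    rintro _ ⟨t, rfl⟩
    exact hx.mem t
  have hcomp : IsCompact (Set.range x) := by
    have h1 : Function.Periodic x (2 * k * T) := fun t => hper x hx (hxU ⟨0, rfl⟩) T hT0 hT t
    have hk0 : (0 : ℝ) < k := by exact_mod_cast hk
    exact h1.compact_of_continuous (by positivity) hx.continuous
  refine ⟨k, hk, hk2, hcomp, hper x hx (hxU ⟨0, rfl⟩) T hT0 hT, ?_⟩
  obtain ⟨C, g, hCc, hKC, hCU, hgc, hg0, hgadd, hgC, hgint, hsol, huniq, -, -⟩ :=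
    main_nbhd hcomp hxp hst hU hxU
  obtain ⟨P, hP⟩ := exists_proj m
  obtain ⟨O₀, hO₀, hO₀C⟩ := isOpen_induced_iff.1 (isOpen_interior (s := C))
  have hmem : ∀ z : com m, (z : Ph n) ∈ O₀ ↔ z ∈ interior C := by
    intro z
    rw [← hO₀C]
    rfl
  refine ⟨O₀ ∩ U, hO₀.inter hU, fun z hz => ⟨(hmem ⟨z, (hxp hz).2⟩).2 (hKC hz), hxU hz⟩, ?_⟩
  rintro z₀ ⟨hzO, hzU⟩ ⟨y', hy', hy'0, hrec⟩ y hy hy0 c hc hcl
  -- the point in the centre of mass space
  have hzp : z₀ ∈ phaseSpace m := hy0 ▸ hy.mem 0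
  set z : com m := ⟨z₀, hzp.2⟩ with hz
  have hzC : z ∈ C := interior_subset ((hmem z).1 hzO)
  have hflow : ∀ w : com m, w ∈ C → ∀ u : ℝ → Ph n, IsSol m Set.univ u → u 0 = w →
      ∀ t, u t = (g t w : com m) := by
    intro w hw u hu hu0 t
    obtain ⟨hd, hcu⟩ := sol_down P hP hu
    have h0 : P (u 0) = w := by rw [hu0, hP]
    have h1 := huniq Set.univ Set.ordConnected_univ _ hd 0 (Set.mem_univ 0) (by rw [h0]; exact hw)
      t (Set.mem_univ t)
    simp only [sub_zero] at h1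
    rw [h0] at h1
    rw [← hcu t (Set.mem_univ t), h1]
  have hyt : ∀ t, y t = (g t z : com m) := hflow z hzC y hy hy0
  have hy't : ∀ t, y' t = (g t z : com m) := hflow z hzC y' hy' hy'0
  set A : Set (Ph n) := closure (y '' Set.Ici 0) with hA
  set B : Set (com m) := closure ((fun t => g t z) '' Set.Ici 0) with hB
  have hBC : B ⊆ C := by
    refine closure_minimal ?_ hCc.isClosed
    rintro _ ⟨t, -, rfl⟩
    exact hgC t z hzC
  have hAB : ∀ w : com m, (w : Ph n) ∈ A ↔ w ∈ B := by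
    intro w
    have h1 : B = (fun z : com m => (z : Ph n)) ⁻¹'
        closure ((fun z : com m => (z : Ph n)) '' ((fun t => g t z) '' Set.Ici 0)) :=
      Topology.IsInducing.subtypeVal.closure_eq_preimage_closure_image _
    have h2 : (fun z : com m => (z : Ph n)) '' ((fun t => g t z) '' Set.Ici 0) = y '' Set.Ici 0 := by
      rw [Set.image_image]
      exact Set.image_congr fun t _ => (hyt t).symm
    rw [h1, h2]
    rfl
  -- the whole orbit lies in the closure of the forward orbit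
  have hran : Set.range y ⊆ A := by
    rintro _ ⟨s, rfl⟩
    rw [hyt s, hAB, hB, Metric.mem_closure_iff]
    intro ε hε
    obtain ⟨δ, hδ, hδg⟩ := Metric.continuous_iff.1 (hgc s) z ε hε
    obtain ⟨⟨t, ht, ht2⟩, -⟩ := hrec δ hδ (-s)
    refine ⟨g (s + t) z, ⟨s + t, Set.mem_Ici.2 (by linarith), rfl⟩, ?_⟩
    rw [hgadd, dist_comm]
    refine hδg _ ?_
    have h5 : dist (g t z) z = dist (y' t) z₀ := by
      rw [hy't t, Subtype.dist_eq]
    rw [h5]
    exact ht2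
  have hczA : c • z₀ ∈ A := closure_minimal hran isClosed_closure hcl
  have hcp : c • z₀ ∈ phaseSpace m := smul_mem hc hzp
  set w : com m := ⟨c • z₀, hcp.2⟩ with hw
  have hwB : w ∈ B := (hAB w).1 hczA
  have hyw : ∀ t, c • y t = (g t w : com m) := by
    intro t
    refine hflow w (hBC hwB) (fun t => c • y t) (hy.smul hc) ?_ t
    simp only [hy0, hw]
  have hgB : ∀ t, 0 ≤ t → ∀ v ∈ B, g t v ∈ B := by
    intro t ht v hv
    refine map_mem_closure (hgc t) hv ?_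
    rintro _ ⟨s, hs, rfl⟩
    exact ⟨t + s, Set.mem_Ici.2 (add_nonneg ht hs), hgadd t s z⟩
  refine hlock y (hy.restrict _) (by rw [hy0]; exact hzU) c hc ?_
  intro v hv
  have hcc : Continuous (fun w : Ph n => c • w) := by fun_prop
  have h6 : c • v ∈ closure A := by
    refine map_mem_closure hcc hv ?_
    rintro _ ⟨t, ht, rfl⟩
    rw [hyw t, hAB]
    exact hgB t ht w hwB
  rwa [hA, closure_closure] at h6

end Pool.Agent.Q205.Liou
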