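import Pool.Agent.Q205.Liou.Conf2
import Pool.Agent.Q205.Liou.Hopf
import Pool.Agent.Q205.Liou.Thm

/-! The open set of the points whose solutions stay in a compact set, forward and backward. -/

set_option autoImplicit false

namespace Pool.Agent.Q205.Liou

open Set MeasureTheory Filter Topology Pool.Agent.GR.Flow

section abs

variable {E : Type} [NormedAddCommGroup E] [NormedSpace ℝ E] [FiniteDimensional ℝ E]

/-- the solution through `z` exists for all times in `J` and stays in `N` -/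
def StaysOn (f : E → E) (Ω : Set E) (J : Set ℝ) (N : Set E) (z : E) : Prop :=
  ∃ y : ℝ → E, Sol f Ω J y ∧ y 0 = z ∧ ∀ t ∈ J, y t ∈ N

theorem core_abs [MeasurableSpace E] [BorelSpace E] {f : E → E} {Ω : Set E} (hΩ : IsOpen Ω)
    (hf : ∀ z ∈ Ω, ContDiffAt ℝ 1 f z)
    (htr : ∀ z ∈ Ω, LinearMap.trace ℝ E (fderiv ℝ f z : E →ₗ[ℝ] E) = 0) {N : Set E}
    (hN : IsCompact N) (hNΩ : N ⊆ Ω) :
    ∃ O : Set E, IsOpen O ∧
      (∀ z ∈ O, ∃ y : ℝ → E, Sol f Ω univ y ∧ y 0 = z ∧ ∀ t, y t ∈ O ∧ y t ∈ N) ∧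
      (∀ V, IsOpen V → (∀ z ∈ V, StaysOn f Ω (Ici 0) N z) → V ⊆ O) ∧
      (∀ V, IsOpen V → (∀ z ∈ V, StaysOn f Ω (Iic 0) N z) → V ⊆ O) ∧
      (∀ μ : Measure E, μ.IsAddHaarMeasure → ∀ᵐ z ∂μ, z ∈ O → RecSol f Ω z) ∧
      (∀ᶠ z in residual E, z ∈ O → RecSol f Ω z) ∧
      ∀ᶠ z in residual E, z ∈ O ∨
        (¬ StaysOn f Ω (Ici 0) N z ∧ ¬ StaysOn f Ω (Iic 0) N z) := by
  haveI : ProperSpace E := FiniteDimensional.proper ℝ E
  obtain ⟨X, L, g, W, hX, hL, hg, hW, hNW, hWΩ, hXf⟩ := exists_cut hΩ hf hN hNΩ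
  have hgc : ∀ t, Continuous (g t) := fun t => (diff_flow hX hL hg t).continuous
  set Bp : Set E := {z | ∀ t, 0 ≤ t → g t z ∈ N} with hBp
  set Bm : Set E := {z | ∀ t, 0 ≤ t → g (-t) z ∈ N} with hBm
  have hBpc : IsClosed Bp := by
    have : Bp = ⋂ t : ℝ, ⋂ _ : 0 ≤ t, g t ⁻¹' N := by
      ext z; simp [hBp]
    rw [this]
    exact isClosed_iInter fun t => isClosed_iInter fun _ => hN.isClosed.preimage (hgc t)
  have hBmc : IsClosed Bm := by
    have : Bm = ⋂ t : ℝ, ⋂ _ : 0 ≤ t, g (-t) ⁻¹' N := by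
      ext z; simp [hBm]
    rw [this]
    exact isClosed_iInter fun t => isClosed_iInter fun _ => hN.isClosed.preimage (hgc (-t))
  have hsolg : ∀ z t, g t z ∈ N → g t z ∈ Ω ∧ X (g t z) = f (g t z) := fun z t h =>
    ⟨hNΩ h, hXf _ (hNW h)⟩
  -- points whose solutions stay in `N`
  have hSp : ∀ z, StaysOn f Ω (Ici 0) N z → z ∈ Bp := by
    rintro z ⟨y, hy, hy0, hyN⟩ t ht
    have h1 := unique_in (W := W) hL hg hXf (hy.mono (J' := Icc 0 t) fun s hs => hs.1)
      (fun s hs => hNW (hyN s hs.1)) t ⟨ht, le_rfl⟩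
    rw [sub_zero, hy0] at h1
    rw [← h1]
    exact hyN t ht
  have hL' : LipschitzWith L (fun z => -X z) := by
    refine LipschitzWith.of_dist_le_mul fun x y => ?_
    rw [dist_neg_neg]
    exact hL.dist_le_mul x y
  have hSm : ∀ z, StaysOn f Ω (Iic 0) N z → z ∈ Bm := by
    rintro z ⟨y, hy, hy0, hyN⟩ t ht
    have h0 : Sol (fun z => -f z) Ω (Icc 0 t) (fun s => y (-s)) := by
      refine hy.rev fun s hs => ?_
      change -s ≤ 0
      linarith [hs.1]
    have h1 := unique_in (W := W) (X := fun z => -X z) hL' (flow_rev hg)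
      (fun z hz => by rw [hXf z hz]) h0
      (fun s hs => hNW (hyN (-s) (by change -s ≤ 0; linarith [hs.1]))) t ⟨ht, le_rfl⟩
    simp only [sub_zero, neg_zero] at h1
    rw [hy0] at h1
    rw [← h1]
    exact hyN (-t) (by change -t ≤ 0; linarith)
  -- invariance of compact sets
  have hinv : ∀ C : Set E, C ⊆ N → (∀ t, ∀ z ∈ C, g t z ∈ C) → C ⊆ Bp ∧ C ⊆ Bm := fun C hCN hC =>
    ⟨fun z hz t _ => hCN (hC t z hz), fun z hz t _ => hCN (hC (-t) z hz)⟩
  obtain ⟨C, hCc, hVC, hCN, hgC⟩ := trap_of_fwd hX hL hg hW hWΩ hXf htr hN hNW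
    (isOpen_interior (s := Bp)) (fun p hp t ht => interior_subset hp t ht)
  obtain ⟨C', hC'c, hVC', hC'N, hgC'⟩ := trap_of_fwd (f := fun z => -f z) (X := -X) (L := L)
    (g := fun t => g (-t)) hX.neg hL' (flow_rev hg) hW hWΩ
    (fun z hz => by rw [ContinuousMap.neg_apply, hXf z hz])
    (fun z hz => by
      have h1 : fderiv ℝ (fun z => -f z) z = -fderiv ℝ f z := fderiv_fun_neg
      rw [h1]
      have h2 : ((-fderiv ℝ f z : E →L[ℝ] E) : E →ₗ[ℝ] E) = -(fderiv ℝ f z : E →ₗ[ℝ] E) := rfl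
      rw [h2, map_neg, htr z hz, neg_zero]) hN hNW
    (isOpen_interior (s := Bm)) (fun p hp t ht => interior_subset hp t ht)
  have hgC'2 : ∀ t, ∀ z ∈ C', g t z ∈ C' := by
    intro t z hz
    have := hgC' (-t) z hz
    simpa using this
  have hOO : interior Bm ⊆ interior Bp :=
    interior_maximal (hVC'.trans (hinv C' hC'N hgC'2).1) isOpen_interior
  have hOinv : ∀ t, ∀ z ∈ interior Bp, g t z ∈ interior Bp := by
    intro t z hz
    have h1 : IsOpen (g t '' interior Bp) := by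
      rw [image_flow hL hg]
      exact isOpen_interior.preimage (hgc _)
    refine interior_maximal ?_ h1 ⟨z, hz, rfl⟩
    rintro _ ⟨w, hw, rfl⟩ s _
    exact hCN (hgC s _ (hgC t _ (hVC hw)))
  have hsolC : ∀ z ∈ C, Sol f Ω univ (fun t => g t z) := by
    intro z hz t _
    obtain ⟨h1, h2⟩ := hsolg z t (hCN (hgC t z hz))
    refine ⟨h1, ?_⟩
    rw [← h2]
    exact (hg.deriv z t).hasDerivWithinAt
  have hVi : interior Bp ⊆ interior C := isOpen_interior.subset_interior_iff.2 hVC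
  refine ⟨interior Bp, isOpen_interior, fun z hz => ⟨fun t => g t z, hsolC z (hVC hz), hg.zero z,
    fun t => ⟨hOinv t z hz, hCN (hgC t z (hVC hz))⟩⟩, ?_, ?_, ?_, ?_, ?_⟩
  · exact fun V hV hVs => interior_maximal (fun z hz => hSp z (hVs z hz)) hV
  · exact fun V hV hVs =>
      (interior_maximal (fun z hz => hSm z (hVs z hz)) hV).trans hOO
  · intro μ hμ
    filter_upwards [rec_ae hX hL hg hW hWΩ hXf htr hCc (hCN.trans hNW) hgC μ] with z hz hzO
    exact recSol_of (hg.zero z) (hsolC z (hVC hzO)) (hz (hVi hzO))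
  · filter_upwards [rec_residual hX hL hg hW hWΩ hXf htr hCc (hCN.trans hNW) hgC] with z hz hzO
    exact recSol_of (hg.zero z) (hsolC z (hVC hzO)) (hz (hVi hzO))
  · have hfr : ∀ A : Set E, IsClosed A → ∀ᶠ x in residual E, x ∈ A → x ∈ interior A := by
      intro A hA
      have h1 : IsOpen (frontier A)ᶜ := isClosed_frontier.isOpen_compl
      have h2 : Dense (frontier A)ᶜ := interior_eq_empty_iff_dense_compl.1 (interior_frontier hA)
      filter_upwards [residual_of_dense_open h1 h2] with x hx hxA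
      by_contra hno
      exact hx ⟨subset_closure hxA, hno⟩
    filter_upwards [hfr Bp hBpc, hfr Bm hBmc] with z hz1 hz2
    by_cases hzO : z ∈ interior Bp
    · exact Or.inl hzO
    · exact Or.inr ⟨fun h => hzO (hz1 (hSp z h)), fun h => hzO (hOO (hz2 (hSm z h)))⟩

end abs

open Pool.Agent.W821.TB

variable {n : ℕ}

/-- the solution through `z` exists for all times in `J` and stays in `N` -/
def Stays (m : Fin n → ℝ) (J : Set ℝ) (N : Set (Ph n)) (z : Ph n) : Prop :=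
  ∃ y : ℝ → Ph n, IsSol m J y ∧ y 0 = z ∧ ∀ t ∈ J, y t ∈ N

/-- the union of all open sets whose points, in the centre of mass frame, have solutions which stay in
`N` for all positive times -/
def core (m : Fin n → ℝ) (N : Set (Ph n)) : Set (Ph n) :=
  ⋃₀ {V | IsOpen V ∧ ∀ z ∈ V, IsCom m z → Stays m (Set.Ici 0) N z}

/-- `N` is a compact set of phase points without collisions -/
def CollisionFree (N : Set (Ph n)) : Prop :=
  IsCompact N ∧ ∀ z ∈ N, ∀ a b, a ≠ b → z.1 a ≠ z.1 b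

theorem stays_down {m : Fin n → ℝ} {J : Set ℝ} (h0 : (0 : ℝ) ∈ J) {N : Set (Ph n)} {z : Ph n}
    (h : Stays m J N z) : ∃ hz : z ∈ com m, StaysOn (fld m) (free m) J
      ((fun z : com m => (z : Ph n)) ⁻¹' N) ⟨z, hz⟩ := by
  obtain ⟨P, hP⟩ := exists_proj m
  obtain ⟨y, hy, hy0, hyN⟩ := h
  obtain ⟨hd, hc⟩ := sol_down P hP hy
  have hz : z ∈ com m := by rw [← hy0]; exact (hy 0 h0).1.2
  refine ⟨hz, fun t => P (y t), hd, ?_, fun t ht => ?_⟩
  · change P (y 0) = _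
    rw [hy0]
    exact hP ⟨z, hz⟩
  · change (P (y t) : Ph n) ∈ N
    rw [hc t ht]
    exact hyN t ht

theorem stays_up {m : Fin n → ℝ} {J : Set ℝ} {N : Set (Ph n)} {z : com m}
    (h : StaysOn (fld m) (free m) J ((fun z : com m => (z : Ph n)) ⁻¹' N) z) :
    Stays m J N (z : Ph n) := by
  obtain ⟨y, hy, hy0, hyN⟩ := h
  exact ⟨fun t => (y t : Ph n), sol_up hy, congrArg Subtype.val hy0, hyN⟩

/-- an open set of the centre of mass space is cut out by an open set -/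
theorem exists_open {m : Fin n → ℝ} {O : Set (com m)} (hO : IsOpen O) : ∃ V : Set (Ph n),
    IsOpen V ∧ ∀ z : com m, (z : Ph n) ∈ V ↔ z ∈ O := by
  obtain ⟨V, hV, hVO⟩ := isOpen_induced_iff.1 hO
  refine ⟨V, hV, fun z => ?_⟩
  rw [← hVO]
  rfl

theorem core_main (m : Fin n → ℝ) {N : Set (Ph n)} (hN : CollisionFree N) :
    IsOpen (core m N) ∧
    (∀ z ∈ core m N, IsCom m z → ∃ y : ℝ → Ph n, IsSol m Set.univ y ∧ y 0 = z ∧
      ∀ t, y t ∈ core m N ∧ y t ∈ N) ∧
    (∀ V, IsOpen V → (∀ z ∈ V, IsCom m z → Stays m (Set.Iic 0) N z) →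
      ∀ z ∈ V, IsCom m z → z ∈ core m N) ∧
    AlmostEvery m (fun z => z ∈ core m N → Recurrent m z) ∧
    Generic m (fun z => z ∈ core m N → Recurrent m z) ∧
    Generic m (fun z => z ∈ core m N ∨
      (¬ Stays m (Set.Ici 0) N z ∧ ¬ Stays m (Set.Iic 0) N z)) := by
  have hcl : IsClosed ((com m : Submodule ℝ (Ph n)) : Set (Ph n)) :=
    Submodule.closed_of_finiteDimensional _
  obtain ⟨O, hO, h1, h2, h3, h4, h5, h6⟩ := core_abs (f := fld m) (isOpen_free m)
    (fun z hz => contDiffAt_fld hz) (fun z hz => trace_fld hz)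
    (N := (fun z : com m => (z : Ph n)) ⁻¹' N)
    (hcl.isClosedEmbedding_subtypeVal.isCompact_preimage hN.1) (fun z hz => hN.2 _ hz)
  obtain ⟨V₀, hV₀, hV₀O⟩ := exists_open hO
  have hmem : ∀ z : com m, (z : Ph n) ∈ core m N ↔ z ∈ O := by
    intro z
    constructor
    · rintro ⟨V, ⟨hV, hVs⟩, hzV⟩
      refine h2 ((fun z : com m => (z : Ph n)) ⁻¹' V) (hV.preimage continuous_subtype_val)
        (fun w hw => ?_) hzV
      obtain ⟨_, hs⟩ := stays_down (mem_Ici.2 le_rfl) (hVs _ hw w.2)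
      exact hs
    · intro hz
      refine ⟨V₀, ⟨hV₀, fun w hw hwc => ?_⟩, (hV₀O z).2 hz⟩
      obtain ⟨y, hy, hy0, hyN⟩ := h1 ⟨w, hwc⟩ ((hV₀O ⟨w, hwc⟩).1 hw)
      exact ⟨fun t => (y t : Ph n), sol_up (hy.mono (subset_univ _)), congrArg Subtype.val hy0,
        fun t _ => (hyN t).2⟩
  have hrec : ∀ z : com m, RecSol (fld m) (free m) z → Recurrent m (z : Ph n) := by
    rintro z ⟨y, hy, hy0, hrec⟩
    exact ⟨fun t => (y t : Ph n), sol_up hy, congrArg Subtype.val hy0, hrec⟩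
  refine ⟨isOpen_sUnion fun V hV => hV.1, fun z hz hzc => ?_, fun V hV hVs z hz hzc => ?_,
    almostEvery_of fun μ hμ => ?_, generic_of ?_, generic_of ?_⟩
  · obtain ⟨y, hy, hy0, hyN⟩ := h1 ⟨z, hzc⟩ ((hmem ⟨z, hzc⟩).1 hz)
    exact ⟨fun t => (y t : Ph n), sol_up hy, congrArg Subtype.val hy0,
      fun t => ⟨(hmem _).2 (hyN t).1, (hyN t).2⟩⟩
  · refine (hmem ⟨z, hzc⟩).2 (h3 ((fun z : com m => (z : Ph n)) ⁻¹' V)
      (hV.preimage continuous_subtype_val) (fun w hw => ?_) hz)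
    obtain ⟨_, hs⟩ := stays_down (mem_Iic.2 le_rfl) (hVs _ hw w.2)
    exact hs
  · filter_upwards [h4 μ hμ] with z hz hzO
    exact hrec z (hz ((hmem z).1 hzO))
  · filter_upwards [h5] with z hz hzO
    exact hrec z (hz ((hmem z).1 hzO))
  · filter_upwards [h6] with z hz
    rcases hz with hz | ⟨hz1, hz2⟩
    · exact Or.inl ((hmem z).2 hz)
    · refine Or.inr ⟨fun h => hz1 ?_, fun h => hz2 ?_⟩
      · obtain ⟨_, hs⟩ := stays_down (mem_Ici.2 le_rfl) h
        exact hs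
      · obtain ⟨_, hs⟩ := stays_down (mem_Iic.2 le_rfl) h
        exact hs

theorem isOpen_noCol : IsOpen {z : Ph n | ∀ a b, a ≠ b → z.1 a ≠ z.1 b} := by
  simp only [Set.ofPred_forall]
  refine isOpen_iInter_of_finite fun a => isOpen_iInter_of_finite fun b =>
    isOpen_iInter_of_finite fun _ => ?_
  exact isOpen_ne_fun (by fun_prop) (by fun_prop)

/-- **Theorem.** A compact set is Lyapunov stable iff it is contained in the cores of its compact
neighbourhoods. -/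
theorem stable_iff (m : Fin n → ℝ) {K : Set (Ph n)} (hK : IsCompact K) (hKp : K ⊆ phaseSpace m) :
    Stable m K ↔ ∀ N : Set (Ph n), CollisionFree N → K ⊆ interior N → K ⊆ core m N := by
  constructor
  · intro hst N hN hKN z hz
    obtain ⟨C, g, hCc, hKC, hCU, -, hg0, -, hgC, -, hsol, -⟩ := main_nbhd hK hKp hst
      isOpen_interior hKN
    obtain ⟨V, hV, hVC⟩ := exists_open (isOpen_interior (s := C))
    refine ⟨V, ⟨hV, fun w hw hwc => ?_⟩, (hVC ⟨z, (hKp hz).2⟩).2 (hKC hz)⟩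
    have hwC : (⟨w, hwc⟩ : com m) ∈ C := interior_subset ((hVC ⟨w, hwc⟩).1 hw)
    refine ⟨fun t => (g t ⟨w, hwc⟩ : Ph n), sol_up ((hsol _ hwC).mono (subset_univ _)),
      congrArg Subtype.val (hg0 _), fun t _ => ?_⟩
    exact interior_subset (s := N) (hCU (hgC t _ hwC))
  · intro h U₁ hU₁ hKU
    obtain ⟨N, hNc, hKN, hNU⟩ := exists_compact_between hK (hU₁.inter isOpen_noCol)
      (subset_inter hKU fun z hz => (hKp hz).1)
    have hN : CollisionFree N := ⟨hNc, fun z hz => (hNU hz).2⟩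
    obtain ⟨hop, h1, -⟩ := core_main m hN
    refine ⟨core m N, hop, h N hN hKN, fun τ hτ y hy hy0 t ht => ?_⟩
    obtain ⟨y', hy', hy'0, hy'N⟩ := h1 _ hy0 (hy 0 ⟨le_rfl, hτ⟩).1.2
    obtain ⟨P, hP⟩ := exists_proj m
    obtain ⟨hd, hc⟩ := sol_down P hP hy
    obtain ⟨hd', hc'⟩ := sol_down P hP hy'
    have h2 := Pool.Agent.Q205.Liou.sol_unique (isOpen_free m) (fun z hz => contDiffAt_fld hz) hd
      (hd'.mono (subset_univ _)) (by
        change P (y 0) = P (y' 0)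
        rw [hy'0]) t ht
    have h3 : y t = y' t := by
      rw [← hc t ht, ← hc' t (mem_univ t)]
      exact congrArg Subtype.val h2
    rw [h3]
    exact (hNU (hy'N t).2).1

end Pool.Agent.Q205.Liou
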