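import Pool.Agent.Q205.Liou.Vol

/-! Cutting off a vector field near a compact set; uniqueness of solutions that meet an invariant
compact set. -/

set_option autoImplicit false

namespace Pool.Agent.Q205.Liou

open Set MeasureTheory Filter Topology Manifold Pool.Agent.GR.Flow

variable {E : Type} [NormedAddCommGroup E] [NormedSpace ℝ E]

/-- `y` is a solution of `y' = f(y)` in `Ω` on the time set `J` -/
def Sol (f : E → E) (Ω : Set E) (J : Set ℝ) (y : ℝ → E) : Prop :=
  ∀ t ∈ J, y t ∈ Ω ∧ HasDerivWithinAt y (f (y t)) J t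

/-- Lyapunov stability of the set `K`: for every open `U₁ ⊇ K` there is an open `U₂ ⊇ K` such that
every solution on an interval `[0, τ]` that starts in `U₂` stays in `U₁`. -/
def Stab (f : E → E) (Ω : Set E) (K : Set E) : Prop :=
  ∀ U₁ : Set E, IsOpen U₁ → K ⊆ U₁ → ∃ U₂ : Set E, IsOpen U₂ ∧ K ⊆ U₂ ∧
    ∀ τ : ℝ, 0 ≤ τ → ∀ y : ℝ → E, Sol f Ω (Icc 0 τ) y → y 0 ∈ U₂ → ∀ t ∈ Icc 0 τ, y t ∈ U₁

theorem exists_cut [FiniteDimensional ℝ E] {f : E → E} {Ω N : Set E} (hΩ : IsOpen Ω)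
    (hf : ∀ z ∈ Ω, ContDiffAt ℝ 1 f z) (hN : IsCompact N) (hNΩ : N ⊆ Ω) :
    ∃ (X : C(E, E)) (K : NNReal) (g : ℝ → E → E) (W : Set E), ContDiff ℝ 1 X ∧ LipschitzWith K X ∧
      IsFlowOf X g ∧ IsOpen W ∧ N ⊆ W ∧ W ⊆ Ω ∧ ∀ z ∈ W, X z = f z := by
  haveI : CompleteSpace E := FiniteDimensional.complete ℝ E
  haveI : ProperSpace E := FiniteDimensional.proper ℝ E
  obtain ⟨N2, hN2c, hN2i, hN2Ω⟩ := exists_compact_between hN hΩ hNΩ
  obtain ⟨χ, h1, h0, -⟩ := exists_contMDiffMap_one_nhds_of_subset_interior (n := 1) 𝓘(ℝ, E)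
    hN.isClosed hN2i
  obtain ⟨W', hW'o, hNW', hW'1⟩ := eventually_nhdsSet_iff_exists.1 h1
  have hχ : ContDiff ℝ 1 (χ : E → ℝ) := χ.contMDiff.contDiff
  have hXc : ContDiff ℝ 1 (fun z => χ z • f z) := by
    rw [contDiff_iff_contDiffAt]
    intro z
    by_cases hz : z ∈ Ω
    · exact hχ.contDiffAt.smul (hf z hz)
    · have hz2 : z ∈ N2ᶜ := fun h => hz (hN2Ω h)
      have h2 : (fun z => χ z • f z) =ᶠ[𝓝 z] fun _ => (0 : E) := by
        filter_upwards [hN2c.isClosed.isOpen_compl.mem_nhds hz2] with w hw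
        rw [h0 w hw, zero_smul]
      exact contDiffAt_const.congr_of_eventuallyEq h2
  have hsupp : HasCompactSupport (fun z => χ z • f z) := by
    refine HasCompactSupport.intro hN2c fun z hz => ?_
    rw [h0 z hz, zero_smul]
  obtain ⟨K, hK⟩ := hXc.lipschitzWith_of_hasCompactSupport hsupp one_ne_zero
  obtain ⟨M, hM⟩ := hXc.continuous.bounded_above_of_compact_support hsupp
  have hM' : ∀ z, ‖χ z • f z‖ ≤ (M.toNNReal : ℝ) := fun z => (hM z).trans (Real.le_coe_toNNReal M)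
  choose γ hγ0 hγ using exists_solution hK hM'
  refine ⟨⟨fun z => χ z • f z, hXc.continuous⟩, K, fun t z => γ z t, W' ∩ Ω, hXc, hK,
    ⟨hγ0, fun z t => hγ z t⟩, hW'o.inter hΩ, subset_inter hNW' hNΩ, inter_subset_right, ?_⟩
  intro z hz
  change χ z • f z = f z
  rw [hW'1 z hz.1, one_smul]

theorem Sol.mono {f : E → E} {Ω : Set E} {J J' : Set ℝ} {y : ℝ → E} (h : Sol f Ω J y)
    (hJ : J' ⊆ J) : Sol f Ω J' y :=
  fun t ht => ⟨(h t (hJ ht)).1, (h t (hJ ht)).2.mono hJ⟩

theorem Sol.shift {f : E → E} {Ω : Set E} {J J' : Set ℝ} {y : ℝ → E} (h : Sol f Ω J y) (c : ℝ)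
    (hJ : ∀ t ∈ J', t + c ∈ J) : Sol f Ω J' (fun t => y (t + c)) := by
  intro t ht
  refine ⟨(h _ (hJ t ht)).1, ?_⟩
  have h1 := (h _ (hJ t ht)).2
  have h2 : HasDerivWithinAt (fun t : ℝ => t + c) 1 J' t :=
    ((hasDerivAt_id t).add_const c).hasDerivWithinAt
  have h3 := h1.scomp t h2 hJ
  rw [one_smul] at h3
  exact h3

theorem Sol.rev {f : E → E} {Ω : Set E} {J J' : Set ℝ} {y : ℝ → E} (h : Sol f Ω J y)
    (hJ : ∀ t ∈ J', -t ∈ J) : Sol (fun z => -f z) Ω J' (fun t => y (-t)) := by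
  intro t ht
  refine ⟨(h _ (hJ t ht)).1, ?_⟩
  have h1 := (h _ (hJ t ht)).2
  have h2 : HasDerivWithinAt (fun t : ℝ => -t) (-1) J' t :=
    (hasDerivAt_id t).neg.hasDerivWithinAt
  have h3 := h1.scomp t h2 hJ
  rw [neg_smul, one_smul] at h3
  exact h3

/-- forward uniqueness inside a closed forward invariant set -/
theorem unique_fwd {f : E → E} {Ω W C : Set E} {X : E → E} {K : NNReal} {g : ℝ → E → E}
    (hK : LipschitzWith K X) (hg : IsFlowOf X g) (hW : IsOpen W) (hXf : ∀ z ∈ W, X z = f z)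
    (hCW : C ⊆ W) (hgC : ∀ t, 0 ≤ t → ∀ z ∈ C, g t z ∈ C) {a b : ℝ} {y : ℝ → E}
    (hy : Sol f Ω (Icc a b) y) (hya : y a ∈ C) : ∀ t ∈ Icc a b, y t = g (t - a) (y a) := by
  have hyc : ContinuousOn y (Icc a b) := fun t ht => (hy t ht).2.continuousWithinAt
  have hgd : ∀ t, HasDerivAt (fun t => g (t - a) (y a)) (X (g (t - a) (y a))) t := by
    intro t
    have := (hg.deriv (y a) (t - a)).scomp t ((hasDerivAt_id t).sub_const a)
    rw [one_smul] at this
    exact this
  have hgc : Continuous (fun t => g (t - a) (y a)) :=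
    continuous_iff_continuousAt.2 fun t => (hgd t).continuousAt
  have key : Icc a b ⊆ {t | y t = g (t - a) (y a)} := by
    refine IsClosed.Icc_subset_of_forall_exists_gt ?_ ?_ ?_
    · have h1 : {t | y t = g (t - a) (y a)} ∩ Icc a b
          = Icc a b ∩ (fun t => y t - g (t - a) (y a)) ⁻¹' {0} := by
        ext t
        simp [sub_eq_zero, and_comm]
      rw [h1]
      exact (hyc.sub hgc.continuousOn).preimage_isClosed_of_isClosed isClosed_Icc
        isClosed_singleton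
    · simp [hg.zero]
    · rintro x ⟨hx, hxa, hxb⟩ y' hy'
      have hxC : y x ∈ C := by
        rw [show y x = g (x - a) (y a) from hx]
        exact hgC _ (by linarith) _ hya
      have hxI : x ∈ Icc a b := ⟨hxa, hxb.le⟩
      have h1 : y ⁻¹' W ∈ 𝓝[Icc a b] x :=
        (hyc x hxI) (hW.mem_nhds (hCW hxC))
      rw [Metric.mem_nhdsWithin_iff] at h1
      obtain ⟨δ, hδ, hδW⟩ := h1
      set c := min y' (min b (x + δ / 2)) with hc
      have hxc : x < c := by
        rw [hc]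
        exact lt_min hy' (lt_min hxb (by linarith))
      have hcb : c ≤ b := (min_le_right _ _).trans (min_le_left _ _)
      have hcδ : c ≤ x + δ / 2 := (min_le_right _ _).trans (min_le_right _ _)
      have hin : ∀ t ∈ Icc x c, y t ∈ W := by
        intro t ht
        refine hδW ⟨?_, ⟨by linarith [ht.1], ht.2.trans hcb⟩⟩
        rw [Metric.mem_ball, Real.dist_eq, abs_of_nonneg (by linarith [ht.1])]
        linarith [ht.2]
      have hE : EqOn y (fun t => g (t - a) (y a)) (Icc x c) := by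
        refine ODE_solution_unique (v := fun _ => X) (K := K) (fun _ => hK)
          (hyc.mono (Icc_subset_Icc hxa hcb)) ?_ hgc.continuousOn
          (fun t _ => (hgd t).hasDerivWithinAt) hx
        intro t ht
        have htI : t ∈ Icc a b := ⟨by linarith [ht.1], by linarith [ht.2]⟩
        have h2 := (hy t htI).2
        rw [← hXf _ (hin t ⟨ht.1, ht.2.le⟩)] at h2
        refine h2.mono_of_mem_nhdsWithin ?_
        have h3 : Iio b ∈ 𝓝 t := Iio_mem_nhds (by linarith [ht.2])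
        filter_upwards [self_mem_nhdsWithin, mem_nhdsWithin_of_mem_nhds h3] with s hs1 hs2
        exact ⟨htI.1.trans hs1, le_of_lt hs2⟩
      exact ⟨c, hE ⟨hxc.le, le_rfl⟩, hxc, min_le_left _ _⟩
  exact fun t ht => key ht

theorem flow_rev {X : E → E} {g : ℝ → E → E} (hg : IsFlowOf X g) :
    IsFlowOf (fun z => -X z) (fun t => g (-t)) where
  zero := fun x => by simp [hg.zero]
  deriv := fun x t => by
    have := (hg.deriv x (-t)).scomp t (hasDerivAt_id t).neg
    rw [neg_smul, one_smul] at this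
    exact this

/-- two-sided uniqueness inside a compact invariant set -/
theorem unique_both {f : E → E} {Ω W C : Set E} {X : E → E} {K : NNReal} {g : ℝ → E → E}
    (hK : LipschitzWith K X) (hg : IsFlowOf X g) (hW : IsOpen W) (hXf : ∀ z ∈ W, X z = f z)
    (hCW : C ⊆ W) (hgC : ∀ t, ∀ z ∈ C, g t z ∈ C) {J : Set ℝ} (hJ : J.OrdConnected) {y : ℝ → E}
    (hy : Sol f Ω J y) {t₀ : ℝ} (ht₀ : t₀ ∈ J) (hyt : y t₀ ∈ C) :
    ∀ t ∈ J, y t = g (t - t₀) (y t₀) := by
  intro t ht
  rcases le_total t₀ t with h | h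
  · exact unique_fwd hK hg hW hXf hCW (fun s _ => hgC s) (hy.mono (hJ.out ht₀ ht)) hyt t
      ⟨h, le_rfl⟩
  · have hK' : LipschitzWith K (fun z => -X z) := by
      refine LipschitzWith.of_dist_le_mul fun x y => ?_
      rw [dist_neg_neg]
      exact hK.dist_le_mul x y
    have h1 : Sol (fun z => -f z) Ω (Icc (-t₀) (-t)) (fun t => y (-t)) := by
      refine hy.rev fun s hs => hJ.out ht ht₀ ⟨?_, ?_⟩
      · linarith [hs.2]
      · linarith [hs.1]
    have h2 := unique_fwd (C := C) hK' (flow_rev hg) hW (fun z hz => by rw [hXf z hz]) hCW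
      (fun s _ => hgC (-s)) h1 (by simpa using hyt) (-t) ⟨by linarith, le_rfl⟩
    simp only [neg_neg] at h2
    rw [h2]
    congr 2
    ring

end Pool.Agent.Q205.Liou
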