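import Mathlib

/-! The derivative of the determinant at the identity is the trace. -/

set_option autoImplicit false

namespace Pool.Agent.Q205.Liou

open Finset

theorem prod_one_eq_zero {ι : Type*} [Fintype ι] [DecidableEq ι] {σ : Equiv.Perm ι} (hσ : σ ≠ 1)
    (i : ι) : ∏ j ∈ univ.erase i, (1 : Matrix ι ι ℝ) (σ j) j = 0 := by
  obtain ⟨j, hj⟩ : ∃ j, σ j ≠ j := by
    by_contra h
    push Not at h
    exact hσ (Equiv.ext h)
  by_cases hji : j = i
  · have h2 : σ (σ j) ≠ σ j := fun h => hj (σ.injective h)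
    have h3 : σ j ≠ i := hji ▸ hj
    refine Finset.prod_eq_zero (mem_erase.2 ⟨h3, mem_univ _⟩) ?_
    rw [Matrix.one_apply_ne h2]
  · refine Finset.prod_eq_zero (mem_erase.2 ⟨hji, mem_univ _⟩) ?_
    rw [Matrix.one_apply_ne hj]

theorem hasDerivAt_matrix_det {ι : Type*} [Fintype ι] [DecidableEq ι] {M : ℝ → Matrix ι ι ℝ}
    {M' : Matrix ι ι ℝ} (h : ∀ i j, HasDerivAt (fun s => M s i j) (M' i j) 0) (h1 : M 0 = 1) :
    HasDerivAt (fun s => (M s).det) M'.trace 0 := by
  have e : (fun s => (M s).det) = fun s => ∑ σ : Equiv.Perm ι,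
      ((Equiv.Perm.sign σ : ℤ) : ℝ) * ∏ i, M s (σ i) i := by
    ext s; rw [Matrix.det_apply']
  rw [e]
  have h2 : HasDerivAt (fun s => ∑ σ : Equiv.Perm ι,
      ((Equiv.Perm.sign σ : ℤ) : ℝ) * ∏ i, M s (σ i) i)
      (∑ σ : Equiv.Perm ι, ((Equiv.Perm.sign σ : ℤ) : ℝ) *
        ∑ i, (∏ j ∈ univ.erase i, M 0 (σ j) j) • M' (σ i) i) 0 := by
    refine HasDerivAt.fun_sum fun σ _ => ?_
    exact (HasDerivAt.fun_finset_prod (fun i _ => h (σ i) i)).const_mul _
  convert! h2 using 1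
  rw [Finset.sum_eq_single 1]
  · simp [h1, Matrix.trace]
  · intro σ _ hσ
    rw [h1]
    simp only [prod_one_eq_zero hσ, zero_smul, sum_const_zero, mul_zero]
  · simp

theorem hasDerivAt_det {E : Type*} [NormedAddCommGroup E] [NormedSpace ℝ E] [FiniteDimensional ℝ E]
    {L : ℝ → E →L[ℝ] E} {A : E →L[ℝ] E} (h : ∀ v, HasDerivAt (fun s => L s v) (A v) 0)
    (h1 : L 0 = ContinuousLinearMap.id ℝ E) :
    HasDerivAt (fun s => (L s).det) (LinearMap.trace ℝ E (A : E →ₗ[ℝ] E)) 0 := by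
  classical
  set b := Module.finBasis ℝ E with hb
  have h2 : (fun s => (L s).det) = fun s => (LinearMap.toMatrix b b (L s : E →ₗ[ℝ] E)).det := by
    ext s
    rw [ContinuousLinearMap.det, LinearMap.det_toMatrix]
  rw [h2, LinearMap.trace_eq_matrix_trace ℝ b]
  refine hasDerivAt_matrix_det (fun i j => ?_) ?_
  · simp only [LinearMap.toMatrix_apply, ContinuousLinearMap.coe_coe]
    have h3 : ∀ v, b.repr v i = LinearMap.toContinuousLinearMap (b.coord i) v := fun v => rfl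
    simp only [h3]
    exact (LinearMap.toContinuousLinearMap (b.coord i)).hasFDerivAt.comp_hasDerivAt 0 (h (b j))
  · rw [h1]
    simp

end Pool.Agent.Q205.Liou
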