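import Pool.Agent.Q205.Liou.Comp

/-! Generic escape from compact sets, or open sets of solutions in an invariant compact set. -/

set_option autoImplicit false

namespace Pool.Agent.Q205.Liou

open Set MeasureTheory Filter Topology Pool.Agent.GR.Flow

variable {E : Type} [NormedAddCommGroup E] [NormedSpace ℝ E] [FiniteDimensional ℝ E]

theorem trap_of_fwd [MeasurableSpace E] [BorelSpace E] {f : E → E} {Ω W M V : Set E}
    {X : C(E, E)} {L : NNReal} {g : ℝ → E → E} (hX : ContDiff ℝ 1 X) (hL : LipschitzWith L X)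
    (hg : IsFlowOf X g) (hW : IsOpen W) (hWΩ : W ⊆ Ω) (hXf : ∀ z ∈ W, X z = f z)
    (htr : ∀ z ∈ Ω, LinearMap.trace ℝ E (fderiv ℝ f z : E →ₗ[ℝ] E) = 0) (hMc : IsCompact M)
    (hMW : M ⊆ W) (hV : IsOpen V) (hVt : ∀ p ∈ V, ∀ t, 0 ≤ t → g t p ∈ M) :
    ∃ C : Set E, IsCompact C ∧ V ⊆ C ∧ C ⊆ M ∧ ∀ t, ∀ z ∈ C, g t z ∈ C := by
  haveI : ProperSpace E := FiniteDimensional.proper ℝ E
  have hgc : ∀ t, Continuous (g t) := fun t => (diff_flow hX hL hg t).continuous
  set A : Set E := {x | ∃ t, 0 ≤ t ∧ g (-t) x ∈ V} with hA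
  have hAo : IsOpen A := by
    have : A = ⋃ t : ℝ, ⋃ _ : 0 ≤ t, g (-t) ⁻¹' V := by
      ext x; simp [hA]
    rw [this]
    exact isOpen_iUnion fun t => isOpen_iUnion fun _ => hV.preimage (hgc _)
  have hVA : V ⊆ A := fun x hx => ⟨0, le_rfl, by simpa [hg.zero] using hx⟩
  have hAM : A ⊆ M := by
    rintro x ⟨t, ht, hx⟩
    have := hVt _ hx t ht
    rwa [inv_flow hL hg] at this
  have hAfwd : ∀ s, 0 ≤ s → g s '' A ⊆ A := by
    rintro s hs _ ⟨x, ⟨t, ht, hx⟩, rfl⟩
    refine ⟨t + s, add_nonneg ht hs, ?_⟩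
    rw [← hg.add hL]
    have : -(t + s) + s = -t := by ring
    rw [this]
    exact hx
  set μ : Measure E := Measure.addHaar with hμ
  have hAfin : μ A ≠ ⊤ := ((measure_mono hAM).trans_lt hMc.measure_lt_top).ne
  have himg : ∀ s, 0 ≤ s → μ (g s '' A) = μ A := by
    intro s hs
    refine measure_image hX hL hg μ hAo.measurableSet fun p hp r hr => ?_
    rw [uIcc_of_le hs] at hr
    exact trace_cut hW hWΩ hXf htr (hMW (hAM (hAfwd r hr.1 ⟨p, hp, rfl⟩)))
  have hopen : ∀ s, IsOpen (g s '' A) := fun s => by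
    rw [image_flow hL hg]
    exact hAo.preimage (hgc _)
  have hcl : ∀ s, 0 ≤ s → A ⊆ closure (g s '' A) := by
    intro s hs x hx
    by_contra hx2
    have h1 : IsOpen (A ∩ (closure (g s '' A))ᶜ) := hAo.inter isClosed_closure.isOpen_compl
    have h2 := h1.measure_pos μ ⟨x, hx, hx2⟩
    have h3 : μ (A \ g s '' A) = 0 := by
      rw [measure_diff (hAfwd s hs) (hopen s).measurableSet.nullMeasurableSet
        (by rw [himg s hs]; exact hAfin), himg s hs, tsub_self]
    have h4 : μ (A ∩ (closure (g s '' A))ᶜ) ≤ μ (A \ g s '' A) :=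
      measure_mono fun z hz => ⟨hz.1, fun h => hz.2 (subset_closure h)⟩
    rw [h3] at h4
    exact absurd h4 (not_le.2 h2)
  have hback : ∀ s, 0 ≤ s → ∀ x ∈ A, g (-s) x ∈ closure A := by
    intro s hs x hx
    have h1 : g (-s) x ∈ closure (g (-s) '' (g s '' A)) :=
      image_closure_subset_closure_image (hgc _) ⟨x, hcl s hs hx, rfl⟩
    have h2 : g (-s) '' (g s '' A) = A := by
      rw [image_image]
      simp only [inv_flow' hL hg, image_id']
    rwa [h2] at h1
  have hall : ∀ t, ∀ x ∈ A, g t x ∈ closure A := by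
    intro t x hx
    rcases le_total 0 t with h | h
    · exact subset_closure (hAfwd t h ⟨x, hx, rfl⟩)
    · have := hback (-t) (by linarith) x hx
      rwa [neg_neg] at this
  have hclM : closure A ⊆ M := closure_minimal hAM hMc.isClosed
  refine ⟨closure A, hMc.of_isClosed_subset isClosed_closure hclM, hVA.trans subset_closure, hclM,
    fun t z hz => ?_⟩
  have h1 : g t z ∈ closure (g t '' A) := image_closure_subset_closure_image (hgc t) ⟨z, hz, rfl⟩
  have h2 : closure (g t '' A) ⊆ closure A := by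
    refine closure_minimal ?_ isClosed_closure
    rintro _ ⟨x, hx, rfl⟩
    exact hall t x hx
  exact h2 h1

/-- `C` is a compact subset of `Ω`; every solution on an interval which meets `C` at some time lies
in `C`; the solutions through points of `C` exist for all times -/
def IsTrap (f : E → E) (Ω C : Set E) : Prop :=
  IsCompact C ∧ C ⊆ Ω ∧
    (∀ z ∈ C, ∃ y : ℝ → E, Sol f Ω univ y ∧ y 0 = z) ∧
    ∀ J : Set ℝ, J.OrdConnected → ∀ y : ℝ → E, Sol f Ω J y → (∃ t ∈ J, y t ∈ C) →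
      ∀ t ∈ J, y t ∈ C

/-- the solution through `z` exists for all times and returns close to `z` at arbitrarily large
positive and negative times -/
def RecSol (f : E → E) (Ω : Set E) (z : E) : Prop :=
  ∃ y : ℝ → E, Sol f Ω univ y ∧ y 0 = z ∧ ∀ ε : ℝ, 0 < ε → ∀ T : ℝ,
    (∃ t, T ≤ t ∧ dist (y t) z < ε) ∧ ∃ t, t ≤ -T ∧ dist (y t) z < ε

omit [FiniteDimensional ℝ E] in
theorem recSol_of {f : E → E} {Ω : Set E} {g : ℝ → E → E} {z : E} (h0 : g 0 z = z)
    (hs : Sol f Ω univ (fun t => g t z)) (hr : Rec g z) : RecSol f Ω z := by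
  refine ⟨fun t => g t z, hs, h0, fun ε hε T => ?_⟩
  obtain ⟨N, hN⟩ := exists_nat_ge T
  obtain ⟨⟨a, ha, ha2⟩, b, hb, hb2⟩ := hr ε hε N
  have ha' : (N : ℝ) ≤ a := by exact_mod_cast ha
  have hb' : (N : ℝ) ≤ b := by exact_mod_cast hb
  exact ⟨⟨a, hN.trans ha', ha2⟩, -(b : ℝ), by linarith, hb2⟩

theorem dichotomy [MeasurableSpace E] [BorelSpace E] {f : E → E} {Ω : Set E} (hΩ : IsOpen Ω)
    (hf : ∀ z ∈ Ω, ContDiffAt ℝ 1 f z)
    (htr : ∀ z ∈ Ω, LinearMap.trace ℝ E (fderiv ℝ f z : E →ₗ[ℝ] E) = 0) {U : Set E}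
    (hU : IsOpen U) :
    (∀ᶠ z in residual E, z ∈ U → ¬ CompFwd f Ω z) ∨
    ∃ V C : Set E, IsOpen V ∧ V.Nonempty ∧ V ⊆ U ∧ V ⊆ C ∧ IsTrap f Ω C ∧
      (∀ μ : Measure E, μ.IsAddHaarMeasure → ∀ᵐ z ∂μ, z ∈ V → RecSol f Ω z) ∧
      (∀ᶠ z in residual E, z ∈ V → RecSol f Ω z) := by
  obtain ⟨N, hNc, hNΩ, hNM⟩ := exists_exhaustion hΩ
  choose X L g W hX hL hg hW hNW hWΩ hXf using fun k => exists_cut hΩ hf (hNc k) (hNΩ k)
  have hgc : ∀ k t, Continuous (g k t) := fun k t => (diff_flow (hX k) (hL k) (hg k) t).continuous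
  set B : ℕ → Set E := fun k => {z | ∀ t, 0 ≤ t → g k t z ∈ N k} with hB
  have hBc : ∀ k, IsClosed (B k) := by
    intro k
    have : B k = ⋂ t : ℝ, ⋂ _ : 0 ≤ t, g k t ⁻¹' N k := by
      ext z; simp [hB]
    rw [this]
    exact isClosed_iInter fun t => isClosed_iInter fun _ => (hNc k).isClosed.preimage (hgc k t)
  have hmem : ∀ z, CompFwd f Ω z → ∃ k, z ∈ B k := by
    rintro z ⟨y, hy, hy0, M, hM, hMΩ, hyM⟩
    obtain ⟨k, hk⟩ := hNM M hM hMΩ
    refine ⟨k, fun t ht => ?_⟩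
    have h1 := unique_in (W := W k) (hL k) (hg k) (hXf k)
      (hy.mono (J' := Icc 0 t) fun s hs => hs.1) (fun s hs => hNW k (hk (hyM s hs.1))) t
      ⟨ht, le_rfl⟩
    rw [sub_zero, hy0] at h1
    rw [← h1]
    exact hk (hyM t ht)
  by_cases hint : ∃ k, (interior (B k) ∩ U).Nonempty
  · right
    obtain ⟨k, hk⟩ := hint
    obtain ⟨C, hCc, hVC, hCN, hgC⟩ := trap_of_fwd (hX k) (hL k) (hg k) (hW k) (hWΩ k) (hXf k) htr
      (hNc k) (hNW k) (isOpen_interior.inter hU) (fun p hp t ht => (show p ∈ B k from interior_subset hp.1) t ht)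
    have hsol : ∀ z ∈ C, Sol f Ω univ (fun t => g k t z) := by
      intro z hz t _
      refine ⟨hNΩ k (hCN (hgC t z hz)), ?_⟩
      rw [← hXf k _ (hNW k (hCN (hgC t z hz)))]
      exact ((hg k).deriv z t).hasDerivWithinAt
    have hVi : interior (B k) ∩ U ⊆ interior C :=
      (isOpen_interior.inter hU).subset_interior_iff.2 hVC
    refine ⟨_, C, isOpen_interior.inter hU, hk, inter_subset_right, hVC, ⟨hCc,
      hCN.trans (hNΩ k), fun z hz => ⟨fun t => g k t z, hsol z hz, (hg k).zero z⟩, ?_⟩, ?_, ?_⟩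
    · rintro J hJ y hy ⟨t₀, ht₀, hyt⟩ t ht
      rw [unique_both (hL k) (hg k) (hW k) (hXf k) (hCN.trans (hNW k)) hgC hJ hy ht₀ hyt t ht]
      exact hgC _ _ hyt
    · intro μ hμ
      filter_upwards [rec_ae (hX k) (hL k) (hg k) (hW k) (hWΩ k) (hXf k) htr hCc
        (hCN.trans (hNW k)) hgC μ] with z hz hzV
      exact recSol_of ((hg k).zero z) (hsol z (hVC hzV)) (hz (hVi hzV))
    · filter_upwards [rec_residual (hX k) (hL k) (hg k) (hW k) (hWΩ k) (hXf k) htr hCc
        (hCN.trans (hNW k)) hgC] with z hz hzV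
      exact recSol_of ((hg k).zero z) (hsol z (hVC hzV)) (hz (hVi hzV))
  · left
    push Not at hint
    have hnd : ∀ k, IsNowhereDense (B k ∩ U) := by
      intro k
      rw [IsNowhereDense, eq_empty_iff_forall_notMem]
      intro z hz
      have h1 : interior (closure (B k ∩ U)) ⊆ B k :=
        interior_subset.trans (closure_minimal inter_subset_left (hBc k))
      obtain ⟨w, hw, hwB, hwU⟩ := mem_closure_iff.1 (interior_subset hz) _ isOpen_interior hz
      have h2 : w ∈ interior (B k) :=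
        mem_interior.2 ⟨_, h1, isOpen_interior, hw⟩
      have h3 := hint k
      exact Set.eq_empty_iff_forall_notMem.1 h3 w ⟨h2, hwU⟩
    have h1 : ∀ k, ∀ᶠ z in residual E, z ∉ B k ∩ U := fun k => (hnd k).isMeagre
    filter_upwards [eventually_countable_forall.2 h1] with z hz hzU hzc
    obtain ⟨k, hk⟩ := hmem z hzc
    exact hz k ⟨hk, hzU⟩

end Pool.Agent.Q205.Liou
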