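import Pool.Agent.Q205.Liou.Stab

/-! The spatial `N`-body problem in Hamiltonian form, reduced by the centre of mass, as a divergence
free vector field on a real vector space. -/

set_option autoImplicit false

namespace Pool.Agent.Q205.Liou.Spatial

open Set MeasureTheory Filter Topology

/-- space -/
abbrev R3 : Type := EuclideanSpace ℝ (Fin 3)

/-- positions and momenta of `N` bodies -/
abbrev Phase (N : ℕ) : Type := (Fin N → R3) × (Fin N → R3)

/-- the force on body `i` -/
noncomputable def force {N : ℕ} (m : Fin N → ℝ) (q : Fin N → R3) (i : Fin N) : R3 :=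
  ∑ j, (m i * m j / ‖q j - q i‖ ^ 3) • (q j - q i)

/-- the Hamiltonian vector field of the `N`-body problem -/
noncomputable def hvf {N : ℕ} (m : Fin N → ℝ) (z : Phase N) : Phase N :=
  (fun i => (m i)⁻¹ • z.2 i, force m z.1)

/-- no collisions -/
def Free {N : ℕ} (z : Phase N) : Prop := ∀ i j, i ≠ j → z.1 i ≠ z.1 j

/-- centre of mass `0`, total momentum `0` -/
def IsCom {N : ℕ} (m : Fin N → ℝ) (z : Phase N) : Prop := ∑ i, m i • z.1 i = 0 ∧ ∑ i, z.2 i = 0

/-- the energy -/
noncomputable def energy {N : ℕ} (m : Fin N → ℝ) (z : Phase N) : ℝ :=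
  ∑ i, ‖z.2 i‖ ^ 2 / (2 * m i) - ∑ i, ∑ j, m i * m j / ‖z.1 i - z.1 j‖ / 2

/-- `y` is a solution of the reduced `N`-body problem on the time set `J` -/
def IsSol {N : ℕ} (m : Fin N → ℝ) (J : Set ℝ) (y : ℝ → Phase N) : Prop :=
  ∀ t ∈ J, (Free (y t) ∧ IsCom m (y t)) ∧ HasDerivWithinAt y (hvf m (y t)) J t

variable {N : ℕ}

theorem IsCom.add {m : Fin N → ℝ} {z w : Phase N} (hz : IsCom m z) (hw : IsCom m w) :
    IsCom m (z + w) := by
  obtain ⟨h1, h2⟩ := hz
  obtain ⟨h3, h4⟩ := hw
  refine ⟨?_, ?_⟩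
  · simp only [Prod.fst_add, Pi.add_apply, smul_add, Finset.sum_add_distrib, h1, h3, add_zero]
  · simp only [Prod.snd_add, Pi.add_apply, Finset.sum_add_distrib, h2, h4, add_zero]

theorem IsCom.zero (m : Fin N → ℝ) : IsCom m (0 : Phase N) := by simp [IsCom]

theorem IsCom.smul {m : Fin N → ℝ} (c : ℝ) {z : Phase N} (hz : IsCom m z) : IsCom m (c • z) := by
  obtain ⟨h1, h2⟩ := hz
  refine ⟨?_, ?_⟩
  · simp only [Prod.smul_fst, Pi.smul_apply, smul_comm _ c, ← Finset.smul_sum, h1, smul_zero]
  · simp only [Prod.smul_snd, Pi.smul_apply, ← Finset.smul_sum, h2, smul_zero]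

/-- the reduced phase space (with collisions) -/
def com (m : Fin N → ℝ) : Submodule ℝ (Phase N) where
  carrier := {z | IsCom m z}
  add_mem' := IsCom.add
  zero_mem' := IsCom.zero m
  smul_mem' := fun c _ hz => IsCom.smul c hz

theorem sum_force (m : Fin N → ℝ) (q : Fin N → R3) : ∑ i, force m q i = 0 := by
  set F : Fin N → Fin N → R3 := fun i j => (m i * m j / ‖q j - q i‖ ^ 3) • (q j - q i) with hF
  have h2 : ∀ i j, F i j = -F j i := by
    intro i j
    simp only [hF]
    rw [norm_sub_rev (q i) (q j), ← smul_neg, neg_sub, mul_comm (m i) (m j)]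
  have h3 : ∑ i, ∑ j, F i j = -∑ i, ∑ j, F i j := by
    conv_lhs => rw [Finset.sum_comm]
    rw [← Finset.sum_neg_distrib]
    refine Finset.sum_congr rfl fun i _ => ?_
    rw [← Finset.sum_neg_distrib]
    exact Finset.sum_congr rfl fun j _ => h2 j i
  have h4 : (2 : ℝ) • (∑ i, ∑ j, F i j) = 0 := by
    rw [two_smul]
    exact eq_neg_iff_add_eq_zero.1 h3
  exact (smul_eq_zero.1 h4).resolve_left two_ne_zero

theorem hvf_com {m : Fin N → ℝ} (hm : ∀ i, m i ≠ 0) {z : Phase N} (hz : IsCom m z) :
    IsCom m (hvf m z) := by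
  refine ⟨?_, sum_force m _⟩
  have h1 : ∀ i, m i • ((hvf m z).1 i) = z.2 i := by
    intro i
    simp only [hvf]
    rw [smul_smul, mul_inv_cancel₀ (hm i), one_smul]
  simp only [h1]
  exact hz.2

/-- the vector field on the reduced phase space -/
noncomputable def fld (m : Fin N → ℝ) (hm : ∀ i, m i ≠ 0) (z : com m) : com m :=
  ⟨hvf m z, hvf_com hm z.2⟩

/-- no collisions -/
def free (m : Fin N → ℝ) : Set (com m) := {z | Free (z : Phase N)}

theorem isOpen_Free : IsOpen {z : Phase N | Free z} := by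
  have : {z : Phase N | Free z} = ⋂ a, ⋂ b, ⋂ _ : a ≠ b, {z : Phase N | z.1 a ≠ z.1 b} := by
    ext z; simp [Free]
  rw [this]
  refine isOpen_iInter_of_finite fun a => isOpen_iInter_of_finite fun b =>
    isOpen_iInter_of_finite fun _ => ?_
  have h1 : ∀ a, Continuous (fun z : Phase N => z.1 a) := fun a => by fun_prop
  exact isOpen_ne_fun (h1 a) (h1 b)

theorem isOpen_free (m : Fin N → ℝ) : IsOpen (free m) :=
  isOpen_Free.preimage continuous_subtype_val

theorem contDiffAt_force {m : Fin N → ℝ} {q : Fin N → R3} (hq : ∀ i j, i ≠ j → q i ≠ q j)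
    (i : Fin N) : ContDiffAt ℝ 1 (fun p : Fin N → R3 => force m p i) q := by
  unfold force
  refine ContDiffAt.sum fun j _ => ?_
  by_cases hij : i = j
  · subst hij
    simp only [sub_self, smul_zero]
    exact contDiffAt_const
  · have hne : q j - q i ≠ 0 := sub_ne_zero.2 (hq j i (Ne.symm hij))
    have hd : ContDiffAt ℝ 1 (fun p : Fin N → R3 => p j - p i) q := by fun_prop
    have hn : ContDiffAt ℝ 1 (fun p : Fin N → R3 => ‖p j - p i‖) q := hd.norm ℝ hne
    have hn3 : ContDiffAt ℝ 1 (fun p : Fin N → R3 => m i * m j / ‖p j - p i‖ ^ 3) q :=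
      contDiffAt_const.div (hn.pow 3) (pow_ne_zero 3 (norm_ne_zero_iff.2 hne))
    exact hn3.smul hd

theorem contDiffAt_hvf {m : Fin N → ℝ} {z : Phase N} (hz : Free z) :
    ContDiffAt ℝ 1 (hvf m) z := by
  refine ContDiffAt.prodMk ?_ ?_
  · refine contDiffAt_pi.2 fun i => ?_
    fun_prop
  · refine contDiffAt_pi.2 fun i => ?_
    exact ContDiffAt.comp (g := fun p : Fin N → R3 => force m p i) (f := Prod.fst) z
      (contDiffAt_force (m := m) hz i) contDiffAt_fst

theorem exists_proj (m : Fin N → ℝ) : ∃ P : Phase N →L[ℝ] com m, ∀ z : com m,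
    P (z : Phase N) = z :=
  Submodule.ClosedComplemented.of_finiteDimensional_quotient (p := com m)
    (Submodule.closed_of_finiteDimensional _)

theorem contDiffAt_fld {m : Fin N → ℝ} (hm : ∀ i, m i ≠ 0) {z : com m} (hz : z ∈ free m) :
    ContDiffAt ℝ 1 (fld m hm) z := by
  obtain ⟨P, hP⟩ := exists_proj m
  have h1 : fld m hm = fun z : com m => P (hvf m (z : Phase N)) := by
    funext z
    exact (hP (fld m hm z)).symm
  rw [h1]
  have h2 : ContDiffAt ℝ 1 (hvf m) (z : Phase N) := contDiffAt_hvf hz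
  have h3 : ContDiffAt ℝ 1 (fun z : com m => (z : Phase N)) z :=
    (com m).subtypeL.contDiff.contDiffAt
  exact P.contDiff.contDiffAt.comp z (h2.comp z h3)

/-- time reversal -/
def revL (m : Fin N → ℝ) : com m →ₗ[ℝ] com m where
  toFun z := ⟨((z : Phase N).1, -(z : Phase N).2), z.2.1, by
    have := z.2.2
    simp only [Pi.neg_apply, Finset.sum_neg_distrib, neg_eq_zero]
    exact this⟩
  map_add' z w := by
    ext1
    refine Prod.ext rfl ?_
    simp [add_comm]
  map_smul' c z := by
    ext1
    refine Prod.ext rfl ?_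
    simp

theorem revL_revL (m : Fin N → ℝ) (z : com m) : revL m (revL m z) = z := by
  ext1
  refine Prod.ext rfl ?_
  simp [revL]

theorem fld_rev (m : Fin N → ℝ) (hm : ∀ i, m i ≠ 0) (z : com m) :
    fld m hm (revL m z) = -revL m (fld m hm z) := by
  ext1
  refine Prod.ext ?_ ?_
  · funext i
    simp [revL, fld, hvf]
  · funext i
    simp [revL, fld, hvf]

theorem trace_fld {m : Fin N → ℝ} (hm : ∀ i, m i ≠ 0) {z : com m} (hz : z ∈ free m) :
    LinearMap.trace ℝ (com m) (fderiv ℝ (fld m hm) z : com m →ₗ[ℝ] com m) = 0 := by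
  have hR : revL m z ∈ free m := fun a b hab => hz a b hab
  set D := fderiv ℝ (fld m hm) z with hD
  set RL : com m →L[ℝ] com m := LinearMap.toContinuousLinearMap (revL m) with hRL
  -- translation
  have h1 : fderiv ℝ (fld m hm) (revL m z) = D := by
    set u : com m := revL m z - z with hu
    set w0 : com m := ⟨(0, -2 • (z : Phase N).2), by
      have h3 := z.2.2
      refine ⟨by simp, ?_⟩
      simp only [Pi.smul_apply, ← Finset.smul_sum]
      rw [h3, smul_zero]⟩ with hw0
    have hw1 : IsCom m ((fun i => (m i)⁻¹ • (-2 • (z : Phase N).2) i, 0) : Phase N) := by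
      have h3 := z.2.2
      refine ⟨?_, by simp⟩
      have h4 : ∀ i, m i • ((m i)⁻¹ • (-2 • (z : Phase N).2) i) = -2 • (z : Phase N).2 i := by
        intro i
        rw [smul_smul, mul_inv_cancel₀ (hm i), one_smul]
        rfl
      simp only [h4, ← Finset.smul_sum]
      rw [h3, smul_zero]
    set w : com m := ⟨_, hw1⟩ with hw
    have h2 : ∀ z' : com m, fld m hm (z' + u) = fld m hm z' + w := by
      intro z'
      ext1
      refine Prod.ext ?_ ?_
      · funext i
        simp only [fld, hvf, hw, hu, revL, LinearMap.coe_mk, AddHom.coe_mk, Submodule.coe_add,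
          Submodule.coe_sub, Prod.fst_add, Prod.snd_add, Prod.snd_sub, Pi.add_apply, Pi.sub_apply,
          Pi.neg_apply, Pi.smul_apply, smul_add]
        congr 2
        rw [neg_smul, two_smul]
        abel
      · funext i
        have h5 : ((z' + u : com m) : Phase N).1 = (z' : Phase N).1 := by
          simp [hu, revL]
        simp only [fld, hvf, hw, Submodule.coe_add, Prod.snd_add, Pi.add_apply, Pi.zero_apply,
          add_zero]
        rw [← Submodule.coe_add, h5]
    have h3 : fderiv ℝ (fun z' => fld m hm (z' + u)) z = fderiv ℝ (fld m hm) (z + u) :=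
      fderiv_comp_add_right u
    have h4 : (fun z' => fld m hm (z' + u)) = fun z' => fld m hm z' + w := funext h2
    rw [h4, fderiv_add_const] at h3
    rw [hD, h3, hu, add_sub_cancel]
  have h5 : ∀ v, D (revL m v) = -revL m (D v) := by
    intro v
    have ha : HasFDerivAt (fun z' => fld m hm (RL z')) (D.comp RL) z := by
      have hb : HasFDerivAt (fld m hm) D (RL z) := by
        rw [← h1]
        exact ((contDiffAt_fld hm hR).differentiableAt one_ne_zero).hasFDerivAt
      exact hb.comp z RL.hasFDerivAt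
    have hc : HasFDerivAt (fun z' => -RL (fld m hm z')) (-(RL.comp D)) z := by
      have hd : HasFDerivAt (fld m hm) D z :=
        ((contDiffAt_fld hm hz).differentiableAt one_ne_zero).hasFDerivAt
      exact (RL.hasFDerivAt.comp z hd).neg
    have he : (fun z' => fld m hm (RL z')) = fun z' => -RL (fld m hm z') :=
      funext fun z' => fld_rev m hm z'
    rw [he] at ha
    have hf := ha.unique hc
    exact congrArg (fun L : com m →L[ℝ] com m => L v) hf
  set Dl : com m →ₗ[ℝ] com m := (D : com m →ₗ[ℝ] com m) with hDl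
  have h6 : Dl = (Dl * revL m) * revL m := by
    ext1 v
    simp only [Module.End.mul_apply, revL_revL]
  have h7 : (Dl * revL m) * revL m = (-(revL m * (Dl * revL m)) : com m →ₗ[ℝ] com m) := by
    ext1 v
    exact h5 (revL m v)
  have h8 : LinearMap.trace ℝ (com m) Dl = -LinearMap.trace ℝ (com m) Dl := by
    have e1 : LinearMap.trace ℝ (com m) ((Dl * revL m) * revL m) =
        -LinearMap.trace ℝ (com m) (revL m * (Dl * revL m)) := by
      rw [h7]
      exact map_neg (LinearMap.trace ℝ (com m)) _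
    rw [LinearMap.trace_mul_comm ℝ (revL m) (Dl * revL m), ← h6] at e1
    exact e1
  exact self_eq_neg.1 h8

theorem sol_down {m : Fin N → ℝ} (hm : ∀ i, m i ≠ 0) (P : Phase N →L[ℝ] com m)
    (hP : ∀ z : com m, P (z : Phase N) = z) {J : Set ℝ} {y : ℝ → Phase N} (hy : IsSol m J y) :
    Sol (fld m hm) (free m) J (fun t => P (y t)) ∧ ∀ t ∈ J, (P (y t) : Phase N) = y t := by
  have h1 : ∀ t ∈ J, (P (y t) : Phase N) = y t := by
    intro t ht
    have := hP ⟨y t, (hy t ht).1.2⟩
    exact congrArg Subtype.val this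
  refine ⟨fun t ht => ⟨?_, ?_⟩, h1⟩
  · change Free (P (y t) : Phase N)
    rw [h1 t ht]
    exact (hy t ht).1.1
  · have h2 := P.hasFDerivAt.comp_hasDerivWithinAt t (hy t ht).2
    have h3 : P (hvf m (y t)) = fld m hm (P (y t)) := by
      rw [← hP (fld m hm (P (y t)))]
      congr 1
      simp only [fld]
      rw [h1 t ht]
    rw [h3] at h2
    exact h2

theorem sol_up {m : Fin N → ℝ} (hm : ∀ i, m i ≠ 0) {J : Set ℝ} {y : ℝ → com m}
    (hy : Sol (fld m hm) (free m) J y) : IsSol m J (fun t => (y t : Phase N)) := by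
  intro t ht
  refine ⟨⟨(hy t ht).1, (y t).2⟩, ?_⟩
  exact (com m).subtypeL.hasFDerivAt.comp_hasDerivWithinAt t (hy t ht).2

end Pool.Agent.Q205.Liou.Spatial
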