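import Pool.Agent.Q205.Liou.TC
import Pool.Agent.Q205.Liou.Spatial

/-! Nonwandering points of the spatial `N`-body problem on energy surfaces: scaling. -/

set_option autoImplicit false

namespace Pool.Agent.Q205.Liou.Spatial

open Set MeasureTheory Filter Topology

variable {N : ℕ}

/-- the energy surface of the reduced problem -/
def surface (m : Fin N → ℝ) (E : ℝ) : Set (Phase N) := {x | Free x ∧ IsCom m x ∧ energy m x = E}

/-- `φ` is the complete flow on the energy surface obtained from the `N`-body flow by a smooth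
positive change of time `ψ` -/
structure IsReparametrizedFlow (m : Fin N → ℝ) (E : ℝ) (ψ : Phase N → ℝ)
    (φ : ℝ → Phase N → Phase N) : Prop where
  /-- `ψ` is smooth outside collisions -/
  smooth : ContDiffOn ℝ ((⊤ : ℕ∞) : WithTop ℕ∞) ψ {x | Free x}
  /-- `ψ` is positive outside collisions -/
  pos : ∀ x : Phase N, Free x → 0 < ψ x
  /-- orbits exist for all times and solve the reparametrized equations of motion -/
  flow : ∀ x ∈ surface m E, φ 0 x = x ∧ ∀ t : ℝ, φ t x ∈ surface m E ∧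
    HasDerivAt (fun s : ℝ => φ s x) (ψ (φ t x) • hvf m (φ t x)) t

/-- `x` is a nonwandering point of the flow `φ` on the energy surface `S` -/
def IsNonwandering (S : Set (Phase N)) (φ : ℝ → Phase N → Phase N) (x : Phase N) : Prop :=
  ∀ V : Set (Phase N), IsOpen V → x ∈ V → ∀ T : ℝ, ∃ t : ℝ, T < t ∧ ∃ y ∈ V ∩ S, φ t y ∈ V

/-- the solution with initial value `z` exists for all positive times and stays in a compact set of
phase points without collisions -/
def CompactForward (m : Fin N → ℝ) (z : Phase N) : Prop :=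
  ∃ y : ℝ → Phase N, IsSol m (Set.Ici 0) y ∧ y 0 = z ∧ ∃ K : Set (Phase N), IsCompact K ∧
    (∀ w ∈ K, Free w) ∧ ∀ t, 0 ≤ t → y t ∈ K

/-- the solution with initial value `z` exists for all positive times and returns arbitrarily close
to `z` at arbitrarily large times -/
def RecurrentForward (m : Fin N → ℝ) (z : Phase N) : Prop :=
  ∃ y : ℝ → Phase N, IsSol m (Set.Ici 0) y ∧ y 0 = z ∧ ∀ ε : ℝ, 0 < ε → ∀ T : ℝ,
    ∃ t, T ≤ t ∧ 0 ≤ t ∧ dist (y t) z < ε

/-- `e` gives linear coordinates on the space of phase points with centre of mass `0` and total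
momentum `0` -/
def IsCoord {d : ℕ} (m : Fin N → ℝ) (e : (Fin d → ℝ) → Phase N) : Prop :=
  IsLinearMap ℝ e ∧ Function.Injective e ∧ ∀ z, z ∈ Set.range e ↔ IsCom m z

/-- in linear coordinates, `P` holds for Lebesgue almost every point -/
def AlmostEvery (m : Fin N → ℝ) (P : Phase N → Prop) : Prop :=
  ∀ (d : ℕ) (e : (Fin d → ℝ) → Phase N), IsCoord m e → ∀ᵐ s, P (e s)

/-! ### coordinates -/

theorem exists_cle {d : ℕ} {m : Fin N → ℝ} {e : (Fin d → ℝ) → Phase N} (he : IsCoord m e) :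
    ∃ L : (Fin d → ℝ) ≃L[ℝ] com m, ∀ s, (L s : Phase N) = e s := by
  obtain ⟨h1, h2, h3⟩ := he
  set l : (Fin d → ℝ) →ₗ[ℝ] com m := LinearMap.codRestrict (com m) (h1.mk' e)
    (fun s => (h3 _).1 ⟨s, rfl⟩) with hl
  have hval : ∀ s, (l s : Phase N) = e s := fun s => rfl
  have hb : Function.Bijective l := by
    constructor
    · intro s t hst
      apply h2
      rw [← hval, ← hval, hst]
    · intro z
      obtain ⟨s, hs⟩ := (h3 z).2 z.2
      exact ⟨s, Subtype.ext hs⟩
  refine ⟨(LinearEquiv.ofBijective l hb).toContinuousLinearEquiv, fun s => rfl⟩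

theorem almostEvery_of {m : Fin N → ℝ} {P : Phase N → Prop}
    (h : ∀ μ : Measure (com m), μ.IsAddHaarMeasure → ∀ᵐ (z : com m) ∂μ, P (z : Phase N)) :
    AlmostEvery m P := by
  intro d e he
  obtain ⟨L, hL⟩ := exists_cle he
  have h1 := h (Measure.map L volume) inferInstance
  have h2 := ae_of_ae_map L.continuous.measurable.aemeasurable h1
  filter_upwards [h2] with s hs
  rwa [hL] at hs

/-- a property which holds almost everywhere holds at some point of each nonempty open set -/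
theorem AlmostEvery.exists {m : Fin N → ℝ} {P : Phase N → Prop} (h : AlmostEvery m P)
    {V : Set (Phase N)} (hV : IsOpen V) {z : Phase N} (hz : z ∈ V) (hzc : IsCom m z) :
    ∃ w ∈ V, IsCom m w ∧ P w := by
  set L : (Fin (Module.finrank ℝ (com m)) → ℝ) ≃L[ℝ] com m :=
    (Module.finBasis ℝ (com m)).equivFun.symm.toContinuousLinearEquiv with hL
  have he : IsCoord m (fun s => (L s : Phase N)) := by
    refine ⟨⟨fun s t => by simp, fun c s => by simp⟩, fun s t hst => ?_, fun w => ⟨?_, ?_⟩⟩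
    · exact L.injective (Subtype.ext hst)
    · rintro ⟨s, rfl⟩
      exact (L s).2
    · intro hw
      exact ⟨L.symm ⟨w, hw⟩, by simp⟩
  have h1 := h _ _ he
  have hO : IsOpen ((fun s => (L s : Phase N)) ⁻¹' V) :=
    hV.preimage (continuous_subtype_val.comp L.continuous)
  have hne : ((fun s => (L s : Phase N)) ⁻¹' V).Nonempty :=
    ⟨L.symm ⟨z, hzc⟩, by simpa using hz⟩
  by_contra hcon
  push Not at hcon
  have h2 : volume ((fun s => (L s : Phase N)) ⁻¹' V) = 0 := by
    refine measure_mono_null (fun s hs => ?_) (ae_iff.1 h1)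
    exact hcon _ hs (L s).2
  exact (hO.measure_pos volume hne).ne' h2

/-! ### scaling -/

/-- the scaling `(q, p) ↦ (a² q, a⁻¹ p)` -/
noncomputable def sc (a : ℝ) : Phase N →L[ℝ] Phase N :=
  ((a ^ 2) • ContinuousLinearMap.fst ℝ _ _).prod (a⁻¹ • ContinuousLinearMap.snd ℝ _ _)

theorem sc_apply (a : ℝ) (z : Phase N) : sc a z = ((a ^ 2) • z.1, a⁻¹ • z.2) := rfl

theorem sc_sc {a b : ℝ} (z : Phase N) : sc a (sc b z) = sc (a * b) z := by
  rw [sc_apply, sc_apply, sc_apply, smul_smul, smul_smul, mul_pow, mul_inv]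

theorem sc_one (z : Phase N) : sc 1 z = z := by
  rw [sc_apply]; simp

theorem Free.sc {a : ℝ} (ha : a ≠ 0) {z : Phase N} (hz : Free z) : Free (sc a z) := by
  intro i j hij h
  refine hz i j hij ?_
  have h1 : (a ^ 2) • z.1 i = (a ^ 2) • z.1 j := h
  exact smul_right_injective _ (pow_ne_zero 2 ha) h1

theorem IsCom.sc {m : Fin N → ℝ} (a : ℝ) {z : Phase N} (hz : IsCom m z) : IsCom m (sc a z) := by
  refine ⟨?_, ?_⟩
  · simp only [sc_apply, Pi.smul_apply, smul_comm _ (a ^ 2), ← Finset.smul_sum, hz.1, smul_zero]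
  · simp only [sc_apply, Pi.smul_apply, ← Finset.smul_sum, hz.2, smul_zero]

theorem energy_sc (m : Fin N → ℝ) {a : ℝ} (ha : 0 < a) (z : Phase N) :
    energy m (sc a z) = (a ^ 2)⁻¹ * energy m z := by
  unfold energy
  rw [mul_sub, Finset.mul_sum, Finset.mul_sum]
  congr 1
  · refine Finset.sum_congr rfl fun i _ => ?_
    simp only [sc_apply, Pi.smul_apply, norm_smul, norm_inv, Real.norm_eq_abs, abs_of_pos ha]
    rw [mul_pow, inv_pow, mul_div_assoc]
  · refine Finset.sum_congr rfl fun i _ => ?_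
    rw [Finset.mul_sum]
    refine Finset.sum_congr rfl fun j _ => ?_
    simp only [sc_apply, Pi.smul_apply, ← smul_sub, norm_smul, norm_pow, Real.norm_eq_abs,
      abs_of_pos ha]
    rw [div_mul_eq_div_div, ← mul_div_assoc, mul_div_assoc _ _ (2 : ℝ)]
    field_simp

theorem force_smul (m : Fin N → ℝ) {a : ℝ} (ha : 0 < a) (q : Fin N → R3) (i : Fin N) :
    force m ((a ^ 2) • q) i = (a ^ 4)⁻¹ • force m q i := by
  unfold force
  rw [Finset.smul_sum]
  refine Finset.sum_congr rfl fun j _ => ?_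
  simp only [Pi.smul_apply, ← smul_sub, norm_smul, norm_pow, Real.norm_eq_abs, abs_of_pos ha]
  rw [smul_smul, smul_smul]
  congr 1
  rw [mul_pow]
  by_cases h : ‖q j - q i‖ = 0
  · rw [h]; simp
  · field_simp

theorem hvf_sc (m : Fin N → ℝ) {a : ℝ} (ha : 0 < a) (z : Phase N) :
    hvf m (sc a z) = (a ^ 3)⁻¹ • sc a (hvf m z) := by
  have ha' : a ≠ 0 := ha.ne'
  refine Prod.ext ?_ ?_
  · funext i
    simp only [hvf, sc_apply, Prod.smul_fst, Pi.smul_apply, smul_smul]
    congr 1
    field_simp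
  · funext i
    simp only [hvf, sc_apply, Prod.smul_snd, Pi.smul_apply, smul_smul]
    rw [force_smul m ha]
    congr 1
    field_simp

theorem RecurrentForward.sc {m : Fin N → ℝ} {a : ℝ} (ha : 0 < a) {z : Phase N}
    (hz : RecurrentForward m z) : RecurrentForward m (sc a z) := by
  obtain ⟨y, hy, hy0, hrec⟩ := hz
  have ha3 : 0 < (a ^ 3)⁻¹ := by positivity
  refine ⟨fun t => Spatial.sc a (y ((a ^ 3)⁻¹ * t)), ?_, by simp [hy0], ?_⟩
  · intro t ht
    have ht' : (a ^ 3)⁻¹ * t ∈ Ici (0:ℝ) := mul_nonneg ha3.le ht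
    obtain ⟨⟨h1, h2⟩, h3⟩ := hy _ ht'
    refine ⟨⟨h1.sc ha.ne', h2.sc a⟩, ?_⟩
    have h4 : HasDerivWithinAt (fun t : ℝ => (a ^ 3)⁻¹ * t) (a ^ 3)⁻¹ (Ici 0) t := by
      simpa using ((hasDerivAt_id t).const_mul (a ^ 3)⁻¹).hasDerivWithinAt (s := Ici 0)
    have h5 := h3.scomp t h4 fun s hs => mul_nonneg ha3.le hs
    have h6 := (Spatial.sc (N := N) a).hasFDerivAt.comp_hasDerivWithinAt t h5
    rw [hvf_sc m ha]
    rw [map_smul] at h6
    exact h6
  · intro ε hε T
    obtain ⟨δ, hδ, hδs⟩ := Metric.continuous_iff.1 (Spatial.sc (N := N) a).continuous z ε hε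
    obtain ⟨t, ht, ht0, htd⟩ := hrec δ hδ ((a ^ 3)⁻¹ * T)
    refine ⟨a ^ 3 * t, ?_, by positivity, ?_⟩
    · have := mul_le_mul_of_nonneg_left ht (show (0:ℝ) ≤ a ^ 3 by positivity)
      rwa [← mul_assoc, mul_inv_cancel₀ (by positivity), one_mul] at this
    · have e : (a ^ 3)⁻¹ * (a ^ 3 * t) = t := by
        rw [← mul_assoc, inv_mul_cancel₀ (by positivity), one_mul]
      simp only [e]
      exact hδs _ htd

/-! ### main statements -/

theorem rec_of_comp {m : Fin N → ℝ} (hm : ∀ i, m i ≠ 0) :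
    AlmostEvery m (fun z => CompactForward m z → RecurrentForward m z) := by
  refine almostEvery_of fun μ hμ => ?_
  obtain ⟨P, hP⟩ := exists_proj m
  have h1 := rec_comp (f := fld m hm) (isOpen_free m) (fun z hz => contDiffAt_fld hm hz)
    (fun z hz => trace_fld hm hz) μ
  filter_upwards [h1] with z hz hzc
  obtain ⟨y, hy, hy0, K, hK, hKf, hyK⟩ := hzc
  obtain ⟨hd, hc⟩ := sol_down hm P hP hy
  have hcl : IsClosed ((com m : Submodule ℝ (Phase N)) : Set (Phase N)) :=
    Submodule.closed_of_finiteDimensional _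
  have hK' : IsCompact ((fun z : com m => (z : Phase N)) ⁻¹' K) :=
    hcl.isClosedEmbedding_subtypeVal.isCompact_preimage hK
  obtain ⟨w, hw, hw0, hwr⟩ := hz ⟨fun t => P (y t), hd, by change P (y 0) = z; rw [hy0, hP], _, hK',
    fun v hv => hKf _ hv, fun t ht => by
      change (P (y t) : Phase N) ∈ K
      rw [hc t ht]
      exact hyK t ht⟩
  refine ⟨fun t => (w t : Phase N), sol_up hm hw, congrArg Subtype.val hw0, fun ε hε T => ?_⟩
  exact hwr ε hε T

theorem continuousOn_energy (m : Fin N → ℝ) : ContinuousOn (energy m) {z | Free z} := by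
  unfold energy
  refine ContinuousOn.sub ?_ ?_
  · exact Continuous.continuousOn (by fun_prop)
  · refine continuousOn_finset_sum _ fun i _ => continuousOn_finset_sum _ fun j _ => ?_
    by_cases hij : i = j
    · subst hij
      simp only [sub_self, norm_zero, div_zero, zero_div]
      exact continuousOn_const
    · refine ContinuousOn.div_const (ContinuousOn.div continuousOn_const ?_ ?_) _
      · exact Continuous.continuousOn (by fun_prop)
      · intro z hz
        exact norm_ne_zero_iff.2 (sub_ne_zero.2 (hz i j hij))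

/-- recurrent points dense near `z` give recurrent points dense near the rescaled point -/
theorem rec_dense {m : Fin N → ℝ} {U : Set (Phase N)}
    (hD : ∀ V : Set (Phase N), IsOpen V → V ⊆ U → (∃ z ∈ V, Free z ∧ IsCom m z) →
      ∃ r ∈ V, RecurrentForward m r)
    (hU : IsOpen U) {E : ℝ} (hE : E < 0) {x : Phase N} (hx : x ∈ surface m E) {a : ℝ}
    (ha : 0 < a) (hxU : sc a x ∈ U) {V : Set (Phase N)} (hV : IsOpen V) (hxV : x ∈ V) :
    ∃ r ∈ V, r ∈ surface m E ∧ RecurrentForward m r := by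
  obtain ⟨hxf, hxc, hxE⟩ := hx
  set z := sc a x with hz
  have hzf : Free z := hxf.sc ha.ne'
  have hzc : IsCom m z := hxc.sc a
  have hzE : energy m z = (a ^ 2)⁻¹ * E := by rw [hz, energy_sc m ha, hxE]
  have hzneg : energy m z < 0 := by
    rw [hzE]
    exact mul_neg_of_pos_of_neg (by positivity) hE
  set s : Phase N → ℝ := fun w => Real.sqrt (energy m w / E) with hs
  set ρ : Phase N → Phase N := fun w => ((s w ^ 2) • w.1, (s w)⁻¹ • w.2) with hρ
  have hsz : s z = a⁻¹ := by
    simp only [hs]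
    rw [hzE, mul_div_assoc, div_self hE.ne, mul_one, Real.sqrt_inv, Real.sqrt_sq ha.le]
  have hρz : ρ z = x := by
    have : ρ z = sc (s z) z := rfl
    rw [this, hsz, hz, sc_sc, inv_mul_cancel₀ ha.ne', sc_one]
  have hen : ContinuousAt (energy m) z :=
    (continuousOn_energy m).continuousAt (isOpen_Free.mem_nhds hzf)
  have hsc : ContinuousAt s z := (hen.div_const E).sqrt
  have hs0 : s z ≠ 0 := by rw [hsz]; positivity
  have hρc : ContinuousAt ρ z := by
    refine ContinuousAt.prodMk ?_ ?_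
    · exact (hsc.pow 2).smul continuousAt_fst
    · exact (hsc.inv₀ hs0).smul continuousAt_snd
  have e1 : ∀ᶠ w in 𝓝 z, ρ w ∈ V := hρc (by rw [hρz]; exact hV.mem_nhds hxV)
  have e2 : ∀ᶠ w in 𝓝 z, energy m w < 0 := hen.eventually (gt_mem_nhds hzneg)
  have e3 : ∀ᶠ w in 𝓝 z, w ∈ U := hU.mem_nhds hxU
  obtain ⟨V', hV'1, hV'o, hzV'⟩ := eventually_nhds_iff.1 (e1.and (e2.and e3))
  obtain ⟨r, hrV, hr⟩ := hD V' hV'o (fun w hw => (hV'1 w hw).2.2) ⟨z, hzV', hzf, hzc⟩
  have hrneg : energy m r < 0 := (hV'1 r hrV).2.1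
  have hsr : 0 < s r := Real.sqrt_pos.2 (div_pos_of_neg_of_neg hrneg hE)
  have hr0 := hr
  obtain ⟨y, hy, hy0, -⟩ := hr0
  have hrf := hy 0 (mem_Ici.2 le_rfl)
  rw [hy0] at hrf
  have hρr : ρ r = sc (s r) r := rfl
  refine ⟨ρ r, (hV'1 r hrV).1, ?_, ?_⟩
  · rw [hρr]
    refine ⟨hrf.1.1.sc hsr.ne', hrf.1.2.sc _, ?_⟩
    rw [energy_sc m hsr]
    simp only [hs]
    rw [Real.sq_sqrt (div_pos_of_neg_of_neg hrneg hE).le, inv_div, div_mul_cancel₀ _ hrneg.ne]
  · rw [hρr]
    exact hr.sc hsr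

/-- recurrent points return along every reparametrized flow -/
theorem returns {m : Fin N → ℝ} (hm : ∀ i, m i ≠ 0) {E : ℝ} {ψ : Phase N → ℝ}
    {φ : ℝ → Phase N → Phase N} (hφ : IsReparametrizedFlow m E ψ φ) {r : Phase N}
    (hrS : r ∈ surface m E) (hr : RecurrentForward m r) {V : Set (Phase N)} (hV : IsOpen V)
    (hrV : r ∈ V) (T : ℝ) : ∃ t, T < t ∧ φ t r ∈ V := by
  obtain ⟨P, hP⟩ := exists_proj m
  obtain ⟨y, hy, hy0, hrec⟩ := hr
  obtain ⟨hd, hc⟩ := sol_down hm P hP hy
  set x : com m := ⟨r, hrS.2.1⟩ with hx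
  have hPr : P r = x := hP x
  have hrf : RecFwd (fld m hm) (free m) x := by
    refine ⟨fun t => P (y t), hd, by change P (y 0) = x; rw [hy0, hPr], fun ε hε T => ?_⟩
    obtain ⟨t, ht, ht0, htd⟩ := hrec ε hε T
    refine ⟨t, ht, ht0, ?_⟩
    rw [Subtype.dist_eq, hc t ht0]
    exact htd
  have hfl := hφ.flow r hrS
  have hval : ∀ t, (P (φ t r) : Phase N) = φ t r := fun t =>
    congrArg Subtype.val (hP ⟨φ t r, (hfl.2 t).1.2.1⟩)
  obtain ⟨t, ht, htV⟩ := returns_of_rec (f := fld m hm) (Ω := free m)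
    (fun z hz => contDiffAt_fld hm hz) hrf (ψ := fun z : com m => ψ (z : Phase N))
    (hφ.smooth.continuousOn.comp continuous_subtype_val.continuousOn fun z hz => hz)
    (fun z hz => hφ.pos _ hz) (u := fun t => P (φ t r))
    (fun t => by
      have h1 := P.hasFDerivAt.comp_hasDerivAt t (hfl.2 t).2
      rw [map_smul] at h1
      have h3 : P (hvf m (φ t r)) = fld m hm (P (φ t r)) := by
        rw [← hP (fld m hm (P (φ t r)))]
        congr 1
        simp only [fld]
        rw [hval t]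
      rw [h3] at h1
      simp only [hval t]
      exact h1)
    (fun t => by
      change Free (P (φ t r) : Phase N)
      rw [hval t]
      exact (hfl.2 t).1.1)
    (by rw [hfl.1, hPr]) (hV.preimage continuous_subtype_val) hrV T
  refine ⟨t, ht, ?_⟩
  have h2 : (P (φ t r) : Phase N) ∈ V := htV
  rwa [hval t] at h2

end Pool.Agent.Q205.Liou.Spatial
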