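import Pool.Agent.Q205.Liou.Herm

/-! Herman's question on different energy surfaces; locally positive sets of compact motions. -/

set_option autoImplicit false

namespace Pool.Agent.Q205.Liou.Spatial

open Set MeasureTheory Filter Topology

variable {N : ℕ}

/-- Herman's assertion for the energy `E`: for every reparametrized flow the nonwandering set is
nowhere dense in the energy surface -/
def HermanAt (m : Fin N → ℝ) (E : ℝ) : Prop :=
  ∀ (ψ : Phase N → ℝ) (φ : ℝ → Phase N → Phase N), IsReparametrizedFlow m E ψ φ →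
    ∀ U : Set (Phase N), IsOpen U → (U ∩ surface m E).Nonempty → ∃ W : Set (Phase N), IsOpen W ∧
      W ⊆ U ∧ (W ∩ surface m E).Nonempty ∧
      ∀ x ∈ W ∩ surface m E, ¬ IsNonwandering (surface m E) φ x

theorem surface_sc {m : Fin N → ℝ} {a E E' : ℝ} (ha : 0 < a) (haE : (a ^ 2)⁻¹ * E = E')
    {z : Phase N} (hz : z ∈ surface m E) : sc a z ∈ surface m E' :=
  ⟨hz.1.sc ha.ne', hz.2.1.sc a, by rw [energy_sc m ha, hz.2.2, haE]⟩

theorem sc_inv_sc {a : ℝ} (ha : 0 < a) (z : Phase N) : sc a⁻¹ (sc a z) = z := by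
  rw [sc_sc, inv_mul_cancel₀ ha.ne', sc_one]

theorem sc_sc_inv {a : ℝ} (ha : 0 < a) (z : Phase N) : sc a (sc a⁻¹ z) = z := by
  rw [sc_sc, mul_inv_cancel₀ ha.ne', sc_one]

theorem herman_of {m : Fin N → ℝ} {E E' : ℝ} (hE : E < 0) (hE' : E' < 0) (h : HermanAt m E) :
    HermanAt m E' := by
  set a : ℝ := Real.sqrt (E / E') with ha
  have ha0 : 0 < a := Real.sqrt_pos.2 (div_pos_of_neg_of_neg hE hE')
  have ha2 : a ^ 2 = E / E' := Real.sq_sqrt (div_pos_of_neg_of_neg hE hE').le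
  have haE : (a ^ 2)⁻¹ * E = E' := by
    rw [ha2, inv_div, div_mul_cancel₀ _ hE.ne]
  have haE' : ((a⁻¹) ^ 2)⁻¹ * E' = E := by
    rw [inv_pow, inv_inv, ha2, div_mul_cancel₀ _ hE'.ne]
  have hai : 0 < a⁻¹ := inv_pos.2 ha0
  intro ψ φ hφ U hU hUS
  set ψ' : Phase N → ℝ := fun z => (a ^ 3)⁻¹ * ψ (sc a z) with hψ'
  set φ' : ℝ → Phase N → Phase N := fun t z => sc a⁻¹ (φ t (sc a z)) with hφ'
  have hfl : IsReparametrizedFlow m E ψ' φ' := by
    refine ⟨?_, fun x hx => ?_, fun x hx => ⟨?_, fun t => ⟨?_, ?_⟩⟩⟩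
    · refine contDiffOn_const.mul ?_
      exact hφ.smooth.comp (Spatial.sc (N := N) a).contDiff.contDiffOn fun z hz =>
        Free.sc ha0.ne' hz
    · have := hφ.pos _ (Free.sc ha0.ne' hx)
      simp only [hψ']
      positivity
    · simp only [hφ']
      rw [(hφ.flow _ (surface_sc ha0 haE hx)).1, sc_inv_sc ha0]
    · exact surface_sc hai haE' ((hφ.flow _ (surface_sc ha0 haE hx)).2 t).1
    · have h1 := ((hφ.flow _ (surface_sc ha0 haE hx)).2 t).2
      have h2 := (Spatial.sc (N := N) a⁻¹).hasFDerivAt.comp_hasDerivAt t h1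
      have h3 : Spatial.sc a⁻¹ (ψ (φ t (Spatial.sc a x)) • hvf m (φ t (Spatial.sc a x))) =
          ψ' (φ' t x) • hvf m (φ' t x) := by
        simp only [hψ', hφ']
        rw [sc_sc_inv ha0, hvf_sc m hai, map_smul, smul_smul]
        congr 1
        rw [inv_pow, inv_inv]
        field_simp
      rw [h3] at h2
      exact h2
  obtain ⟨x, hxU, hxS⟩ := hUS
  have hU' : IsOpen (Spatial.sc (N := N) a ⁻¹' U) := hU.preimage (Spatial.sc (N := N) a).continuous
  obtain ⟨W, hW, hWU, ⟨w, hwW, hwS⟩, hWw⟩ := h ψ' φ' hfl _ hU' ⟨Spatial.sc a⁻¹ x, by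
    change Spatial.sc a (Spatial.sc a⁻¹ x) ∈ U
    rw [sc_sc_inv ha0]
    exact hxU, surface_sc hai haE' hxS⟩
  refine ⟨Spatial.sc (N := N) a⁻¹ ⁻¹' W, hW.preimage (Spatial.sc (N := N) a⁻¹).continuous, ?_,
    ⟨Spatial.sc a w, ?_, surface_sc ha0 haE hwS⟩, ?_⟩
  · intro z hz
    have := hWU hz
    change Spatial.sc a (Spatial.sc a⁻¹ z) ∈ U at this
    rwa [sc_sc_inv ha0] at this
  · change Spatial.sc a⁻¹ (Spatial.sc a w) ∈ W
    rw [sc_inv_sc ha0]
    exact hwW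
  · rintro z ⟨hzW, hzS⟩ hnw
    refine hWw (Spatial.sc a⁻¹ z) ⟨hzW, surface_sc hai haE' hzS⟩ ?_
    intro V hV hzV T
    obtain ⟨t, ht, y, ⟨hyV, hyS⟩, hyt⟩ := hnw (Spatial.sc (N := N) a⁻¹ ⁻¹' V)
      (hV.preimage (Spatial.sc (N := N) a⁻¹).continuous) hzV T
    refine ⟨t, ht, Spatial.sc a⁻¹ y, ⟨hyV, surface_sc hai haE' hyS⟩, ?_⟩
    simp only [hφ']
    rw [sc_sc_inv ha0]
    exact hyt

/-- in every open subset of `U` (of the reduced phase space) the points whose forward solution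
stays in a compact set without collisions do not form a null set -/
def LocallyPositive (m : Fin N → ℝ) (U : Set (Phase N)) : Prop :=
  ∀ V : Set (Phase N), IsOpen V → V ⊆ U → (∃ z ∈ V, Free z ∧ IsCom m z) →
    ¬ AlmostEvery m (fun z => z ∈ V → ¬ CompactForward m z)

/-- some nonempty open subset of the energy surface consists of nonwandering points of every
reparametrized flow, and recurrent points of the `N`-body flow are dense in it -/
def OpenNonwandering (m : Fin N → ℝ) (E : ℝ) : Prop :=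
  ∃ W : Set (Phase N), IsOpen W ∧ (W ∩ surface m E).Nonempty ∧
    (∀ x ∈ W ∩ surface m E, ∀ V : Set (Phase N), IsOpen V → x ∈ V →
      ∃ r ∈ V ∩ surface m E, RecurrentForward m r) ∧
    ∀ (ψ : Phase N → ℝ) (φ : ℝ → Phase N → Phase N), IsReparametrizedFlow m E ψ φ →
      ∀ x ∈ W ∩ surface m E, IsNonwandering (surface m E) φ x

theorem open_nonwandering {m : Fin N → ℝ} (hm : ∀ i, m i ≠ 0) {U : Set (Phase N)}
    (hU : IsOpen U) (hUn : ∃ z ∈ U, Free z ∧ IsCom m z ∧ energy m z < 0)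
    (hpos : LocallyPositive m U) {E : ℝ} (hE : E < 0) : OpenNonwandering m E := by
  have hD : ∀ V : Set (Phase N), IsOpen V → V ⊆ U → (∃ z ∈ V, Free z ∧ IsCom m z) →
      ∃ r ∈ V, RecurrentForward m r := by
    intro V hV hVU hVn
    by_contra hcon
    push Not at hcon
    refine hpos V hV hVU hVn ?_
    intro d e he
    filter_upwards [rec_of_comp hm d e he] with s hs hsV hsc
    exact hcon _ hsV (hs hsc)
  set W : Set (Phase N) := ⋃ a : ℝ, ⋃ _ : 0 < a, (Spatial.sc (N := N) a) ⁻¹' U with hW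
  have hWo : IsOpen W := isOpen_iUnion fun a => isOpen_iUnion fun _ =>
    hU.preimage (Spatial.sc (N := N) a).continuous
  have hWm : ∀ x ∈ W, ∃ a : ℝ, 0 < a ∧ Spatial.sc a x ∈ U := by
    intro x hx
    simpa [hW] using hx
  have hdense : ∀ x ∈ W ∩ surface m E, ∀ V : Set (Phase N), IsOpen V → x ∈ V →
      ∃ r ∈ V ∩ surface m E, RecurrentForward m r := by
    rintro x ⟨hxW, hxS⟩ V hV hxV
    obtain ⟨a, ha, hxU⟩ := hWm x hxW
    obtain ⟨r, hrV, hrS, hr⟩ := rec_dense hD hU hE hxS ha hxU hV hxV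
    exact ⟨r, ⟨hrV, hrS⟩, hr⟩
  refine ⟨W, hWo, ?_, hdense, ?_⟩
  · obtain ⟨z, hzU, hzf, hzc, hzE⟩ := hUn
    set a : ℝ := Real.sqrt (energy m z / E) with ha
    have ha0 : 0 < a := Real.sqrt_pos.2 (div_pos_of_neg_of_neg hzE hE)
    have haE : (a ^ 2)⁻¹ * energy m z = E := by
      rw [ha, Real.sq_sqrt (div_pos_of_neg_of_neg hzE hE).le, inv_div,
        div_mul_cancel₀ _ hzE.ne]
    refine ⟨Spatial.sc a z, ?_, surface_sc ha0 haE ⟨hzf, hzc, rfl⟩⟩
    simp only [hW, mem_iUnion]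
    refine ⟨a⁻¹, inv_pos.2 ha0, ?_⟩
    change Spatial.sc a⁻¹ (Spatial.sc a z) ∈ U
    rw [sc_inv_sc ha0]
    exact hzU
  · intro ψ φ hφ x hx V hV hxV T
    obtain ⟨r, ⟨hrV, hrS⟩, hr⟩ := hdense x hx V hV hxV
    obtain ⟨t, ht, htV⟩ := returns hm hφ hrS hr hV hrV T
    exact ⟨t, ht, r, ⟨hrV, hrS⟩, htV⟩

/-- Lyapunov stability of a set `K` of phase points in the reduced problem: for every open
`U₁ ⊇ K` there is an open `U₂ ⊇ K` such that every solution on an interval `[0, τ]` that starts in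
`U₂` stays in `U₁` -/
def Stable (m : Fin N → ℝ) (K : Set (Phase N)) : Prop :=
  ∀ U₁ : Set (Phase N), IsOpen U₁ → K ⊆ U₁ → ∃ U₂ : Set (Phase N), IsOpen U₂ ∧ K ⊆ U₂ ∧
    ∀ τ : ℝ, 0 ≤ τ → ∀ y : ℝ → Phase N, IsSol m (Set.Icc 0 τ) y → y 0 ∈ U₂ →
      ∀ t ∈ Set.Icc 0 τ, y t ∈ U₁

theorem Stable.down {m : Fin N → ℝ} (hm : ∀ i, m i ≠ 0) {K : Set (Phase N)}
    (hK : ∀ z ∈ K, Free z ∧ IsCom m z) (h : Stable m K) :
    Stab (fld m hm) (free m) ((fun z : com m => (z : Phase N)) ⁻¹' K) := by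
  intro U₁ hU₁ hKU
  obtain ⟨V₁, hV₁, rfl⟩ := isOpen_induced_iff.1 hU₁
  obtain ⟨V₂, hV₂, hKV₂, hs⟩ := h V₁ hV₁ (fun z hz => hKU (a := ⟨z, (hK z hz).2⟩) hz)
  refine ⟨(fun z : com m => (z : Phase N)) ⁻¹' V₂, hV₂.preimage continuous_subtype_val,
    fun z hz => hKV₂ hz, ?_⟩
  intro τ hτ y hy hy0 t ht
  exact hs τ hτ _ (sol_up hm hy) hy0 t ht

theorem stable_nonwandering {m : Fin N → ℝ} (hm : ∀ i, m i ≠ 0) {K : Set (Phase N)}
    (hK : IsCompact K) (hKf : ∀ z ∈ K, Free z ∧ IsCom m z) (hst : Stable m K)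
    (hKn : ∃ z ∈ K, energy m z < 0) {E : ℝ} (hE : E < 0) : OpenNonwandering m E := by
  have hcl : IsClosed ((com m : Submodule ℝ (Phase N)) : Set (Phase N)) :=
    Submodule.closed_of_finiteDimensional _
  have hK' : IsCompact ((fun z : com m => (z : Phase N)) ⁻¹' K) :=
    hcl.isClosedEmbedding_subtypeVal.isCompact_preimage hK
  have hKf' : (fun z : com m => (z : Phase N)) ⁻¹' K ⊆ free m := fun z hz => (hKf _ hz).1
  obtain ⟨X, L, g, W, hX, hL, hg, hW, hKW, hWf, hXf⟩ := exists_cut (f := fld m hm)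
    (isOpen_free m) (fun z hz => contDiffAt_fld hm hz) hK' hKf'
  obtain ⟨C, hCc, hKC, -, hCW, hgC⟩ := exists_trap hX hL hg hW hWf hXf
    (fun z hz => trace_fld hm hz) hK' hKW (hst.down hm hKf) isOpen_univ (subset_univ _)
  obtain ⟨O, hO, hOC⟩ := isOpen_induced_iff.1 (isOpen_interior (s := C))
  have hcomp : ∀ z ∈ O, IsCom m z → CompactForward m z := by
    intro z hz hzc
    have hzC : (⟨z, hzc⟩ : com m) ∈ interior C := by
      rw [← hOC]
      exact hz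
    refine ⟨fun t => (g t ⟨z, hzc⟩ : com m), ?_, by simp [hg.zero],
      (fun w : com m => (w : Phase N)) '' C, hCc.image continuous_subtype_val, ?_,
      fun t _ => ⟨_, hgC t _ (interior_subset hzC), rfl⟩⟩
    · refine sol_up hm fun t _ => ⟨hWf (hCW (hgC t _ (interior_subset hzC))), ?_⟩
      rw [← hXf _ (hCW (hgC t _ (interior_subset hzC)))]
      exact (hg.deriv _ t).hasDerivWithinAt
    · rintro _ ⟨w, hw, rfl⟩
      exact hWf (hCW hw)
  refine open_nonwandering hm hO ?_ ?_ hE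
  · obtain ⟨z, hz, hzE⟩ := hKn
    refine ⟨z, ?_, (hKf z hz).1, (hKf z hz).2, hzE⟩
    have h1 : (⟨z, (hKf z hz).2⟩ : com m) ∈ interior C := hKC hz
    rw [← hOC] at h1
    exact h1
  · intro V hV hVO hVn hall
    obtain ⟨z, hzV, -, hzc⟩ := hVn
    obtain ⟨w, hwV, hwc, hw⟩ := hall.exists hV hzV hzc
    exact hw hwV (hcomp w (hVO hwV) hwc)

end Pool.Agent.Q205.Liou.Spatial
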