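import Pool.Agent.Q205.Liou.Herm2
import Pool.Agent.Q205.Liou.Hopf

/-! Hopf's dichotomy for the spatial `N`-body problem, and Herman's assertion. -/

set_option autoImplicit false

namespace Pool.Agent.Q205.Liou.Spatial

open Set MeasureTheory Filter Topology

variable {N : ℕ}

/-- the curve `y` leaves every compact set of collision free phase points for good -/
def Leaves (y : ℝ → Phase N) : Prop :=
  ∀ K : Set (Phase N), IsCompact K → (∀ w ∈ K, Free w) → ∃ T : ℝ, ∀ t, T ≤ t → y t ∉ K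

/-- if the solution starting at `z` exists for all positive times, it leaves every compact set of
collision free phase points for good -/
def LeavesForward (m : Fin N → ℝ) (z : Phase N) : Prop :=
  ∀ y : ℝ → Phase N, IsSol m (Set.Ici 0) y → y 0 = z → Leaves y

theorem hopf_spatial {m : Fin N → ℝ} (hm : ∀ i, m i ≠ 0) :
    AlmostEvery m (fun z => RecurrentForward m z ∨ LeavesForward m z) := by
  refine almostEvery_of fun μ hμ => ?_
  obtain ⟨P, hP⟩ := exists_proj m
  have h1 := hopf (f := fld m hm) (isOpen_free m) (fun z hz => contDiffAt_fld hm hz)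
    (fun z hz => trace_fld hm hz) μ
  filter_upwards [h1] with z hz
  by_cases hr : RecurrentForward m (z : Phase N)
  · exact Or.inl hr
  right
  intro y hy hy0 K hK hKf
  obtain ⟨hd, hc⟩ := sol_down hm P hP hy
  have hcl : IsClosed ((com m : Submodule ℝ (Phase N)) : Set (Phase N)) :=
    Submodule.closed_of_finiteDimensional _
  have hK' : IsCompact ((fun z : com m => (z : Phase N)) ⁻¹' K) :=
    hcl.isClosedEmbedding_subtypeVal.isCompact_preimage hK
  rcases hz (fun t => P (y t)) hd (by change P (y 0) = z; rw [hy0, hP]) with h2 | h2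
  · exfalso
    obtain ⟨w, hw, hw0, hwr⟩ := h2
    exact hr ⟨fun t => (w t : Phase N), sol_up hm hw, congrArg Subtype.val hw0,
      fun ε hε T => hwr ε hε T⟩
  · obtain ⟨T, hT⟩ := h2 _ hK' fun v hv => hKf _ hv
    refine ⟨max T 0, fun t ht hyK => hT t ((le_max_left _ _).trans ht) ?_⟩
    change (P (y t) : Phase N) ∈ K
    rw [hc t ((le_max_right T 0).trans ht)]
    exact hyK

/-- dense recurrent points in an open set give open sets of nonwandering points -/
theorem open_nonwandering_of_dense {m : Fin N → ℝ} (hm : ∀ i, m i ≠ 0) {U : Set (Phase N)}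
    (hU : IsOpen U) (hUn : ∃ z ∈ U, Free z ∧ IsCom m z ∧ energy m z < 0)
    (hD : ∀ V : Set (Phase N), IsOpen V → V ⊆ U → (∃ z ∈ V, Free z ∧ IsCom m z) →
      ∃ r ∈ V, RecurrentForward m r) {E : ℝ} (hE : E < 0) : OpenNonwandering m E := by
  set W : Set (Phase N) := ⋃ a : ℝ, ⋃ _ : 0 < a, (Spatial.sc (N := N) a) ⁻¹' U with hW
  have hWo : IsOpen W := isOpen_iUnion fun a => isOpen_iUnion fun _ =>
    hU.preimage (Spatial.sc (N := N) a).continuous
  have hWm : ∀ x ∈ W, ∃ a : ℝ, 0 < a ∧ Spatial.sc a x ∈ U := by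
    intro x hx
    simpa [hW] using hx
  have hdense : ∀ x ∈ W ∩ surface m E, ∀ V : Set (Phase N), IsOpen V → x ∈ V →
      ∃ r ∈ V ∩ surface m E, RecurrentForward m r := by
    rintro x ⟨hxW, hxS⟩ V hV hxV
    obtain ⟨a, ha, hxU⟩ := hWm x hxW
    obtain ⟨r, hrV, hrS, hr⟩ := rec_dense hD hU hE hxS ha hxU hV hxV
    exact ⟨r, ⟨hrV, hrS⟩, hr⟩
  refine ⟨W, hWo, ?_, hdense, ?_⟩
  · obtain ⟨z, hzU, hzf, hzc, hzE⟩ := hUn
    set a : ℝ := Real.sqrt (energy m z / E) with ha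
    have ha0 : 0 < a := Real.sqrt_pos.2 (div_pos_of_neg_of_neg hzE hE)
    have haE : (a ^ 2)⁻¹ * energy m z = E := by
      rw [ha, Real.sq_sqrt (div_pos_of_neg_of_neg hzE hE).le, inv_div,
        div_mul_cancel₀ _ hzE.ne]
    refine ⟨Spatial.sc a z, ?_, surface_sc ha0 haE ⟨hzf, hzc, rfl⟩⟩
    simp only [hW, mem_iUnion]
    refine ⟨a⁻¹, inv_pos.2 ha0, ?_⟩
    change Spatial.sc a⁻¹ (Spatial.sc a z) ∈ U
    rw [sc_inv_sc ha0]
    exact hzU
  · intro ψ φ hφ x hx V hV hxV T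
    obtain ⟨r, ⟨hrV, hrS⟩, hr⟩ := hdense x hx V hV hxV
    obtain ⟨t, ht, htV⟩ := returns hm hφ hrS hr hV hrV T
    exact ⟨t, ht, r, ⟨hrV, hrS⟩, htV⟩

/-- the nonwandering set of `φ` is nowhere dense in the energy surface -/
def NowhereDenseNonwandering (m : Fin N → ℝ) (E : ℝ) (φ : ℝ → Phase N → Phase N) : Prop :=
  ∀ U : Set (Phase N), IsOpen U → (U ∩ surface m E).Nonempty → ∃ W : Set (Phase N), IsOpen W ∧
    W ⊆ U ∧ (W ∩ surface m E).Nonempty ∧ ∀ x ∈ W ∩ surface m E,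
      ¬ IsNonwandering (surface m E) φ x

theorem herman_leaves {m : Fin N → ℝ} (hm : ∀ i, m i ≠ 0) {E : ℝ} (hE : E < 0)
    {ψ : Phase N → ℝ} {φ : ℝ → Phase N → Phase N} (hφ : IsReparametrizedFlow m E ψ φ)
    (hn : NowhereDenseNonwandering m E φ) {U : Set (Phase N)} (hU : IsOpen U)
    (hUn : ∃ z ∈ U, Free z ∧ IsCom m z ∧ energy m z < 0) :
    ∃ V : Set (Phase N), IsOpen V ∧ V ⊆ U ∧ (∃ z ∈ V, Free z ∧ IsCom m z ∧ energy m z < 0) ∧
      AlmostEvery m (fun z => z ∈ V → LeavesForward m z) := by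
  by_contra hcon
  push Not at hcon
  -- the part of negative energy is open
  set U' : Set (Phase N) := U ∩ ({z | Free z} ∩ energy m ⁻¹' Iio 0) with hU'
  have hU'o : IsOpen U' :=
    hU.inter ((continuousOn_energy m).isOpen_inter_preimage isOpen_Free isOpen_Iio)
  have hU'n : ∃ z ∈ U', Free z ∧ IsCom m z ∧ energy m z < 0 := by
    obtain ⟨z, hzU, hzf, hzc, hzE⟩ := hUn
    exact ⟨z, ⟨hzU, hzf, hzE⟩, hzf, hzc, hzE⟩
  have hD : ∀ V : Set (Phase N), IsOpen V → V ⊆ U' → (∃ z ∈ V, Free z ∧ IsCom m z) →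
      ∃ r ∈ V, RecurrentForward m r := by
    rintro V hV hVU ⟨z, hzV, hzf, hzc⟩
    by_contra hno
    push Not at hno
    refine hcon V hV (fun w hw => (hVU hw).1) ⟨z, hzV, hzf, hzc, (hVU hzV).2.2⟩ ?_
    intro d e he
    filter_upwards [hopf_spatial hm d e he] with s hs hsV
    exact hs.resolve_left (hno _ hsV)
  obtain ⟨W, hW, hWn, -, hWw⟩ := open_nonwandering_of_dense hm hU'o hU'n hD hE
  obtain ⟨W', hW', hWW, ⟨x, hx⟩, hno⟩ := hn W hW hWn
  exact hno x hx (hWw ψ φ hφ x ⟨hWW hx.1, hx.2⟩)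

end Pool.Agent.Q205.Liou.Spatial
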