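import Pool.Agent.Q205.Liou.Conf2
import Pool.Agent.Q205.Liou.Hopf

/-! The planar `n`-body problem: almost every bounded solution is recurrent (Hopf's dichotomy and the
Lagrange-Jacobi identity). -/

set_option autoImplicit false

namespace Pool.Agent.Q205.Liou

open Set MeasureTheory Filter Topology Pool.Agent.W821.TB

variable {n : ℕ}

/-- the mutual distances along `y` are bounded for positive times -/
def BddDist (y : ℝ → Ph n) : Prop :=
  ∃ R : ℝ, ∀ t, 0 ≤ t → ∀ a b, ‖(y t).1 a - (y t).1 b‖ ≤ R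

/-- as long as the solution starting at `z` exists in positive time, its mutual distances are at
most `R` -/
def BoundedBy (m : Fin n → ℝ) (R : ℝ) (z : Ph n) : Prop :=
  ∀ T, 0 ≤ T → ∀ y : ℝ → Ph n, IsSol m (Set.Icc 0 T) y → y 0 = z →
    ∀ a b, ‖(y T).1 a - (y T).1 b‖ ≤ R

theorem upot_ge {m : Fin n → ℝ} (hm : ∀ a, 0 < m a) (q : Fin n → ℂ) {a b : Fin n} (hab : a ≠ b) :
    m a * m b / ‖q b - q a‖ / 2 ≤ upot m q := by
  have hpos : ∀ c d, 0 ≤ m c * m d / ‖q d - q c‖ := fun c d =>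
    div_nonneg (mul_pos (hm c) (hm d)).le (norm_nonneg _)
  have h1 : m a * m b / ‖q b - q a‖ ≤ ∑ d ∈ Finset.univ.erase a, m a * m d / ‖q d - q a‖ :=
    Finset.single_le_sum (f := fun d => m a * m d / ‖q d - q a‖) (fun d _ => hpos a d)
      (Finset.mem_erase.2 ⟨hab.symm, Finset.mem_univ b⟩)
  have h2 : ∑ d ∈ Finset.univ.erase a, m a * m d / ‖q d - q a‖ ≤
      ∑ c, ∑ d ∈ Finset.univ.erase c, m c * m d / ‖q d - q c‖ :=
    Finset.single_le_sum (f := fun c => ∑ d ∈ Finset.univ.erase c, m c * m d / ‖q d - q c‖)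
      (fun c _ => Finset.sum_nonneg fun d _ => hpos c d) (Finset.mem_univ a)
  unfold upot
  linarith

theorem not_bounded_of_upot {m : Fin n → ℝ} (hm : ∀ a, 0 < m a) {y : ℝ → Ph n}
    (hy : IsSol m (Set.Ici 0) y) (hb : BddDist y) {T : ℝ} (hT : 0 < T)
    (hU : ∀ t, T ≤ t → 1 - 2 * energy m (y 1) ≤ upot m (y t).1) : False := by
  obtain ⟨R, hR⟩ := hb
  have hd : ∀ t, 0 < t → HasDerivAt y ((y t).2, acc m (y t).1) t := fun t ht =>
    (hy t ht.le).2.hasDerivAt (Ici_mem_nhds ht)
  set J : ℝ → ℝ := fun t => ∑ a, m a * ip ((y t).1 a) ((y t).2 a) with hJ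
  set I : ℝ → ℝ := fun t => ∑ a, m a * ip ((y t).1 a) ((y t).1 a) with hI
  have hId : ∀ t, 0 < t → HasDerivAt I (2 * J t) t := by
    intro t ht
    have h1 : HasDerivAt I (∑ a, m a * (ip ((y t).2 a) ((y t).1 a) + ip ((y t).1 a) ((y t).2 a))) t :=
      HasDerivAt.fun_sum fun a _ =>
        (hasDerivAt_ip (fst_deriv (hd t ht) a) (fst_deriv (hd t ht) a)).const_mul _
    refine h1.congr_deriv ?_
    rw [hJ, Finset.mul_sum]
    refine Finset.sum_congr rfl fun a _ => ?_
    simp only [ip_eq]; ring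
  have hJd : ∀ t, 0 < t → HasDerivAt J (2 * energy m (y 1) + upot m (y t).1) t := by
    intro t ht
    have h1 : HasDerivAt J (∑ a, m a * (ip ((y t).2 a) ((y t).2 a) +
        ip ((y t).1 a) (acc m (y t).1 a))) t :=
      HasDerivAt.fun_sum fun a _ =>
        (hasDerivAt_ip (fst_deriv (hd t ht) a) (snd_deriv (hd t ht) a)).const_mul _
    refine h1.congr_deriv ?_
    have h2 := virial (m := m) (hy t ht.le).1.1
    have h3 : energy m (y t) = (∑ a, m a * ‖(y t).2 a‖ ^ 2) / 2 - upot m (y t).1 := rfl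
    have h4 : ∑ a, m a * (ip ((y t).2 a) ((y t).2 a) + ip ((y t).1 a) (acc m (y t).1 a)) =
        ∑ a, m a * ‖(y t).2 a‖ ^ 2 + ∑ a, m a * ip (acc m (y t).1 a) ((y t).1 a) := by
      rw [← Finset.sum_add_distrib]
      refine Finset.sum_congr rfl fun a _ => ?_
      rw [ip_self, ip_eq, ip_eq]; ring
    rw [h4, h2, ← energy_const_Ioi hy ht, h3]
    ring
  -- `J t - t` and `I t - t ^ 2 + 2 c t` increase
  set c : ℝ := T - J T with hc
  have hJm : ∀ t, T ≤ t → t - c ≤ J t := by
    intro t ht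
    have h1 : MonotoneOn (fun s => J s - s) (Icc T t) := by
      refine monotoneOn_of_deriv_nonneg (convex_Icc _ _) ?_ ?_ ?_
      · intro s hs
        exact ((hJd s (hT.trans_le hs.1)).sub (hasDerivAt_id s)).continuousAt.continuousWithinAt
      · intro s hs
        rw [interior_Icc] at hs
        exact ((hJd s (hT.trans hs.1)).sub (hasDerivAt_id s)).differentiableAt.differentiableWithinAt
      · intro s hs
        rw [interior_Icc] at hs
        have := ((hJd s (hT.trans hs.1)).sub (hasDerivAt_id s)).deriv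
        have h5 := hU s hs.1.le
        have h6 : deriv (fun s => J s - s) s = 2 * energy m (y 1) + upot m (y s).1 - 1 := this
        rw [h6]
        linarith
    have h2 := h1 ⟨le_rfl, ht⟩ ⟨ht, le_rfl⟩ ht
    simp only at h2
    rw [hc]; linarith
  have hIm : ∀ t, T ≤ t → t ^ 2 - 2 * c * t + (I T - T ^ 2 + 2 * c * T) ≤ I t := by
    intro t ht
    have hder : ∀ s, 0 < s → HasDerivAt (fun s => I s - s ^ 2 + 2 * c * s)
        (2 * J s - 2 * s + 2 * c) s := by
      intro s hs
      have := ((hId s hs).sub (hasDerivAt_pow 2 s)).add ((hasDerivAt_id s).const_mul (2 * c))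
      refine this.congr_deriv ?_
      simp
    have h1 : MonotoneOn (fun s => I s - s ^ 2 + 2 * c * s) (Icc T t) := by
      refine monotoneOn_of_deriv_nonneg (convex_Icc _ _) ?_ ?_ ?_
      · intro s hs
        exact (hder s (hT.trans_le hs.1)).continuousAt.continuousWithinAt
      · intro s hs
        rw [interior_Icc] at hs
        exact (hder s (hT.trans hs.1)).differentiableAt.differentiableWithinAt
      · intro s hs
        rw [interior_Icc] at hs
        rw [(hder s (hT.trans hs.1)).deriv]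
        have := hJm s hs.1.le
        linarith
    have h2 := h1 ⟨le_rfl, ht⟩ ⟨ht, le_rfl⟩ ht
    simp only at h2
    linarith
  have hIb : ∀ t, 0 ≤ t → I t ≤ ∑ a, m a * (max R 0) ^ 2 := by
    intro t ht
    refine Finset.sum_le_sum fun a _ => ?_
    rw [ip_self]
    have h1 := pos_bound hm (hy t ht).1.2 (fun a b _ => hR t ht a b) a
    have h2 : ‖(y t).1 a‖ ^ 2 ≤ (max R 0) ^ 2 := pow_le_pow_left₀ (norm_nonneg _) h1 2
    exact mul_le_mul_of_nonneg_left h2 (hm a).le
  set B : ℝ := ∑ a, m a * (max R 0) ^ 2 with hB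
  set k : ℝ := I T - T ^ 2 + 2 * c * T with hk
  set t : ℝ := T + 1 + 2 * |c| + |B| + |k| with ht
  have h1 : T ≤ t := by rw [ht]; linarith [abs_nonneg c, abs_nonneg B, abs_nonneg k]
  have h2 := hIm t h1
  have h3 := hIb t (hT.le.trans h1)
  have h4 : 1 ≤ t := by rw [ht]; linarith [abs_nonneg c, abs_nonneg B, abs_nonneg k]
  have h5 : 1 + |B| + |k| ≤ t - 2 * c := by
    rw [ht]; linarith [le_abs_self c]
  have h6 : t - 2 * c ≤ t * (t - 2 * c) := by
    have : 0 ≤ t - 2 * c := by linarith [abs_nonneg B, abs_nonneg k]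
    nlinarith
  have h7 : t ^ 2 - 2 * c * t = t * (t - 2 * c) := by ring
  rw [h7] at h2
  linarith [le_abs_self B, neg_abs_le k]

/-- **Theorem.** Almost every initial condition whose solution exists for all positive times with
bounded mutual distances is recurrent. -/
theorem recurrent_of_bounded {m : Fin n → ℝ} (hm : ∀ a, 0 < m a) :
    AlmostEvery m (fun z => ∀ y : ℝ → Ph n, IsSol m (Set.Ici 0) y → y 0 = z → BddDist y →
      RecurrentForward m z) := by
  refine almostEvery_of fun μ hμ => ?_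
  obtain ⟨P, hP⟩ := exists_proj m
  have h1 := hopf (f := fld m) (isOpen_free m) (fun z hz => contDiffAt_fld hz)
    (fun z hz => trace_fld hz) μ
  filter_upwards [h1] with z hz y hy hy0 hb
  obtain ⟨hd, hc⟩ := sol_down P hP hy
  rcases hz (fun t => P (y t)) hd (by change P (y 0) = z; rw [hy0, hP]) with h2 | h2
  · obtain ⟨w, hw, hw0, hwr⟩ := h2
    refine ⟨fun t => (w t : Ph n), sol_up hw, congrArg Subtype.val hw0, fun ε hε T => ?_⟩
    obtain ⟨t, ht, -, htd⟩ := hwr ε hε T
    exact ⟨t, ht, htd⟩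
  exfalso
  obtain ⟨δ, hδU, hδ⟩ : ∃ δ : ℝ, (∀ a b, 2 * (1 - 2 * energy m (y 1)) ≤ m a * m b / δ) ∧ 0 < δ := by
    have h3 : ∀ᶠ δ in 𝓝[>] (0 : ℝ), ∀ a b, 2 * (1 - 2 * energy m (y 1)) ≤ m a * m b / δ := by
      refine eventually_all.2 fun a => eventually_all.2 fun b => ?_
      have := (tendsto_inv_nhdsGT_zero (𝕜 := ℝ)).const_mul_atTop (mul_pos (hm a) (hm b))
      simpa [div_eq_mul_inv] using this.eventually_ge_atTop (2 * (1 - 2 * energy m (y 1)))
    exact (h3.and self_mem_nhdsWithin).exists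
  obtain ⟨R, hR⟩ := hb
  set V : Fin n → ℝ := fun a =>
    Real.sqrt (2 * (energy m (y 1) + (∑ a, ∑ b, m a * m b / δ) / 2) / m a) with hV
  set K : Set (Ph n) := {w | ∀ a b, a ≠ b → δ ≤ ‖w.1 a - w.1 b‖} ∩
    ((Set.univ.pi fun _ => Metric.closedBall 0 (max R 0)) ×ˢ
      (Set.univ.pi fun a => Metric.closedBall 0 (V a))) with hK
  have hcl : IsClosed {w : Ph n | ∀ a b, a ≠ b → δ ≤ ‖w.1 a - w.1 b‖} := by
    simp only [Set.ofPred_forall]
    refine isClosed_iInter fun a => isClosed_iInter fun b => isClosed_iInter fun _ => ?_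
    exact isClosed_le continuous_const (by fun_prop)
  have hKc : IsCompact K :=
    ((isCompact_univ_pi fun _ => isCompact_closedBall _ _).prod
      (isCompact_univ_pi fun _ => isCompact_closedBall _ _)).inter_left hcl
  have hcom : IsClosed ((com m : Submodule ℝ (Ph n)) : Set (Ph n)) :=
    Submodule.closed_of_finiteDimensional _
  obtain ⟨T, hT⟩ := h2 ((fun z : com m => (z : Ph n)) ⁻¹' K)
    (hcom.isClosedEmbedding_subtypeVal.isCompact_preimage hKc) (by
      intro w hw a b hab h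
      have := hw.1 a b hab
      rw [h, sub_self, norm_zero] at this
      exact absurd this (not_le.2 hδ))
  refine not_bounded_of_upot hm hy ⟨R, hR⟩ (T := max T 1) (lt_max_of_lt_right one_pos)
    fun t ht => ?_
  have ht0 : 0 < t := one_pos.trans_le ((le_max_right _ _).trans ht)
  have hnK : y t ∉ K := by
    intro h
    refine hT t ((le_max_left _ _).trans ht) ?_
    change (P (y t) : Ph n) ∈ K
    rw [hc t ht0.le]
    exact h
  by_contra hlt
  push Not at hlt
  refine hnK ?_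
  have hdist : ∀ a b, a ≠ b → δ ≤ ‖(y t).1 a - (y t).1 b‖ := by
    intro a b hab
    by_contra hd2
    push Not at hd2
    have h4 := upot_ge hm (y t).1 hab
    have h5 : 0 < ‖(y t).1 b - (y t).1 a‖ :=
      norm_pos_iff.2 (sub_ne_zero.2 ((hy t ht0.le).1.1 b a hab.symm))
    have h6 : m a * m b / δ ≤ m a * m b / ‖(y t).1 b - (y t).1 a‖ := by
      refine div_le_div_of_nonneg_left (mul_pos (hm a) (hm b)).le h5 ?_
      rw [norm_sub_rev]
      exact hd2.le
    have h7 := hδU a b
    linarith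
  refine ⟨hdist, ?_, ?_⟩
  · intro a _
    rw [mem_closedBall_zero_iff]
    exact pos_bound hm (hy t ht0.le).1.2 (fun a b _ => hR t ht0.le a b) a
  · intro a _
    rw [mem_closedBall_zero_iff]
    have := vel_bound hm hδ hdist a (w := y t)
    rw [energy_const_Ioi hy ht0] at this
    exact this

/-- nearby solutions of a vector field -/
theorem exists_near {E : Type} [NormedAddCommGroup E] [NormedSpace ℝ E] [FiniteDimensional ℝ E]
    {f : E → E} {Ω : Set E} (hΩ : IsOpen Ω) (hf : ∀ z ∈ Ω, ContDiffAt ℝ 1 f z) {T : ℝ} (hT : 0 ≤ T)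
    {y : ℝ → E} (hy : Sol f Ω (Icc 0 T) y) {O : Set E} (hO : IsOpen O) (hyO : y T ∈ O) :
    ∀ᶠ w in 𝓝 (y 0), ∃ y' : ℝ → E, Sol f Ω (Icc 0 T) y' ∧ y' 0 = w ∧ y' T ∈ O := by
  have c1 : ContinuousOn y (Icc 0 T) := fun t ht => (hy t ht).2.continuousWithinAt
  obtain ⟨X, L, g, W, hX, hL, hg, hW, hNW, hWΩ, hXf⟩ := exists_cut hΩ hf
    (isCompact_Icc.image_of_continuousOn c1) (by
      rintro _ ⟨t, ht, rfl⟩
      exact (hy t ht).1)
  have hcont := continuous_flow hX hL hg
  have hyg : ∀ t ∈ Icc 0 T, y t = g t (y 0) := by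
    intro t ht
    have := unique_in hL hg hXf hy (fun s hs => hNW ⟨s, hs, rfl⟩) t ht
    rwa [sub_zero] at this
  have h1 : ∀ᶠ w in 𝓝 (y 0), ∀ s ∈ Icc 0 T, g s w ∈ W := by
    refine isCompact_Icc.eventually_forall_of_forall_eventually fun s hs => ?_
    have h2 : Continuous (fun p : E × ℝ => g p.2 p.1) := hcont.comp continuous_swap
    refine h2.continuousAt.eventually_mem (hW.mem_nhds ?_)
    change g s (y 0) ∈ W
    rw [← hyg s hs]
    exact hNW ⟨s, hs, rfl⟩
  have h2 : ∀ᶠ w in 𝓝 (y 0), g T w ∈ O := by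
    refine (diff_flow hX hL hg T).continuous.continuousAt.eventually_mem (hO.mem_nhds ?_)
    rw [← hyg T ⟨hT, le_rfl⟩]
    exact hyO
  filter_upwards [h1, h2] with w hw1 hw2
  refine ⟨fun s => g s w, fun s hs => ⟨hWΩ (hw1 s hs), ?_⟩, hg.zero w, hw2⟩
  rw [← hXf _ (hw1 s hs)]
  exact (hg.deriv w s).hasDerivWithinAt

theorem isClosed_boundedBy (m : Fin n → ℝ) (R : ℝ) :
    IsClosed {z : com m | BoundedBy m R (z : Ph n)} := by
  rw [← isOpen_compl_iff, isOpen_iff_mem_nhds]
  intro z hz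
  obtain ⟨P, hP⟩ := exists_proj m
  have hz' : ¬ BoundedBy m R (z : Ph n) := hz
  unfold BoundedBy at hz'
  push Not at hz'
  obtain ⟨T, hT, y, hy, hy0, a, b, hab⟩ := hz'
  obtain ⟨hd, hc⟩ := sol_down P hP hy
  have hO : IsOpen {w : com m | R < ‖(w : Ph n).1 a - (w : Ph n).1 b‖} :=
    isOpen_lt continuous_const (by fun_prop)
  have h1 := exists_near (isOpen_free m) (fun z hz => contDiffAt_fld hz) hT hd hO (by
    change R < ‖(P (y T) : Ph n).1 a - (P (y T) : Ph n).1 b‖
    rw [hc T ⟨hT, le_rfl⟩]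
    exact hab)
  have h2 : P (y 0) = z := by rw [hy0, hP]
  rw [h2] at h1
  filter_upwards [h1] with w hw hwB
  obtain ⟨y', hy', hy'0, hy'T⟩ := hw
  have h3 := hwB T hT (fun t => (y' t : Ph n)) (sol_up hy') (congrArg Subtype.val hy'0) a b
  exact absurd h3 (not_le.2 hy'T)

/-- **Theorem.** Generic unboundedness, or an open set with one bound. -/
theorem bounded_or_generic {m : Fin n → ℝ} (hm : ∀ a, 0 < m a) {U : Set (Ph n)} (hU : IsOpen U) :
    Generic m (fun z => z ∈ U → z ∈ phaseSpace m → ∀ R, ¬ BoundedBy m R z) ∨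
    ∃ (V : Set (Ph n)) (R : ℝ), IsOpen V ∧ V ⊆ U ∧ (∃ z ∈ V, z ∈ phaseSpace m) ∧
      (∀ z ∈ V, BoundedBy m R z) ∧
      AlmostEvery m (fun z => z ∈ V → ∀ y : ℝ → Ph n, IsSol m (Set.Ici 0) y → y 0 = z →
        RecurrentForward m z) := by
  set B : ℕ → Set (com m) := fun k => {z | BoundedBy m k (z : Ph n)} with hB
  have hBc : ∀ k, IsClosed (B k) := fun k => isClosed_boundedBy m k
  set U' : Set (com m) := (fun z : com m => (z : Ph n)) ⁻¹' U ∩ free m with hU'
  have hU'o : IsOpen U' := (hU.preimage continuous_subtype_val).inter (isOpen_free m)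
  by_cases hint : ∃ k, (interior (B k) ∩ U').Nonempty
  · right
    obtain ⟨k, v, hv, hvU, hvf⟩ := hint
    obtain ⟨O, hO, hOV⟩ := isOpen_induced_iff.1 (isOpen_interior (s := B k))
    have hmem : ∀ z : com m, (z : Ph n) ∈ O ↔ z ∈ interior (B k) := by
      intro z
      rw [← hOV]
      rfl
    have hbd : ∀ z ∈ O ∩ U, BoundedBy m k z := by
      intro z hz
      by_cases hzc : IsCom m z
      · exact show (⟨z, hzc⟩ : com m) ∈ B k from interior_subset ((hmem ⟨z, hzc⟩).1 hz.1)
      · intro T hT y hy hy0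
        exact absurd (hy0 ▸ (hy 0 ⟨le_rfl, hT⟩).1.2) hzc
    refine ⟨O ∩ U, k, hO.inter hU, inter_subset_right, ⟨v, ⟨(hmem v).2 hv, hvU⟩, mem_free.1 hvf⟩,
      hbd, ?_⟩
    intro d e he
    filter_upwards [recurrent_of_bounded hm d e he] with s hs hsV y hy hy0
    exact hs y hy hy0 ⟨k, fun t ht => hbd _ hsV t ht y (fun r hr =>
      ⟨(hy r hr.1).1, (hy r hr.1).2.mono fun x hx => hx.1⟩) hy0⟩
  · left
    push Not at hint
    have hnd : ∀ k, IsNowhereDense (B k ∩ U') := by
      intro k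
      rw [IsNowhereDense, eq_empty_iff_forall_notMem]
      intro z hz
      have h1 : interior (closure (B k ∩ U')) ⊆ B k :=
        interior_subset.trans (closure_minimal inter_subset_left (hBc k))
      obtain ⟨w, hw, hwB, hwU⟩ := mem_closure_iff.1 (interior_subset hz) _ isOpen_interior hz
      have h2 : w ∈ interior (B k) :=
        mem_interior.2 ⟨_, h1, isOpen_interior, hw⟩
      have h3 := hint k
      exact Set.eq_empty_iff_forall_notMem.1 h3 w ⟨h2, hwU⟩
    have h1 : ∀ k, ∀ᶠ z in residual (com m), z ∉ B k ∩ U' := fun k => (hnd k).isMeagre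
    refine generic_of ?_
    filter_upwards [eventually_countable_forall.2 h1] with z hz hzU hzp R hR
    obtain ⟨k, hk⟩ := exists_nat_ge R
    exact hz k ⟨fun T hT y hy hy0 a b => (hR T hT y hy hy0 a b).trans hk, hzU, mem_free.2 hzp⟩

end Pool.Agent.Q205.Liou
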