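import Pool.Agent.Q205.Liou.Stab
import Pool.Agent.W821.TB.Final

/-! The planar `n`-body problem in the centre of mass frame as a divergence free vector field on a
real vector space. -/

set_option autoImplicit false

namespace Pool.Agent.Q205.Liou

open Set MeasureTheory Filter Topology Pool.Agent.W821.TB

variable {n : ℕ}

/-- the centre of mass is at rest in the origin -/
def IsCom (m : Fin n → ℝ) (z : Ph n) : Prop :=
  ∑ a, (m a : ℂ) * z.1 a = 0 ∧ ∑ a, (m a : ℂ) * z.2 a = 0

theorem IsCom.add {m : Fin n → ℝ} {z w : Ph n} (hz : IsCom m z) (hw : IsCom m w) :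
    IsCom m (z + w) := by
  obtain ⟨h1, h2⟩ := hz
  obtain ⟨h3, h4⟩ := hw
  refine ⟨?_, ?_⟩
  · simp only [Prod.fst_add, Pi.add_apply, mul_add, Finset.sum_add_distrib, h1, h3, add_zero]
  · simp only [Prod.snd_add, Pi.add_apply, mul_add, Finset.sum_add_distrib, h2, h4, add_zero]

theorem IsCom.zero (m : Fin n → ℝ) : IsCom m (0 : Ph n) := by simp [IsCom]

theorem IsCom.smul {m : Fin n → ℝ} (c : ℝ) {z : Ph n} (hz : IsCom m z) : IsCom m (c • z) := by
  obtain ⟨h1, h2⟩ := hz
  refine ⟨?_, ?_⟩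
  · simp only [Prod.smul_fst, Pi.smul_apply, Complex.real_smul, mul_left_comm,
      ← Finset.mul_sum, h1, mul_zero]
  · simp only [Prod.smul_snd, Pi.smul_apply, Complex.real_smul, mul_left_comm,
      ← Finset.mul_sum, h2, mul_zero]

/-- the phase points with centre of mass at rest in the origin -/
def com (m : Fin n → ℝ) : Submodule ℝ (Ph n) where
  carrier := {z | IsCom m z}
  add_mem' := IsCom.add
  zero_mem' := IsCom.zero m
  smul_mem' := fun c _ hz => IsCom.smul c hz

theorem mem_com {m : Fin n → ℝ} {z : Ph n} : z ∈ com m ↔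
    ∑ a, (m a : ℂ) * z.1 a = 0 ∧ ∑ a, (m a : ℂ) * z.2 a = 0 := Iff.rfl

theorem phase_com {m : Fin n → ℝ} {z : Ph n} (hz : z ∈ phaseSpace m) : z ∈ com m := hz.2

theorem sum_acc (m : Fin n → ℝ) (q : Fin n → ℂ) : ∑ a, (m a : ℂ) * acc m q a = 0 := by
  classical
  set F : Fin n → Fin n → ℂ := fun a b =>
    (m a : ℂ) * (((m b / ‖q b - q a‖ ^ 3 : ℝ) : ℂ) * (q b - q a)) with hF
  have h1 : ∀ a, (m a : ℂ) * acc m q a = ∑ b, F a b := by
    intro a
    unfold acc
    rw [Finset.mul_sum, ← Finset.sum_erase_add _ _ (Finset.mem_univ a)]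
    simp [hF]
  have h2 : ∀ a b, F a b = -F b a := by
    intro a b
    simp only [hF]
    rw [norm_sub_rev (q a) (q b)]
    push_cast
    ring
  have h3 : ∑ a, ∑ b, F a b = -∑ a, ∑ b, F a b := by
    conv_lhs => rw [Finset.sum_comm]
    rw [← Finset.sum_neg_distrib]
    refine Finset.sum_congr rfl fun a _ => ?_
    rw [← Finset.sum_neg_distrib]
    exact Finset.sum_congr rfl fun b _ => h2 b a
  simp only [h1]
  exact self_eq_neg.1 h3

/-- the Newtonian vector field on the centre of mass space -/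
noncomputable def fld (m : Fin n → ℝ) (z : com m) : com m :=
  ⟨vf m z, z.2.2, sum_acc m _⟩

/-- no collisions -/
def free (m : Fin n → ℝ) : Set (com m) := {z | ∀ a b, a ≠ b → (z : Ph n).1 a ≠ (z : Ph n).1 b}

theorem mem_free {m : Fin n → ℝ} {z : com m} : z ∈ free m ↔ (z : Ph n) ∈ phaseSpace m :=
  ⟨fun h => ⟨h, z.2.1, z.2.2⟩, fun h => h.1⟩

theorem isOpen_free (m : Fin n → ℝ) : IsOpen (free m) := by
  have : free m = ⋂ a, ⋂ b, ⋂ _ : a ≠ b, {z : com m | (z : Ph n).1 a ≠ (z : Ph n).1 b} := by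
    ext z; simp [free]
  rw [this]
  refine isOpen_iInter_of_finite fun a => isOpen_iInter_of_finite fun b =>
    isOpen_iInter_of_finite fun _ => ?_
  have h1 : ∀ a, Continuous (fun z : com m => (z : Ph n).1 a) := fun a => by fun_prop
  exact isOpen_ne_fun (h1 a) (h1 b)

theorem exists_proj (m : Fin n → ℝ) : ∃ P : Ph n →L[ℝ] com m, ∀ z : com m, P (z : Ph n) = z :=
  Submodule.ClosedComplemented.of_finiteDimensional_quotient (p := com m)
    (Submodule.closed_of_finiteDimensional _)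

theorem contDiffAt_fld {m : Fin n → ℝ} {z : com m} (hz : z ∈ free m) :
    ContDiffAt ℝ 1 (fld m) z := by
  obtain ⟨P, hP⟩ := exists_proj m
  have h1 : fld m = fun z : com m => P (vf m (z : Ph n)) := by
    funext z
    exact (hP (fld m z)).symm
  rw [h1]
  have h2 : ContDiffAt ℝ 1 (vf m) (z : Ph n) := contDiffAt_vf hz
  have h3 : ContDiffAt ℝ 1 (fun z : com m => (z : Ph n)) z :=
    (com m).subtypeL.contDiff.contDiffAt
  exact P.contDiff.contDiffAt.comp z (h2.comp z h3)

/-- time reversal -/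
def revL (m : Fin n → ℝ) : com m →ₗ[ℝ] com m where
  toFun z := ⟨((z : Ph n).1, -(z : Ph n).2), z.2.1, by
    have := z.2.2
    simp only [Pi.neg_apply, mul_neg, Finset.sum_neg_distrib, neg_eq_zero]
    exact this⟩
  map_add' z w := by
    ext <;> simp <;> ring
  map_smul' c z := by
    ext <;> simp

theorem revL_revL (m : Fin n → ℝ) (z : com m) : revL m (revL m z) = z := by
  ext <;> simp [revL]

theorem fld_rev (m : Fin n → ℝ) (z : com m) : fld m (revL m z) = -revL m (fld m z) := by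
  ext <;> simp [revL, fld, vf]

theorem trace_fld {m : Fin n → ℝ} {z : com m} (hz : z ∈ free m) :
    LinearMap.trace ℝ (com m) (fderiv ℝ (fld m) z : com m →ₗ[ℝ] com m) = 0 := by
  have hR : revL m z ∈ free m := fun a b hab => hz a b hab
  set D := fderiv ℝ (fld m) z with hD
  set RL : com m →L[ℝ] com m := LinearMap.toContinuousLinearMap (revL m) with hRL
  have hRLa : ∀ w, RL w = revL m w := fun w => rfl
  -- translation
  have h1 : fderiv ℝ (fld m) (revL m z) = D := by
    set u : com m := revL m z - z with hu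
    set w : com m := ⟨(-2 • (z : Ph n).2, 0), by
      have h3 := z.2.2
      refine ⟨?_, by simp⟩
      simp only [Pi.smul_apply, mul_smul_comm, ← Finset.smul_sum]
      rw [h3, smul_zero]⟩ with hw
    have h2 : ∀ z' : com m, fld m (z' + u) = fld m z' + w := by
      intro z'
      ext a
      · simp [fld, vf, hu, hw, revL]; ring
      · simp [fld, vf, hu, hw, revL]
    have h3 : fderiv ℝ (fun z' => fld m (z' + u)) z = fderiv ℝ (fld m) (z + u) :=
      fderiv_comp_add_right u
    have h4 : (fun z' => fld m (z' + u)) = fun z' => fld m z' + w := funext h2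
    rw [h4, fderiv_add_const] at h3
    rw [hD, h3, hu, add_sub_cancel]
  have h5 : ∀ v, D (revL m v) = -revL m (D v) := by
    intro v
    have ha : HasFDerivAt (fun z' => fld m (RL z')) (D.comp RL) z := by
      have hb : HasFDerivAt (fld m) D (RL z) := by
        rw [← h1]
        exact ((contDiffAt_fld hR).differentiableAt one_ne_zero).hasFDerivAt
      exact hb.comp z RL.hasFDerivAt
    have hc : HasFDerivAt (fun z' => -RL (fld m z')) (-(RL.comp D)) z := by
      have hd : HasFDerivAt (fld m) D z :=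
        ((contDiffAt_fld hz).differentiableAt one_ne_zero).hasFDerivAt
      exact (RL.hasFDerivAt.comp z hd).neg
    have he : (fun z' => fld m (RL z')) = fun z' => -RL (fld m z') :=
      funext fun z' => fld_rev m z'
    rw [he] at ha
    have hf := ha.unique hc
    exact congrArg (fun L : com m →L[ℝ] com m => L v) hf
  set Dl : com m →ₗ[ℝ] com m := (D : com m →ₗ[ℝ] com m) with hDl
  have h6 : Dl = (Dl * revL m) * revL m := by
    ext1 v
    simp only [Module.End.mul_apply, revL_revL]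
  have h7 : (Dl * revL m) * revL m = (-(revL m * (Dl * revL m)) : com m →ₗ[ℝ] com m) := by
    ext1 v
    exact h5 (revL m v)
  have h8 : LinearMap.trace ℝ (com m) Dl = -LinearMap.trace ℝ (com m) Dl := by
    have e1 : LinearMap.trace ℝ (com m) ((Dl * revL m) * revL m) =
        -LinearMap.trace ℝ (com m) (revL m * (Dl * revL m)) := by
      rw [h7]
      exact map_neg (LinearMap.trace ℝ (com m)) _
    rw [LinearMap.trace_mul_comm ℝ (revL m) (Dl * revL m), ← h6] at e1
    exact e1
  exact self_eq_neg.1 h8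

/-- a solution of the `n`-body problem as a solution in the centre of mass space -/
theorem sol_down {m : Fin n → ℝ} (P : Ph n →L[ℝ] com m) (hP : ∀ z : com m, P (z : Ph n) = z)
    {J : Set ℝ} {y : ℝ → Ph n} (hy : IsSol m J y) :
    Sol (fld m) (free m) J (fun t => P (y t)) ∧ ∀ t ∈ J, (P (y t) : Ph n) = y t := by
  have h1 : ∀ t ∈ J, (P (y t) : Ph n) = y t := by
    intro t ht
    have := hP ⟨y t, (hy t ht).1.2⟩
    exact congrArg Subtype.val this
  refine ⟨fun t ht => ⟨?_, ?_⟩, h1⟩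
  · rw [mem_free, h1 t ht]
    exact (hy t ht).1
  · have h2 := P.hasFDerivAt.comp_hasDerivWithinAt t (hy t ht).2
    have h3 : P ((y t).2, acc m (y t).1) = fld m (P (y t)) := by
      rw [← hP (fld m (P (y t)))]
      congr 1
      simp only [fld, vf]
      rw [h1 t ht]
    rw [h3] at h2
    exact h2

theorem sol_up {m : Fin n → ℝ} {J : Set ℝ} {y : ℝ → com m} (hy : Sol (fld m) (free m) J y) :
    IsSol m J (fun t => (y t : Ph n)) := by
  intro t ht
  refine ⟨mem_free.1 (hy t ht).1, ?_⟩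
  exact (com m).subtypeL.hasFDerivAt.comp_hasDerivWithinAt t (hy t ht).2

/-- Lyapunov stability in the centre of mass frame: every solution on an interval `[0, τ]` that
starts in `U₂` stays in `U₁`. -/
def Stable (m : Fin n → ℝ) (K : Set (Ph n)) : Prop :=
  ∀ U₁ : Set (Ph n), IsOpen U₁ → K ⊆ U₁ → ∃ U₂ : Set (Ph n), IsOpen U₂ ∧ K ⊆ U₂ ∧
    ∀ τ : ℝ, 0 ≤ τ → ∀ y : ℝ → Ph n, IsSol m (Set.Icc 0 τ) y → y 0 ∈ U₂ →
      ∀ t ∈ Set.Icc 0 τ, y t ∈ U₁

theorem Stable.down {m : Fin n → ℝ} {K : Set (Ph n)} (hK : K ⊆ phaseSpace m) (h : Stable m K) :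
    Stab (fld m) (free m) ((fun z : com m => (z : Ph n)) ⁻¹' K) := by
  intro U₁ hU₁ hKU
  obtain ⟨V₁, hV₁, rfl⟩ := isOpen_induced_iff.1 hU₁
  obtain ⟨V₂, hV₂, hKV₂, hs⟩ := h V₁ hV₁ (fun z hz => hKU (a := ⟨z, (hK hz).2⟩) hz)
  refine ⟨(fun z : com m => (z : Ph n)) ⁻¹' V₂, hV₂.preimage continuous_subtype_val,
    fun z hz => hKV₂ hz, ?_⟩
  intro τ hτ y hy hy0 t ht
  exact hs τ hτ _ (sol_up hy) hy0 t ht

theorem Stable.lyapunov {m : Fin n → ℝ} {K : Set (Ph n)} (h : Stable m K) :
    LyapunovStable m K := by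
  intro U₁ hU₁ hKU
  obtain ⟨U₂, hU₂, hKU₂, hs⟩ := h U₁ hU₁ hKU
  refine ⟨U₂, hU₂, hKU₂, fun y hy hy0 t ht => ?_⟩
  refine hs t ht y (fun s hs => ?_) hy0 t ⟨ht, le_rfl⟩
  have := hy s hs.1
  exact ⟨this.1, this.2.mono fun r hr => hr.1⟩

end Pool.Agent.Q205.Liou
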