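import Pool.Agent.Q205.Liou.Cut

/-! Lyapunov stable compact sets of divergence free vector fields: invariant compact
neighbourhoods, recurrence. -/

set_option autoImplicit false

namespace Pool.Agent.Q205.Liou

open Set MeasureTheory Filter Topology Pool.Agent.GR.Flow

variable {E : Type} [NormedAddCommGroup E] [NormedSpace ℝ E]

theorem stab_flow {f : E → E} {Ω W K U M : Set E} {X : E → E} {g : ℝ → E → E}
    (hg : IsFlowOf X g) (hWΩ : W ⊆ Ω) (hXf : ∀ z ∈ W, X z = f z) (hst : Stab f Ω K)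
    (hU : IsOpen U) (hKU : K ⊆ U) (hUM : U ⊆ M) (hM : IsClosed M) (hMW : M ⊆ W) :
    ∃ V : Set E, IsOpen V ∧ K ⊆ V ∧ V ⊆ U ∧ ∀ p ∈ V, ∀ t, 0 ≤ t → g t p ∈ U := by
  obtain ⟨U₂, hU₂, hKU₂, hs⟩ := hst U hU hKU
  refine ⟨U₂ ∩ U, hU₂.inter hU, subset_inter hKU₂ hKU, inter_subset_right, ?_⟩
  rintro p ⟨hp2, hpU⟩
  by_contra hcon
  push Not at hcon
  obtain ⟨t1, ht1, ht1U⟩ := hcon
  have hc : Continuous (fun t => g t p) := hg.continuous p
  set S : Set ℝ := Ici 0 ∩ (fun t => g t p) ⁻¹' Uᶜ with hS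
  have hSc : IsClosed S := isClosed_Ici.inter (hU.isClosed_compl.preimage hc)
  have hSn : S.Nonempty := ⟨t1, ht1, ht1U⟩
  have hSb : BddBelow S := ⟨0, fun t ht => ht.1⟩
  have hT := hSc.csInf_mem hSn hSb
  set T := sInf S with hTd
  have hlt : ∀ t, 0 ≤ t → t < T → g t p ∈ U := by
    intro t ht0 htT
    by_contra h
    exact absurd (csInf_le hSb (show t ∈ S from ⟨ht0, h⟩)) (not_le.2 htT)
  have hT0 : 0 < T := by
    rcases eq_or_lt_of_le (show (0:ℝ) ≤ T from hT.1) with h | h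
    · exfalso
      apply hT.2
      change g T p ∈ U
      rw [← h, hg.zero]
      exact hpU
    · exact h
  have hTM : g T p ∈ M := by
    refine hM.mem_of_tendsto (hc.continuousAt.mono_left (nhdsWithin_le_nhds (s := Iio T))) ?_
    filter_upwards [Ioo_mem_nhdsLT hT0] with t ht
    exact hUM (hlt t ht.1.le ht.2)
  have hsol : Sol f Ω (Icc 0 T) (fun t => g t p) := by
    intro t ht
    have h1 : g t p ∈ W := by
      rcases eq_or_lt_of_le ht.2 with h | h
      · rw [h]; exact hMW hTM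
      · exact hMW (hUM (hlt t ht.1 h))
    refine ⟨hWΩ h1, ?_⟩
    rw [← hXf _ h1]
    exact (hg.deriv p t).hasDerivWithinAt
  have h3 := hs T hT0.le _ hsol (by simpa [hg.zero] using hp2) T ⟨hT0.le, le_rfl⟩
  exact hT.2 h3

variable [FiniteDimensional ℝ E]

theorem trace_cut {f : E → E} {Ω W : Set E} {X : C(E, E)} (hW : IsOpen W) (hWΩ : W ⊆ Ω)
    (hXf : ∀ z ∈ W, X z = f z) (htr : ∀ z ∈ Ω, LinearMap.trace ℝ E (fderiv ℝ f z : E →ₗ[ℝ] E) = 0)
    {z : E} (hz : z ∈ W) : LinearMap.trace ℝ E (fderiv ℝ X z : E →ₗ[ℝ] E) = 0 := by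
  have h1 : (X : E → E) =ᶠ[𝓝 z] f := by
    filter_upwards [hW.mem_nhds hz] with w hw using hXf w hw
  rw [h1.fderiv_eq]
  exact htr z (hWΩ hz)

theorem exists_trap [MeasurableSpace E] [BorelSpace E] {f : E → E} {Ω W K : Set E}
    {X : C(E, E)} {L : NNReal} {g : ℝ → E → E} (hX : ContDiff ℝ 1 X) (hL : LipschitzWith L X)
    (hg : IsFlowOf X g) (hW : IsOpen W) (hWΩ : W ⊆ Ω) (hXf : ∀ z ∈ W, X z = f z)
    (htr : ∀ z ∈ Ω, LinearMap.trace ℝ E (fderiv ℝ f z : E →ₗ[ℝ] E) = 0) (hK : IsCompact K)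
    (hKW : K ⊆ W) (hst : Stab f Ω K) {U : Set E} (hU : IsOpen U) (hKU : K ⊆ U) :
    ∃ C : Set E, IsCompact C ∧ K ⊆ interior C ∧ C ⊆ U ∧ C ⊆ W ∧ ∀ t, ∀ z ∈ C, g t z ∈ C := by
  haveI : ProperSpace E := FiniteDimensional.proper ℝ E
  obtain ⟨M, hMc, hKM, hMU⟩ := exists_compact_between hK (hU.inter hW) (subset_inter hKU hKW)
  obtain ⟨V, hV, hKV, hVU, hVt⟩ := stab_flow hg hWΩ hXf hst isOpen_interior hKM interior_subset
    hMc.isClosed (fun z hz => (hMU hz).2)
  have hgc : ∀ t, Continuous (g t) := fun t => (diff_flow hX hL hg t).continuous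
  set A : Set E := {x | ∃ t, 0 ≤ t ∧ g (-t) x ∈ V} with hA
  have hAo : IsOpen A := by
    have : A = ⋃ t : ℝ, ⋃ _ : 0 ≤ t, g (-t) ⁻¹' V := by
      ext x; simp [hA]
    rw [this]
    exact isOpen_iUnion fun t => isOpen_iUnion fun _ => hV.preimage (hgc _)
  have hVA : V ⊆ A := fun x hx => ⟨0, le_rfl, by simpa [hg.zero] using hx⟩
  have hAM : A ⊆ interior M := by
    rintro x ⟨t, ht, hx⟩
    have := hVt _ hx t ht
    rwa [inv_flow hL hg] at this
  have hAfwd : ∀ s, 0 ≤ s → g s '' A ⊆ A := by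
    rintro s hs _ ⟨x, ⟨t, ht, hx⟩, rfl⟩
    refine ⟨t + s, add_nonneg ht hs, ?_⟩
    rw [← hg.add hL]
    have : -(t + s) + s = -t := by ring
    rw [this]
    exact hx
  set μ : Measure E := Measure.addHaar with hμ
  have hAfin : μ A ≠ ⊤ :=
    ((measure_mono (hAM.trans interior_subset)).trans_lt hMc.measure_lt_top).ne
  have himg : ∀ s, 0 ≤ s → μ (g s '' A) = μ A := by
    intro s hs
    refine measure_image hX hL hg μ hAo.measurableSet fun p hp r hr => ?_
    rw [uIcc_of_le hs] at hr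
    exact trace_cut hW hWΩ hXf htr (hMU (interior_subset (hAM (hAfwd r hr.1 ⟨p, hp, rfl⟩)))).2
  have hopen : ∀ s, IsOpen (g s '' A) := fun s => by
    rw [image_flow hL hg]
    exact hAo.preimage (hgc _)
  have hcl : ∀ s, 0 ≤ s → A ⊆ closure (g s '' A) := by
    intro s hs x hx
    by_contra hx2
    have h1 : IsOpen (A ∩ (closure (g s '' A))ᶜ) := hAo.inter isClosed_closure.isOpen_compl
    have h2 := h1.measure_pos μ ⟨x, hx, hx2⟩
    have h3 : μ (A \ g s '' A) = 0 := by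
      rw [measure_diff (hAfwd s hs) (hopen s).measurableSet.nullMeasurableSet
        (by rw [himg s hs]; exact hAfin), himg s hs, tsub_self]
    have h4 : μ (A ∩ (closure (g s '' A))ᶜ) ≤ μ (A \ g s '' A) :=
      measure_mono fun z hz => ⟨hz.1, fun h => hz.2 (subset_closure h)⟩
    rw [h3] at h4
    exact absurd h4 (not_le.2 h2)
  have hback : ∀ s, 0 ≤ s → ∀ x ∈ A, g (-s) x ∈ closure A := by
    intro s hs x hx
    have h1 : g (-s) x ∈ closure (g (-s) '' (g s '' A)) :=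
      image_closure_subset_closure_image (hgc _) ⟨x, hcl s hs hx, rfl⟩
    have h2 : g (-s) '' (g s '' A) = A := by
      rw [image_image]
      simp only [inv_flow' hL hg, image_id']
    rwa [h2] at h1
  have hall : ∀ t, ∀ x ∈ A, g t x ∈ closure A := by
    intro t x hx
    rcases le_total 0 t with h | h
    · exact subset_closure (hAfwd t h ⟨x, hx, rfl⟩)
    · have := hback (-t) (by linarith) x hx
      rwa [neg_neg] at this
  have hclM : closure A ⊆ M :=
    closure_minimal (hAM.trans interior_subset) hMc.isClosed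
  refine ⟨closure A, hMc.of_isClosed_subset isClosed_closure hclM,
    (hKV.trans hVA).trans (hAo.subset_interior_iff.2 subset_closure),
    fun z hz => (hMU (hclM hz)).1, fun z hz => (hMU (hclM hz)).2, fun t z hz => ?_⟩
  have h1 : g t z ∈ closure (g t '' A) := image_closure_subset_closure_image (hgc t) ⟨z, hz, rfl⟩
  have h2 : closure (g t '' A) ⊆ closure A := by
    refine closure_minimal ?_ isClosed_closure
    rintro _ ⟨x, hx, rfl⟩
    exact hall t x hx
  exact h2 h1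

/-- recurrence in both time directions -/
def Rec (g : ℝ → E → E) (z : E) : Prop :=
  ∀ ε : ℝ, 0 < ε → ∀ n : ℕ, (∃ m : ℕ, n ≤ m ∧ dist (g m z) z < ε) ∧
    ∃ m : ℕ, n ≤ m ∧ dist (g (-(m : ℝ)) z) z < ε

theorem int_inv {X : C(E, E)} {L : NNReal} {g : ℝ → E → E} (hX : ContDiff ℝ 1 X)
    (hL : LipschitzWith L X) (hg : IsFlowOf X g) {C : Set E} (hC : ∀ t, ∀ z ∈ C, g t z ∈ C)
    (t : ℝ) : g t '' interior C = interior C := by
  have h1 : ∀ t, g t '' interior C ⊆ interior C := by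
    intro t
    refine interior_maximal ?_ ?_
    · rintro _ ⟨x, hx, rfl⟩
      exact hC t x (interior_subset hx)
    · rw [image_flow hL hg]
      exact isOpen_interior.preimage (diff_flow hX hL hg _).continuous
  refine Subset.antisymm (h1 t) fun x hx => ?_
  exact ⟨g (-t) x, h1 (-t) ⟨x, hx, rfl⟩, inv_flow hL hg t x⟩

theorem conservative_step [MeasurableSpace E] [BorelSpace E] {f : E → E} {Ω W : Set E}
    {X : C(E, E)} {L : NNReal} {g : ℝ → E → E} (hX : ContDiff ℝ 1 X) (hL : LipschitzWith L X)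
    (hg : IsFlowOf X g) (hW : IsOpen W) (hWΩ : W ⊆ Ω) (hXf : ∀ z ∈ W, X z = f z)
    (htr : ∀ z ∈ Ω, LinearMap.trace ℝ E (fderiv ℝ f z : E →ₗ[ℝ] E) = 0) {C : Set E}
    (hCc : IsCompact C) (hCW : C ⊆ W) (hC : ∀ t, ∀ z ∈ C, g t z ∈ C) (μ : Measure E)
    [μ.IsAddHaarMeasure] (c : ℝ) : Conservative (g c) (μ.restrict (interior C)) := by
  have hgc : ∀ t, Continuous (g t) := fun t => (diff_flow hX hL hg t).continuous
  haveI : IsFiniteMeasure (μ.restrict (interior C)) := by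
    refine ⟨?_⟩
    rw [Measure.restrict_apply_univ]
    exact (measure_mono interior_subset).trans_lt hCc.measure_lt_top
  have hmp : MeasurePreserving (g c) (μ.restrict (interior C)) (μ.restrict (interior C)) := by
    refine ⟨(hgc c).measurable, ?_⟩
    ext s hs
    rw [Measure.map_apply (hgc c).measurable hs, Measure.restrict_apply hs,
      Measure.restrict_apply ((hgc c).measurable hs)]
    have h1 : g c '' (g c ⁻¹' s ∩ interior C) = s ∩ interior C := by
      rw [image_preimage_inter, int_inv hX hL hg hC]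
    rw [← h1]
    refine (measure_image hX hL hg μ (((hgc c).measurable hs).inter
      isOpen_interior.measurableSet) fun p hp r _ => ?_).symm
    exact trace_cut hW hWΩ hXf htr (hCW (hC r p (interior_subset hp.2)))
  exact hmp.conservative

theorem iter_flow {X : C(E, E)} {L : NNReal} {g : ℝ → E → E} (hL : LipschitzWith L X)
    (hg : IsFlowOf X g) (c : ℝ) (n : ℕ) (z : E) : (g c)^[n] z = g (n * c) z := by
  induction n with
  | zero => simp [hg.zero]
  | succ n ih =>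
    rw [Function.iterate_succ_apply', ih, ← hg.add hL]
    congr 1
    push_cast; ring

theorem rec_ae [MeasurableSpace E] [BorelSpace E] {f : E → E} {Ω W : Set E}
    {X : C(E, E)} {L : NNReal} {g : ℝ → E → E} (hX : ContDiff ℝ 1 X) (hL : LipschitzWith L X)
    (hg : IsFlowOf X g) (hW : IsOpen W) (hWΩ : W ⊆ Ω) (hXf : ∀ z ∈ W, X z = f z)
    (htr : ∀ z ∈ Ω, LinearMap.trace ℝ E (fderiv ℝ f z : E →ₗ[ℝ] E) = 0) {C : Set E}
    (hCc : IsCompact C) (hCW : C ⊆ W) (hC : ∀ t, ∀ z ∈ C, g t z ∈ C) (μ : Measure E)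
    [μ.IsAddHaarMeasure] : ∀ᵐ z ∂μ, z ∈ interior C → Rec g z := by
  haveI : ProperSpace E := FiniteDimensional.proper ℝ E
  have h1 := (conservative_step hX hL hg hW hWΩ hXf htr hCc hCW hC μ
    1).ae_frequently_mem_of_mem_nhds
  have h2 := (conservative_step hX hL hg hW hWΩ hXf htr hCc hCW hC μ
    (-1)).ae_frequently_mem_of_mem_nhds
  rw [ae_restrict_iff' isOpen_interior.measurableSet] at h1 h2
  filter_upwards [h1, h2] with z hz1 hz2 hz ε hε n
  constructor
  · obtain ⟨m, hm, hm2⟩ := frequently_atTop.1 (hz1 hz _ (Metric.ball_mem_nhds z hε)) n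
    refine ⟨m, hm, ?_⟩
    rw [iter_flow hL hg, mul_one] at hm2
    exact hm2
  · obtain ⟨m, hm, hm2⟩ := frequently_atTop.1 (hz2 hz _ (Metric.ball_mem_nhds z hε)) n
    refine ⟨m, hm, ?_⟩
    rw [iter_flow hL hg, mul_neg_one] at hm2
    exact hm2

theorem residual_of_ae [MeasurableSpace E] [BorelSpace E] (μ : Measure E) [μ.IsAddHaarMeasure]
    {O : Set E} (hO : IsOpen O) {ι : Type} [Countable ι] {G : ι → Set E} (hG : ∀ i, IsOpen (G i))
    (h : ∀ᵐ z ∂μ, z ∈ O → ∀ i, z ∈ G i) : ∀ᶠ z in residual E, z ∈ O → ∀ i, z ∈ G i := by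
  have h1 : ∀ i, ∀ᶠ z in residual E, z ∈ (closure O)ᶜ ∪ G i := by
    intro i
    refine residual_of_dense_open (isClosed_closure.isOpen_compl.union (hG i)) ?_
    rw [dense_iff_inter_open]
    intro V hV hVn
    by_contra hcon
    rw [not_nonempty_iff_eq_empty] at hcon
    obtain ⟨v, hv⟩ := hVn
    have hvc : v ∈ closure O := by
      by_contra h2
      exact Set.eq_empty_iff_forall_notMem.1 hcon v ⟨hv, Or.inl h2⟩
    obtain ⟨w, hwV, hwO⟩ := mem_closure_iff.1 hvc V hV hv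
    have h3 := (hV.inter hO).measure_pos μ ⟨w, hwV, hwO⟩
    have h4 : μ (V ∩ O) ≤ 0 := by
      rw [← ae_iff.1 h]
      refine measure_mono fun z hz hz2 => ?_
      exact Set.eq_empty_iff_forall_notMem.1 hcon z ⟨hz.1, Or.inr (hz2 hz.2 i)⟩
    exact absurd h4 (not_le.2 h3)
  filter_upwards [eventually_countable_forall.2 h1] with z hz hzO i
  exact (hz i).resolve_left fun h => h (subset_closure hzO)

theorem rec_residual [MeasurableSpace E] [BorelSpace E] {f : E → E} {Ω W : Set E}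
    {X : C(E, E)} {L : NNReal} {g : ℝ → E → E} (hX : ContDiff ℝ 1 X) (hL : LipschitzWith L X)
    (hg : IsFlowOf X g) (hW : IsOpen W) (hWΩ : W ⊆ Ω) (hXf : ∀ z ∈ W, X z = f z)
    (htr : ∀ z ∈ Ω, LinearMap.trace ℝ E (fderiv ℝ f z : E →ₗ[ℝ] E) = 0) {C : Set E}
    (hCc : IsCompact C) (hCW : C ⊆ W) (hC : ∀ t, ∀ z ∈ C, g t z ∈ C) :
    ∀ᶠ z in residual E, z ∈ interior C → Rec g z := by
  have hgc : ∀ t, Continuous (g t) := fun t => (diff_flow hX hL hg t).continuous
  have h1 := rec_ae hX hL hg hW hWΩ hXf htr hCc hCW hC (Measure.addHaar : Measure E)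
  have hop : ∀ (r : ℝ) (c : ℝ), IsOpen {z : E | dist (g c z) z < r} := fun r c =>
    isOpen_lt ((hgc c).dist continuous_id) continuous_const
  have hop1 : ∀ (r : ℝ) (n : ℕ), IsOpen {z : E | ∃ m : ℕ, n ≤ m ∧ dist (g m z) z < r} := by
    intro r n
    have : {z : E | ∃ m : ℕ, n ≤ m ∧ dist (g m z) z < r} =
        ⋃ m : ℕ, ⋃ _ : n ≤ m, {z : E | dist (g m z) z < r} := by
      ext z; simp
    rw [this]
    exact isOpen_iUnion fun m => isOpen_iUnion fun _ => hop _ _
  have hop2 : ∀ (r : ℝ) (n : ℕ),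
      IsOpen {z : E | ∃ m : ℕ, n ≤ m ∧ dist (g (-(m : ℝ)) z) z < r} := by
    intro r n
    have : {z : E | ∃ m : ℕ, n ≤ m ∧ dist (g (-(m : ℝ)) z) z < r} =
        ⋃ m : ℕ, ⋃ _ : n ≤ m, {z : E | dist (g (-(m : ℝ)) z) z < r} := by
      ext z; simp
    rw [this]
    exact isOpen_iUnion fun m => isOpen_iUnion fun _ => hop _ _
  have h2 := residual_of_ae (Measure.addHaar : Measure E) isOpen_interior (ι := ℕ × ℕ)
    (G := fun i => {z | ∃ m : ℕ, i.2 ≤ m ∧ dist (g m z) z < 1 / ((i.1 : ℝ) + 1)} ∩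
      {z | ∃ m : ℕ, i.2 ≤ m ∧ dist (g (-(m : ℝ)) z) z < 1 / ((i.1 : ℝ) + 1)})
    (O := interior C) (fun i => (hop1 _ _).inter (hop2 _ _))
    (by
      filter_upwards [h1] with z hz hzC i
      exact hz hzC _ (by positivity) i.2)
  filter_upwards [h2] with z hz hzC ε hε n
  obtain ⟨k, hk⟩ := exists_nat_one_div_lt hε
  obtain ⟨⟨m, hm, hm2⟩, m', hm', hm2'⟩ := hz hzC (k, n)
  exact ⟨⟨m, hm, hm2.trans hk⟩, m', hm', hm2'.trans hk⟩

end Pool.Agent.Q205.Liou
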