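import Pool.Agent.Q205.Liou.Comp

/-! Changes of time: recurrent points remain recurrent. -/

set_option autoImplicit false

namespace Pool.Agent.Q205.Liou

open Set MeasureTheory Filter Topology

variable {E : Type} [NormedAddCommGroup E] [NormedSpace ℝ E]

theorem time_change {f : E → E} {Ω : Set E} (hf : ∀ z ∈ Ω, ContDiffAt ℝ 1 f z) {y : ℝ → E}
    (hy : Sol f Ω (Ici 0) y) {u : ℝ → E} {c τ : ℝ → ℝ} (hc : Continuous c)
    (hu : ∀ s, HasDerivAt u (c s • f (u s)) s) (h0 : u 0 = y 0) (hτ0 : τ 0 = 0)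
    (hτ : ∀ s, HasDerivAt τ (c s) s) (hτn : ∀ s, 0 ≤ s → 0 ≤ τ s) :
    ∀ s, 0 ≤ s → u s = y (τ s) := by
  intro b hb
  have hyc : ContinuousOn y (Ici 0) := fun t ht => (hy t ht).2.continuousWithinAt
  have huc : Continuous u := continuous_iff_continuousAt.2 fun s => (hu s).continuousAt
  have hτc : Continuous τ := continuous_iff_continuousAt.2 fun s => (hτ s).continuousAt
  have hyτ : ContinuousOn (fun s => y (τ s)) (Ici 0) :=
    hyc.comp hτc.continuousOn fun s hs => hτn s hs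
  have key : Icc 0 b ⊆ {s | u s = y (τ s)} := by
    refine IsClosed.Icc_subset_of_forall_exists_gt ?_ ?_ ?_
    · have h1 : {s | u s = y (τ s)} ∩ Icc 0 b = Icc 0 b ∩ (fun s => u s - y (τ s)) ⁻¹' {0} := by
        ext s
        simp [sub_eq_zero, and_comm]
      rw [h1]
      exact (huc.continuousOn.sub (hyτ.mono fun s hs => hs.1)).preimage_isClosed_of_isClosed
        isClosed_Icc isClosed_singleton
    · change u 0 = y (τ 0)
      rw [hτ0, h0]
    · rintro x ⟨hx, hxa, hxb⟩ y' hy'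
      change u x = y (τ x) at hx
      have hΩx : y (τ x) ∈ Ω := (hy _ (hτn x hxa)).1
      obtain ⟨K, s0, hs0, hL⟩ := (hf _ hΩx).exists_lipschitzOnWith
      have e1 : ∀ᶠ s in 𝓝[Ici 0] x, u s ∈ s0 := by
        have : ∀ᶠ s in 𝓝 x, u s ∈ s0 := huc.continuousAt (by rw [hx]; exact hs0)
        exact mem_nhdsWithin_of_mem_nhds this
      have e2 : ∀ᶠ s in 𝓝[Ici 0] x, y (τ s) ∈ s0 := (hyτ x hxa) hs0
      have e3 : ∀ᶠ s in 𝓝[Ici 0] x, |c s| < |c x| + 1 := by
        have : ∀ᶠ s in 𝓝 x, |c s| < |c x| + 1 :=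
          (hc.abs.tendsto x).eventually (gt_mem_nhds (by linarith))
        exact mem_nhdsWithin_of_mem_nhds this
      have e4 := (e1.and (e2.and e3))
      obtain ⟨δ, hδ, hδW⟩ := Metric.mem_nhdsWithin_iff.1 e4
      set d := min y' (min b (x + δ / 2)) with hd
      have hxd : x < d := by
        rw [hd]
        exact lt_min hy' (lt_min hxb (by linarith))
      have hdb : d ≤ b := (min_le_right _ _).trans (min_le_left _ _)
      have hdδ : d ≤ x + δ / 2 := (min_le_right _ _).trans (min_le_right _ _)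
      have hin : ∀ s ∈ Ico x d, u s ∈ s0 ∧ y (τ s) ∈ s0 ∧ |c s| < |c x| + 1 := by
        intro s hs
        refine hδW ⟨?_, ?_⟩
        · rw [Metric.mem_ball, Real.dist_eq, abs_of_nonneg (by linarith [hs.1])]
          linarith [hs.2]
        · exact hxa.trans hs.1
      set K' : NNReal := Real.toNNReal (|c x| + 1) * K with hK'
      have hE : EqOn u (fun s => y (τ s)) (Icc x d) := by
        refine ODE_solution_unique_of_mem_Icc_right (v := fun s z => c s • f z)
          (s := fun _ => s0) (K := K') ?_ huc.continuousOn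
          (fun s _ => (hu s).hasDerivWithinAt) (fun s hs => (hin s hs).1)
          (hyτ.mono fun s hs => hxa.trans hs.1) ?_ (fun s hs => (hin s hs).2.1) hx
        · intro s hs
          refine LipschitzOnWith.of_dist_le_mul fun a ha b hb => ?_
          rw [dist_smul₀, hK', NNReal.coe_mul, Real.coe_toNNReal _ (by positivity), Real.norm_eq_abs,
            mul_assoc]
          exact mul_le_mul (hin s hs).2.2.le (hL.dist_le_mul a ha b hb) dist_nonneg (by positivity)
        · intro s hs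
          have hs0' : 0 ≤ s := hxa.trans hs.1
          have h2 := (hy (τ s) (hτn s hs0')).2
          have h3 : HasDerivWithinAt τ (c s) (Ici s) s := (hτ s).hasDerivWithinAt
          exact h2.scomp s h3 fun r hr => hτn r (hs0'.trans hr)
      exact ⟨d, hE ⟨hxd.le, le_rfl⟩, hxd, min_le_left _ _⟩
  exact key ⟨hb, le_rfl⟩

/-- recurrent points of `f` are recurrent for the time-changed flow -/
theorem returns_of_rec {f : E → E} {Ω : Set E} (hf : ∀ z ∈ Ω, ContDiffAt ℝ 1 f z) {x : E}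
    (hx : RecFwd f Ω x) {ψ : E → ℝ} (hψ : ContinuousOn ψ Ω) (hψ0 : ∀ z ∈ Ω, 0 < ψ z) {u : ℝ → E}
    (hu : ∀ s, HasDerivAt u (ψ (u s) • f (u s)) s) (huΩ : ∀ s, u s ∈ Ω) (h0 : u 0 = x)
    {V : Set E} (hV : IsOpen V) (hxV : x ∈ V) (T : ℝ) : ∃ t, T < t ∧ u t ∈ V := by
  obtain ⟨y, hy, hy0, hrec⟩ := hx
  have huc : Continuous u := continuous_iff_continuousAt.2 fun s => (hu s).continuousAt
  have hc : Continuous (fun s => ψ (u s)) :=
    continuousOn_univ.1 (hψ.comp huc.continuousOn fun s _ => huΩ s)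
  set τ : ℝ → ℝ := fun s => ∫ r in (0:ℝ)..s, ψ (u r) with hτ
  have hτ0 : τ 0 = 0 := by simp [hτ]
  have hτd : ∀ s, HasDerivAt τ (ψ (u s)) s := fun s =>
    (hc.integral_hasStrictDerivAt 0 s).hasDerivAt
  have hτc : Continuous τ := continuous_iff_continuousAt.2 fun s => (hτd s).continuousAt
  have hτmono : Monotone τ := by
    refine monotone_of_deriv_nonneg (fun s => (hτd s).differentiableAt) fun s => ?_
    rw [(hτd s).deriv]
    exact (hψ0 _ (huΩ s)).le
  have hτn : ∀ s, 0 ≤ s → 0 ≤ τ s := fun s hs => by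
    rw [← hτ0]
    exact hτmono hs
  have huy := time_change hf hy hc hu (h0.trans hy0.symm) hτ0 hτd hτn
  have hyc : ContinuousOn y (Ici 0) := fun t ht => (hy t ht).2.continuousWithinAt
  have hunb : ∀ M : ℝ, 0 ≤ M → ∃ s, 0 ≤ s ∧ M ≤ τ s := by
    intro M hM
    by_contra hcon
    push Not at hcon
    have hcomp : IsCompact (y '' Icc 0 M) :=
      isCompact_Icc.image_of_continuousOn (hyc.mono fun s hs => hs.1)
    have hsub : y '' Icc 0 M ⊆ Ω := by
      rintro _ ⟨t, ht, rfl⟩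
      exact (hy t ht.1).1
    obtain ⟨w, hw, hmin⟩ := hcomp.exists_isMinOn ⟨y 0, 0, ⟨le_rfl, hM⟩, rfl⟩ (hψ.mono hsub)
    have hδ : 0 < ψ w := hψ0 w (hsub hw)
    have h1 : ∀ s, 0 ≤ s → ψ w ≤ ψ (u s) := by
      intro s hs
      refine hmin ?_
      rw [huy s hs]
      exact ⟨τ s, ⟨hτn s hs, (hcon s hs).le⟩, rfl⟩
    have h2 : ∀ s, 0 ≤ s → ψ w * s ≤ τ s := by
      intro s hs
      have h3 : ∫ _ in (0:ℝ)..s, ψ w ≤ ∫ r in (0:ℝ)..s, ψ (u r) := by
        refine intervalIntegral.integral_mono_on hs (by simp) (hc.intervalIntegrable _ _) ?_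
        intro r hr
        exact h1 r hr.1
      rw [intervalIntegral.integral_const, sub_zero, smul_eq_mul, mul_comm] at h3
      exact h3
    have h4 := h2 (M / ψ w) (by positivity)
    rw [mul_div_cancel₀ _ hδ.ne'] at h4
    exact absurd h4 (not_le.2 (hcon _ (by positivity)))
  set T1 : ℝ := max T 0 + 1 with hT1
  have hT1T : T < T1 := by
    rw [hT1]
    linarith [le_max_left T 0]
  have hT10 : 0 ≤ T1 := by
    rw [hT1]
    linarith [le_max_right T 0]
  obtain ⟨ε, hε, hεV⟩ := Metric.isOpen_iff.1 hV x hxV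
  obtain ⟨t, ht, ht0, htε⟩ := hrec ε hε (τ T1)
  obtain ⟨S, hS, hSt⟩ := hunb t ht0
  have h5 : t ∈ Icc (τ T1) (τ (max S T1)) := ⟨ht, hSt.trans (hτmono (le_max_left _ _))⟩
  obtain ⟨s, hs, hst⟩ := intermediate_value_Icc (le_max_right S T1) hτc.continuousOn h5
  refine ⟨s, lt_of_lt_of_le hT1T hs.1, ?_⟩
  rw [huy s (hT10.trans hs.1), hst]
  exact hεV htε

end Pool.Agent.Q205.Liou
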