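import Pool.Agent.GR.Flow
import Pool.Agent.Q205.Liou.Det

/-! Liouville's theorem in a finite-dimensional space, along orbit segments on which the divergence
vanishes. -/

set_option autoImplicit false

namespace Pool.Agent.Q205.Liou

open Set MeasureTheory Filter Topology Pool.Agent.GR.Flow

variable {E : Type} [NormedAddCommGroup E] [NormedSpace ℝ E] [FiniteDimensional ℝ E]
  {X : C(E, E)} {K : NNReal} {g : ℝ → E → E}

theorem diff_flow (hX : ContDiff ℝ 1 X) (hK : LipschitzWith K X) (hg : IsFlowOf X g) (t : ℝ) :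
    Differentiable ℝ (g t) := by
  haveI : CompleteSpace E := FiniteDimensional.complete ℝ E
  have hX' : ContDiff ℝ ((1:ℕ):WithTop ℕ∞) X := by simpa using hX
  have hC := contDiff_flow one_ne_zero hX' hK hg
  have : ContDiff ℝ ((1:ℕ):WithTop ℕ∞) (g t) := hC.comp (contDiff_const.prodMk contDiff_id)
  exact this.differentiable (by simp)

theorem continuous_flow (hX : ContDiff ℝ 1 X) (hK : LipschitzWith K X) (hg : IsFlowOf X g) :
    Continuous (fun p : ℝ × E => g p.1 p.2) := by
  haveI : CompleteSpace E := FiniteDimensional.complete ℝ E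
  have hX' : ContDiff ℝ ((1:ℕ):WithTop ℕ∞) X := by simpa using hX
  exact (contDiff_flow one_ne_zero hX' hK hg).continuous

theorem hasDerivAt_det_flow (hX : ContDiff ℝ 1 X) (hK : LipschitzWith K X) (hg : IsFlowOf X g)
    (p : E) (s : ℝ) : HasDerivAt (fun s => (fderiv ℝ (g s) p).det)
      (LinearMap.trace ℝ E (fderiv ℝ X (g s p) : E →ₗ[ℝ] E) * (fderiv ℝ (g s) p).det) s := by
  haveI : CompleteSpace E := FiniteDimensional.complete ℝ E
  have e0 : g 0 = id := by ext1 y; exact hg.zero y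
  have h1 : (fun r => (fderiv ℝ (g r) p).det) =
      fun r => (fderiv ℝ (g (r - s)) (g s p)).det * (fderiv ℝ (g s) p).det := by
    ext r
    have h2 : g r = g (r - s) ∘ g s := by
      ext1 y
      rw [Function.comp_apply, ← hg.add hK, sub_add_cancel]
    conv_lhs => rw [h2]
    rw [fderiv_comp p (diff_flow hX hK hg _ _) (diff_flow hX hK hg _ _)]
    simp only [ContinuousLinearMap.det, ContinuousLinearMap.toLinearMap_comp]
    rw [LinearMap.det_comp]
  rw [h1]
  have h3 : HasDerivAt (fun r => (fderiv ℝ (g (r - s)) (g s p)).det)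
      (LinearMap.trace ℝ E (fderiv ℝ X (g s p) : E →ₗ[ℝ] E)) s := by
    have h4 := hasDerivAt_det (L := fun r => fderiv ℝ (g r) (g s p)) (A := fderiv ℝ X (g s p))
      (fun v => hasDerivAt_fderiv_flow hX hK hg (g s p) v) (by rw [e0]; exact fderiv_id)
    rw [← sub_self s] at h4
    have h5 := HasDerivAt.comp s (h₂ := fun r => (fderiv ℝ (g r) (g s p)).det)
      (h := fun r => r - s) h4 ((hasDerivAt_id s).sub_const s)
    rw [mul_one] at h5
    exact h5
  exact h3.mul_const _

theorem det_eq_one (hX : ContDiff ℝ 1 X) (hK : LipschitzWith K X) (hg : IsFlowOf X g) {p : E}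
    {t : ℝ} (h : ∀ s ∈ uIcc 0 t, LinearMap.trace ℝ E (fderiv ℝ X (g s p) : E →ₗ[ℝ] E) = 0) :
    (fderiv ℝ (g t) p).det = 1 := by
  have e0 : g 0 = id := by ext1 y; exact hg.zero y
  have h1 := Convex.norm_image_sub_le_of_norm_hasDerivWithin_le
    (f := fun s => (fderiv ℝ (g s) p).det)
    (f' := fun s => LinearMap.trace ℝ E (fderiv ℝ X (g s p) : E →ₗ[ℝ] E) * (fderiv ℝ (g s) p).det)
    (C := 0) (s := uIcc 0 t) (fun s _ => (hasDerivAt_det_flow hX hK hg p s).hasDerivWithinAt)
    (fun s hs => by simp [h s hs]) (convex_uIcc 0 t) left_mem_uIcc right_mem_uIcc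
  rw [zero_mul, norm_le_zero_iff, sub_eq_zero] at h1
  have h2 : (fderiv ℝ (g 0) p).det = 1 := by
    rw [e0, fderiv_id]
    simp [ContinuousLinearMap.det]
  exact h1.trans h2

theorem injective_flow (hK : LipschitzWith K X) (hg : IsFlowOf X g) (t : ℝ) :
    Function.Injective (g t) := by
  intro x y hxy
  have h := congrArg (g (-t)) hxy
  rw [← hg.add hK, ← hg.add hK, neg_add_cancel, hg.zero, hg.zero] at h
  exact h

theorem inv_flow (hK : LipschitzWith K X) (hg : IsFlowOf X g) (t : ℝ) (x : E) :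
    g t (g (-t) x) = x := by
  rw [← hg.add hK, add_neg_cancel, hg.zero]

theorem inv_flow' (hK : LipschitzWith K X) (hg : IsFlowOf X g) (t : ℝ) (x : E) :
    g (-t) (g t x) = x := by
  rw [← hg.add hK, neg_add_cancel, hg.zero]

theorem image_flow (hK : LipschitzWith K X) (hg : IsFlowOf X g) (t : ℝ) (S : Set E) :
    g t '' S = g (-t) ⁻¹' S := by
  ext x
  constructor
  · rintro ⟨y, hy, rfl⟩
    rw [mem_preimage, inv_flow' hK hg]
    exact hy
  · intro hx
    exact ⟨g (-t) x, hx, inv_flow hK hg t x⟩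

/-- Liouville's theorem -/
theorem measure_image (hX : ContDiff ℝ 1 X) (hK : LipschitzWith K X) (hg : IsFlowOf X g)
    [MeasurableSpace E] [BorelSpace E] (μ : Measure E) [μ.IsAddHaarMeasure] {S : Set E}
    (hS : MeasurableSet S) {t : ℝ}
    (h : ∀ p ∈ S, ∀ s ∈ uIcc 0 t, LinearMap.trace ℝ E (fderiv ℝ X (g s p) : E →ₗ[ℝ] E) = 0) :
    μ (g t '' S) = μ S := by
  have h1 := lintegral_abs_det_fderiv_eq_addHaar_image μ hS
    (fun p _ => (diff_flow hX hK hg t p).hasFDerivAt.hasFDerivWithinAt)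
    ((injective_flow hK hg t).injOn (s := S))
  rw [← h1]
  have h2 : ∫⁻ x in S, ENNReal.ofReal |(fderiv ℝ (g t) x).det| ∂μ = ∫⁻ _ in S, 1 ∂μ := by
    refine setLIntegral_congr_fun hS fun x hx => ?_
    rw [det_eq_one hX hK hg (h x hx)]
    simp
  rw [h2]
  simp

end Pool.Agent.Q205.Liou
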